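import Pool.Agent.T6.H35.EQ.Prime

/-!
# Bilinear sums at one scale
-/

set_option autoImplicit false

namespace Pool.Agent.T6.H35.EQ

open Finset
open Pool.Agent.H469R2.NK (e norm_e e_add e_zero conj_e)
open Pool.Agent.H807R2.Dav (KK KK_neg KK_nonneg geo_bound vino)

lemma bil_cs {M L : ℕ} {A B : Finset ℕ} (hA : A ⊆ Icc 1 M) (hB : B ⊆ Icc 1 L) (α : ℝ) :
    ‖∑ a ∈ A, ∑ b ∈ B, e ((a : ℝ) * b * α)‖ ^ 2 ≤
      M * ∑ b ∈ B, ∑ b' ∈ range (L + 1), KK M (-(b * α) + b' * α) := by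
  have h1 : ‖∑ a ∈ A, ∑ b ∈ B, e ((a : ℝ) * b * α)‖ ^ 2 ≤
      A.card * ∑ a ∈ A, ‖∑ b ∈ B, e ((a : ℝ) * b * α)‖ ^ 2 := by
    have h2 : ‖∑ a ∈ A, ∑ b ∈ B, e ((a : ℝ) * b * α)‖ ≤ ∑ a ∈ A, ‖∑ b ∈ B, e ((a : ℝ) * b * α)‖ :=
      norm_sum_le _ _
    refine (pow_le_pow_left₀ (norm_nonneg _) h2 2).trans ?_
    exact sq_sum_le_card_mul_sum_sq
  refine h1.trans ?_
  have hAM : (A.card : ℝ) ≤ M := by
    have := card_le_card hA
    rw [Nat.card_Icc, Nat.add_sub_cancel] at this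
    exact_mod_cast this
  have h3 : ∑ a ∈ A, ‖∑ b ∈ B, e ((a : ℝ) * b * α)‖ ^ 2 ≤
      ∑ a ∈ Icc 1 M, ‖∑ b ∈ B, e ((a : ℝ) * b * α)‖ ^ 2 :=
    sum_le_sum_of_subset_of_nonneg hA fun _ _ _ => by positivity
  have h4 : ∑ a ∈ Icc 1 M, ‖∑ b ∈ B, e ((a : ℝ) * b * α)‖ ^ 2 ≤
      ∑ b ∈ B, ∑ b' ∈ range (L + 1), KK M (-(b * α) + b' * α) := by
    have h5 : ((∑ a ∈ Icc 1 M, ‖∑ b ∈ B, e ((a : ℝ) * b * α)‖ ^ 2 : ℝ) : ℂ) =
        ∑ b ∈ B, ∑ b' ∈ B, ∑ a ∈ Icc 1 M, e ((a : ℝ) * (-(b * α) + b' * α)) := by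
      push_cast
      have h6 : ∀ a : ℕ, ((‖∑ b ∈ B, e ((a : ℝ) * b * α)‖ : ℝ) : ℂ) ^ 2 =
          ∑ b ∈ B, ∑ b' ∈ B, e ((a : ℝ) * (-(b * α) + b' * α)) := by
        intro a
        rw [← Complex.ofReal_pow, ← Complex.normSq_eq_norm_sq, Complex.normSq_eq_conj_mul_self,
          map_sum, sum_mul_sum]
        refine sum_congr rfl fun b _ => sum_congr rfl fun b' _ => ?_
        rw [conj_e, ← e_add]; congr 1; ring
      rw [sum_congr rfl fun a _ => h6 a, sum_comm]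
      refine sum_congr rfl fun b _ => ?_
      rw [sum_comm]
    have h7 : ∑ a ∈ Icc 1 M, ‖∑ b ∈ B, e ((a : ℝ) * b * α)‖ ^ 2 =
        ‖((∑ a ∈ Icc 1 M, ‖∑ b ∈ B, e ((a : ℝ) * b * α)‖ ^ 2 : ℝ) : ℂ)‖ := by
      rw [Complex.norm_real, Real.norm_of_nonneg (sum_nonneg fun _ _ => by positivity)]
    rw [h7, h5]
    refine (norm_sum_le _ _).trans (sum_le_sum fun b _ => (norm_sum_le _ _).trans ?_)
    have h8 : B ⊆ range (L + 1) := by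
      intro x hx
      have := hB hx
      rw [mem_Icc] at this
      rw [mem_range]; omega
    refine (sum_le_sum (f := fun b' : ℕ => ‖∑ a ∈ Icc 1 M, e ((a : ℝ) * (-(b * α) + b' * α))‖)
      (g := fun b' : ℕ => KK M (-(b * α) + b' * α)) fun b' _ => ?_).trans
      (sum_le_sum_of_subset_of_nonneg h8 fun _ _ _ => KK_nonneg (Nat.cast_nonneg _) _)
    have h9 := geo_bound 1 (M + 1) (by omega) (M := (M : ℝ)) (by push_cast; linarith)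
      (-(b * α) + b' * α)
    simp only [ee_eq_e] at h9
    have h10 : Icc 1 M = Ico 1 (M + 1) := by
      ext x; rw [mem_Icc, mem_Ico]; omega
    show ‖∑ a ∈ Icc 1 M, e ((a : ℝ) * (-(b * α) + b' * α))‖ ≤ _
    rw [h10]
    exact h9
  have h0 : 0 ≤ ∑ a ∈ A, ‖∑ b ∈ B, e ((a : ℝ) * b * α)‖ ^ 2 := sum_nonneg fun _ _ => by positivity
  exact mul_le_mul hAM (h3.trans h4) h0 (Nat.cast_nonneg _)

/-- bilinear sums over arbitrary sets -/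
theorem bil_sum {η κ : ℝ} (hη : 0 < η) (hκ : 0 < κ) : ∃ σ : ℝ, 0 < σ ∧ σ ≤ 1 / 8 ∧ ∃ C : ℝ, 1 ≤ C ∧
    ∀ (N M L : ℕ) (A B : Finset ℕ) (α : ℝ), 1 ≤ N → Irr N η α → A ⊆ Icc 1 M → B ⊆ Icc 1 L →
      M * L ≤ N → (N : ℝ) ^ κ ≤ M → (N : ℝ) ^ κ ≤ L →
      ‖∑ a ∈ A, ∑ b ∈ B, e ((a : ℝ) * b * α)‖ ≤ C * (N : ℝ) ^ (1 - σ) := by
  set ρ : ℝ := min (min η κ) (1 / 2) with hρ
  have hρ0 : 0 < ρ := lt_min (lt_min hη hκ) (by norm_num)
  have hρ1 : ρ ≤ η := (min_le_left _ _).trans (min_le_left _ _)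
  have hρ2 : ρ ≤ κ := (min_le_left _ _).trans (min_le_right _ _)
  have hρ3 : ρ ≤ 1 / 2 := min_le_right _ _
  obtain ⟨C0, hC0, hlog⟩ := log_pow 1 (ρ / 2) (by positivity)
  refine ⟨ρ / 4, by positivity, by linarith, 126 * C0, by linarith, ?_⟩
  intro N M L A B α hN hI hA hB hML hM hL
  have hN1 : (1 : ℝ) ≤ N := by exact_mod_cast hN
  have hN0 : (0 : ℝ) < N := by linarith
  have hpw : ∀ t : ℝ, 0 < (N : ℝ) ^ t := fun t => Real.rpow_pos_of_pos hN0 t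
  have hmono : ∀ {s t : ℝ}, s ≤ t → (N : ℝ) ^ s ≤ (N : ℝ) ^ t := fun h =>
    Real.rpow_le_rpow_of_exponent_le hN1 h
  obtain ⟨q, a, hq1, hcop, hap, hql, hqu⟩ := hI.approx hN1
  have hq0 : (0 : ℝ) < q := by exact_mod_cast hq1
  have hqr1 : (1 : ℝ) ≤ q := by exact_mod_cast hq1
  have hk1 : (1 : ℝ) ≤ (N : ℝ) ^ κ := Real.one_le_rpow hN1 hκ.le
  have hM1 : (1 : ℝ) ≤ M := hk1.trans hM
  have hL1 : (1 : ℝ) ≤ L := hk1.trans hL
  have hMLr : (M : ℝ) * L ≤ N := by exact_mod_cast hML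
  have hPρ := hpw (1 - ρ)
  have hNsplit : (N : ℝ) = (N : ℝ) ^ (1 - ρ) * (N : ℝ) ^ ρ := by rw [← Real.rpow_add hN0]; simp
  have hMu : (M : ℝ) ≤ (N : ℝ) ^ (1 - ρ) := by
    have h1 : (N : ℝ) ^ ρ ≤ L := (hmono hρ2).trans hL
    by_contra hcon
    have h2 : (N : ℝ) ^ (1 - ρ) * (N : ℝ) ^ ρ < M * L := by
      apply mul_lt_mul (not_le.1 hcon) h1 (hpw _) (by linarith)
    linarith
  have hLu : (L : ℝ) ≤ (N : ℝ) ^ (1 - ρ) := by
    have h1 : (N : ℝ) ^ ρ ≤ M := (hmono hρ2).trans hM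
    by_contra hcon
    have h2 : (N : ℝ) ^ (1 - ρ) * (N : ℝ) ^ ρ < L * M := by
      apply mul_lt_mul (not_le.1 hcon) h1 (hpw _) (by linarith)
    linarith [mul_comm (M : ℝ) L]
  have hqn : (q : ℝ) ≤ (N : ℝ) ^ (1 - ρ) := hqu.trans (hmono (by linarith))
  set G : ℝ := 1 + Real.log q with hG
  have hG1 : 1 ≤ G := by have := Real.log_nonneg hqr1; linarith
  have hGu : G ≤ C0 * (N : ℝ) ^ (ρ / 2) := by
    have h1 := hlog N hN
    rw [pow_one] at h1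
    refine le_trans ?_ h1
    rw [hG]
    have h2 : (q : ℝ) ≤ 4 * N := by
      have : (q : ℝ) ≤ N := hqu.trans (by
        calc (N : ℝ) ^ (1 / 2 : ℝ) ≤ (N : ℝ) ^ (1 : ℝ) := hmono (by norm_num)
          _ = N := Real.rpow_one _)
      linarith
    have := Real.log_le_log hq0 h2
    linarith
  have hsum : ∑ b ∈ B, ∑ b' ∈ range (L + 1), KK M (-(b * α) + b' * α) ≤
      L * (((L + 1 : ℕ) / q + 1) * (39 * M + 3 * q * G)) := by
    refine (sum_le_sum fun (b : ℕ) _ => vino hq1 hcop hap (Nat.cast_nonneg M) (-((b : ℝ) * α)) (L + 1)).trans ?_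
    rw [sum_const, nsmul_eq_mul]
    apply mul_le_mul_of_nonneg_right
    · have := card_le_card hB
      rw [Nat.card_Icc, Nat.add_sub_cancel] at this
      exact_mod_cast this
    · positivity
  have h1 := (bil_cs hA hB α).trans (mul_le_mul_of_nonneg_left hsum (Nat.cast_nonneg M))
  have h2 : (M : ℝ) * (L * (((L + 1 : ℕ) / q + 1) * (39 * M + 3 * q * G))) ≤
      126 * G * (N * (N : ℝ) ^ (1 - ρ)) := by
    have e1 : (((L + 1 : ℕ) : ℝ) / q + 1) ≤ 2 * L / q + 1 := by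
      push_cast
      have : ((L : ℝ) + 1) / q ≤ 2 * L / q := by
        apply div_le_div_of_nonneg_right _ hq0.le
        linarith
      linarith
    have e2 : (M : ℝ) * L / q ≤ (N : ℝ) ^ (1 - ρ) := by
      rw [div_le_iff₀ hq0]
      calc (M : ℝ) * L ≤ N := hMLr
        _ = (N : ℝ) ^ (1 - ρ) * (N : ℝ) ^ ρ := hNsplit
        _ ≤ _ := mul_le_mul_of_nonneg_left ((hmono hρ1).trans hql.le) hPρ.le
    have e3 : (2 * (L : ℝ) / q + 1) * (39 * M + 3 * q * G) =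
        78 * (M * L / q) + 6 * L * G + 39 * M + 3 * q * G := by
      field_simp
      ring
    have e4 : (2 * (L : ℝ) / q + 1) * (39 * M + 3 * q * G) ≤ 126 * G * (N : ℝ) ^ (1 - ρ) := by
      rw [e3]
      have f1 : (L : ℝ) * G ≤ (N : ℝ) ^ (1 - ρ) * G := mul_le_mul_of_nonneg_right hLu (by linarith)
      have f2 : (q : ℝ) * G ≤ (N : ℝ) ^ (1 - ρ) * G := mul_le_mul_of_nonneg_right hqn (by linarith)
      have f3 : (N : ℝ) ^ (1 - ρ) ≤ (N : ℝ) ^ (1 - ρ) * G := by nlinarith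
      nlinarith
    have e5 : 0 ≤ 39 * (M : ℝ) + 3 * q * G := by positivity
    calc (M : ℝ) * (L * (((L + 1 : ℕ) / q + 1) * (39 * M + 3 * q * G))) ≤
        M * (L * ((2 * L / q + 1) * (39 * M + 3 * q * G))) := by gcongr
      _ = (M * L) * ((2 * L / q + 1) * (39 * M + 3 * q * G)) := by ring
      _ ≤ N * (126 * G * (N : ℝ) ^ (1 - ρ)) := by
          apply mul_le_mul hMLr e4 _ hN0.le
          positivity
      _ = _ := by ring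
  have h3 : ‖∑ a ∈ A, ∑ b ∈ B, e ((a : ℝ) * b * α)‖ ^ 2 ≤ (126 * C0 * (N : ℝ) ^ (1 - ρ / 4)) ^ 2 := by
    refine (h1.trans h2).trans ?_
    have e6 : (N : ℝ) ^ (ρ / 2) * (N * (N : ℝ) ^ (1 - ρ)) = ((N : ℝ) ^ (1 - ρ / 4)) ^ 2 := by
      rw [← Real.rpow_natCast ((N : ℝ) ^ (1 - ρ / 4)), ← Real.rpow_mul hN0.le]
      have : (N : ℝ) * (N : ℝ) ^ (1 - ρ) = (N : ℝ) ^ (2 - ρ) := by
        rw [show (2 : ℝ) - ρ = 1 + (1 - ρ) by ring, Real.rpow_add hN0 1, Real.rpow_one]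
      rw [this, ← Real.rpow_add hN0]
      congr 1; push_cast; ring
    calc 126 * G * (N * (N : ℝ) ^ (1 - ρ)) ≤ 126 * (C0 * (N : ℝ) ^ (ρ / 2)) * (N * (N : ℝ) ^ (1 - ρ)) := by
          gcongr
      _ = 126 * C0 * ((N : ℝ) ^ (ρ / 2) * (N * (N : ℝ) ^ (1 - ρ))) := by ring
      _ = 126 * C0 * ((N : ℝ) ^ (1 - ρ / 4)) ^ 2 := by rw [e6]
      _ ≤ (126 * C0) ^ 2 * ((N : ℝ) ^ (1 - ρ / 4)) ^ 2 := by
          apply mul_le_mul_of_nonneg_right _ (by positivity)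
          nlinarith
      _ = _ := by ring
  exact (pow_le_pow_iff_left₀ (norm_nonneg _) (by have := hpw (1 - ρ / 4); positivity) two_ne_zero).1 h3

end Pool.Agent.T6.H35.EQ
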