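import Pool.Agent.T6.H35.EQ.Weyl

/-!
# Polynomials are polynomial phases; discrepancy of a finite family
-/

set_option autoImplicit false

namespace Pool.Agent.T6.H35.EQ

open Finset Polynomial
open Pool.Agent.H469R2.NK (e norm_e e_add e_zero conj_e)

lemma hasse_top {k : ℕ} {P : ℝ[X]} (hP : P.natDegree ≤ k) (x : ℝ) :
    (hasseDeriv k P).eval x = P.coeff k := by
  have h1 : hasseDeriv k P = C (P.coeff k) := by
    ext n
    rw [hasseDeriv_coeff, coeff_C]
    rcases Nat.eq_zero_or_pos n with rfl | hn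
    · simp
    · rw [if_neg (by omega), coeff_eq_zero_of_natDegree_lt (by omega), mul_zero]
  rw [h1, eval_C]

lemma hasse_sub {k : ℕ} {P : ℝ[X]} (hP : P.natDegree ≤ k + 1) (x : ℝ) :
    (hasseDeriv k P).eval x = P.coeff k + (k + 1) * P.coeff (k + 1) * x := by
  have h1 : hasseDeriv k P = C (P.coeff k) + C ((k + 1) * P.coeff (k + 1)) * X := by
    ext n
    rw [hasseDeriv_coeff, coeff_add, coeff_C, coeff_C_mul, coeff_X]
    rcases Nat.lt_or_ge n 2 with hn | hn
    · interval_cases n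
      · simp
      · simp only [one_ne_zero, if_false, if_true, zero_add, mul_one]
        rw [add_comm 1 k, Nat.choose_succ_self_right]
        push_cast; ring
    · rw [if_neg (by omega), if_neg (by omega), coeff_eq_zero_of_natDegree_lt (by omega)]
      ring
  rw [h1]
  simp

/-- polynomials are polynomial phases -/
lemma ph_poly (k : ℕ) : ∀ P : ℝ[X], P.natDegree ≤ k + 1 →
    Ph k (P.coeff (k + 1)) (fun n => P.eval (n : ℝ)) := by
  induction k with
  | zero =>
    intro P hP
    refine ⟨P.coeff 0, fun n => ?_⟩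
    show P.eval (n : ℝ) = _
    rw [eval_eq_sum_range' (show P.natDegree < 2 by omega), sum_range_succ, sum_range_one]
    simp; ring
  | succ k ih =>
    intro P hP h hh
    set Q : ℝ[X] := taylor (h : ℝ) P - P with hQ
    have hev : (fun n : ℕ => P.eval (((n + h : ℕ)) : ℝ) - P.eval (n : ℝ)) =
        fun n : ℕ => Q.eval (n : ℝ) := by
      funext n
      rw [hQ, eval_sub, taylor_eval]
      push_cast; ring_nf
    have hdeg : Q.natDegree ≤ k + 1 := by
      rw [natDegree_le_iff_coeff_eq_zero]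
      intro n hn
      rw [hQ, coeff_sub, taylor_coeff]
      rcases Nat.lt_or_ge n (k + 3) with h1 | h1
      · have h2 : n = k + 2 := by omega
        subst h2
        rw [hasse_top hP, sub_self]
      · rw [coeff_eq_zero_of_natDegree_lt (show P.natDegree < n by omega), sub_zero,
          hasse_top (show P.natDegree ≤ n by omega),
          coeff_eq_zero_of_natDegree_lt (show P.natDegree < n by omega)]
    have hco : Q.coeff (k + 1) = (k + 2) * h * P.coeff (k + 2) := by
      rw [hQ, coeff_sub, taylor_coeff, hasse_sub (k := k + 1) hP]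
      push_cast; ring
    have := ih Q hdeg
    rw [hco, ← hev] at this
    exact this

/-- counting points in an initial interval by the sawtooth function -/
lemma count_eq {ι : Type} (S : Finset ι) (x : ι → ℝ) {c : ℝ} (h0 : 0 ≤ c) (h1 : c ≤ 1) :
    ((S.filter (fun n => Int.fract (x n) < c)).card : ℝ) - c * S.card =
      ∑ n ∈ S, (Int.fract (x n - c) - 1 / 2) - ∑ n ∈ S, (Int.fract (x n) - 1 / 2) := by
  rw [card_filter]
  push_cast
  rw [← sum_sub_distrib]
  have : c * (S.card : ℝ) = ∑ n ∈ S, c := by rw [sum_const, nsmul_eq_mul, mul_comm]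
  rw [this, ← sum_sub_distrib]
  refine sum_congr rfl fun n _ => ?_
  set y := Int.fract (x n) with hy
  have hy0 : 0 ≤ y := Int.fract_nonneg _
  have hy1 : y < 1 := Int.fract_lt_one _
  have hfr : Int.fract (x n - c) = Int.fract (y - c) := by
    rw [hy]
    have : x n - c = Int.fract (x n) - c + (⌊x n⌋ : ℤ) := by
      unfold Int.fract; ring
    rw [this, Int.fract_add_intCast]
  rw [hfr]
  by_cases hc : y < c
  · rw [if_pos hc]
    have : Int.fract (y - c) = y - c + 1 := by
      rw [Int.fract_eq_iff]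
      refine ⟨by linarith, by linarith, -1, by push_cast; ring⟩
    rw [this]; ring
  · rw [if_neg hc]
    have : Int.fract (y - c) = y - c := by
      rw [Int.fract_eq_iff]
      refine ⟨by linarith [not_lt.1 hc], by linarith, 0, by push_cast; ring⟩
    rw [this]; ring

/-- discrepancy of a finite family from its exponential sums -/
theorem disc {ι : Type} (S : Finset ι) (x : ι → ℝ) {T τ E : ℝ} (hT : 1 ≤ T) (hS : (S.card : ℝ) ≤ T)
    (hτ : 0 < τ) (hE : ∀ h : ℕ, 1 ≤ h → (h : ℝ) ≤ 2 * T ^ (2 * τ) → ‖∑ n ∈ S, e (h * x n)‖ ≤ E)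
    {c : ℝ} (h0 : 0 ≤ c) (h1 : c ≤ 1) :
    |((S.filter (fun n => Int.fract (x n) < c)).card : ℝ) - c * S.card| ≤
      4 * T ^ (2 * τ) * E + 4 * T ^ (1 - τ) := by
  have hT0 : 0 < T := by linarith
  have hpw : ∀ t : ℝ, 0 < T ^ t := fun t => Real.rpow_pos_of_pos hT0 t
  set K : ℕ := ⌈T ^ (2 * τ)⌉₊ with hK
  have hq1 : (1 : ℝ) ≤ T ^ (2 * τ) := Real.one_le_rpow hT (by positivity)
  have hKl : T ^ (2 * τ) ≤ K := Nat.le_ceil _
  have hKu : (K : ℝ) ≤ 2 * T ^ (2 * τ) := by
    have := (Nat.ceil_lt_add_one (show 0 ≤ T ^ (2 * τ) by positivity)).le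
    linarith
  have hK1 : 1 ≤ K := by
    have : (1 : ℝ) ≤ K := hq1.trans hKl
    exact_mod_cast this
  have hE0 : 0 ≤ E := (norm_nonneg _).trans (hE 1 le_rfl (by push_cast; linarith))
  have hK0 : (0 : ℝ) < K := by linarith
  set B : ℝ := 2 * T ^ (2 * τ) * E + 2 * T ^ (1 - τ) with hB
  have key : ∀ y : ι → ℝ, (∀ h : ℕ, ‖∑ n ∈ S, e (h * y n)‖ = ‖∑ n ∈ S, e (h * x n)‖) →
      |∑ n ∈ S, (Int.fract (y n) - 1 / 2)| ≤ B := by
    intro y hy
    have hδ1 : T ^ (-τ) ≤ 1 := Real.rpow_le_one_of_one_le_of_nonpos hT (by linarith)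
    have h2 := Pool.Agent.R485.Trans.saw_bound S y K hK1 (T ^ (-τ)) (hpw _) hδ1
    refine h2.trans ?_
    have h3 : ∑ h ∈ Icc 1 K, ‖∑ n ∈ S, e (h * y n)‖ / h ≤ K * E := by
      have : ∀ h ∈ Icc 1 K, ‖∑ n ∈ S, e (h * y n)‖ / h ≤ E := by
        intro h hh
        rw [mem_Icc] at hh
        rw [hy h]
        have h1' : (1 : ℝ) ≤ h := by exact_mod_cast hh.1
        have h4 : ‖∑ n ∈ S, e (h * x n)‖ ≤ E := hE h hh.1 (le_trans (by exact_mod_cast hh.2) hKu)
        rw [div_le_iff₀ (by linarith)]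
        nlinarith
      refine (sum_le_sum this).trans ?_
      rw [sum_const, Nat.card_Icc, nsmul_eq_mul]
      simp
    have h4 : (S.card : ℝ) / (K * T ^ (-τ)) ≤ T ^ (1 - τ) := by
      rw [div_le_iff₀ (by have := hpw (-τ); positivity)]
      calc (S.card : ℝ) ≤ T := hS
        _ = T ^ (1 - τ) * (T ^ (2 * τ) * T ^ (-τ)) := by
            rw [← Real.rpow_add hT0, ← Real.rpow_add hT0]
            conv_lhs => rw [← Real.rpow_one T]
            congr 1; ring
        _ ≤ T ^ (1 - τ) * (K * T ^ (-τ)) := by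
            gcongr
    have h5 : (S.card : ℝ) * T ^ (-τ) ≤ T ^ (1 - τ) := by
      calc (S.card : ℝ) * T ^ (-τ) ≤ T * T ^ (-τ) := by gcongr
        _ = T ^ (1 - τ) := by
            rw [sub_eq_add_neg, Real.rpow_add hT0, Real.rpow_one]
    have h6 : (K : ℝ) * E ≤ 2 * T ^ (2 * τ) * E := mul_le_mul_of_nonneg_right hKu hE0
    rw [hB]
    linarith
  have hc : ∀ h : ℕ, ‖∑ n ∈ S, e (h * (x n - c))‖ = ‖∑ n ∈ S, e (h * x n)‖ := by
    intro h
    have : ∑ n ∈ S, e (h * (x n - c)) = e (-(h * c)) * ∑ n ∈ S, e (h * x n) := by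
      rw [mul_sum]
      refine sum_congr rfl fun n _ => ?_
      rw [← e_add]; congr 1; ring
    rw [this, norm_mul, norm_e, one_mul]
  have h2 := key (fun n => x n - c) hc
  have h3 := key x (fun h => rfl)
  rw [count_eq S x h0 h1]
  refine (abs_sub _ _).trans ?_
  rw [hB] at h2 h3
  linarith

end Pool.Agent.T6.H35.EQ
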