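import Pool.Agent.T6.H35.EQ.Prime

/-!
# From the von Mangoldt function to the primes
-/

set_option autoImplicit false

namespace Pool.Agent.T6.H35.EQ

open Finset ArithmeticFunction
open Pool.Agent.H469R2.NK (e norm_e e_add e_zero conj_e)
open Pool.Agent.H807R2.Dav (ee norm_ee)

lemma norm_lam (n : ℕ) (x : ℝ) : ‖((Λ n : ℝ) : ℂ) * ee x‖ = Λ n := by
  rw [norm_mul, norm_ee, mul_one, Complex.norm_real, Real.norm_of_nonneg vonMangoldt_nonneg]

/-- the trivial bound -/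
lemma triv (M : ℕ) (α : ℝ) : ‖∑ n ∈ Ioc 0 M, ((Λ n : ℝ) : ℂ) * ee ((n : ℝ) * α)‖ ≤ 6 * M := by
  refine (norm_sum_le _ _).trans ?_
  rw [sum_congr rfl fun n _ => norm_lam n _]
  have h1 : ∑ n ∈ Ioc 0 M, Λ n = Chebyshev.psi M := by
    rw [Chebyshev.psi, Nat.floor_natCast]
  rw [h1]
  have h2 := Chebyshev.psi_le_const_mul_self (Nat.cast_nonneg M (α := ℝ))
  have h4 : Real.log 4 ≤ 2 := by
    have : Real.log 4 = 2 * Real.log 2 := by
      rw [show (4 : ℝ) = 2 ^ 2 by norm_num, Real.log_pow]; norm_num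
    rw [this]; linarith [Real.log_two_lt_d9]
  have h5 : (0 : ℝ) ≤ M := Nat.cast_nonneg _
  nlinarith

lemma lam_sum {η : ℝ} (hη : 0 < η) : ∃ σ : ℝ, 0 < σ ∧ σ ≤ 1 / 64 ∧ ∃ C : ℝ, 1 ≤ C ∧
    ∀ (N M : ℕ) (α : ℝ), 1 ≤ N → Irr N η α → M ≤ N →
      ‖∑ n ∈ Ioc 0 M, ((Λ n : ℝ) : ℂ) * ee ((n : ℝ) * α)‖ ≤ C * (N : ℝ) ^ (1 - σ) := by
  obtain ⟨s, hs0, hs1, C, hC, hb⟩ := block hη
  obtain ⟨C0, hC0, hlog⟩ := log_pow 1 (s / 2) (by positivity)
  refine ⟨s / 2, by positivity, by linarith, 2 * C0 * C + 12, by nlinarith, ?_⟩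
  intro N M α hN hI hM
  have hN1 : (1 : ℝ) ≤ N := by exact_mod_cast hN
  have hN0 : (0 : ℝ) < N := by linarith
  have hpw : ∀ t : ℝ, 0 < (N : ℝ) ^ t := fun t => Real.rpow_pos_of_pos hN0 t
  have hmono : ∀ {s t : ℝ}, s ≤ t → (N : ℝ) ^ s ≤ (N : ℝ) ^ t := fun h =>
    Real.rpow_le_rpow_of_exponent_le hN1 h
  set X : ℕ := ⌈(N : ℝ) ^ (3 / 4 : ℝ)⌉₊ with hX
  have hX1 : (1 : ℝ) ≤ (N : ℝ) ^ (3 / 4 : ℝ) := Real.one_le_rpow hN1 (by norm_num)
  have hXl : (N : ℝ) ^ (3 / 4 : ℝ) ≤ X := Nat.le_ceil _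
  have hXu : (X : ℝ) ≤ 2 * (N : ℝ) ^ (3 / 4 : ℝ) := by
    have := (Nat.ceil_lt_add_one (show 0 ≤ (N : ℝ) ^ (3 / 4 : ℝ) by linarith)).le
    linarith
  have hstep : ∀ k : ℕ, ∀ M : ℕ, M ≤ N → M ≤ 2 ^ k * X →
      ‖∑ n ∈ Ioc 0 M, ((Λ n : ℝ) : ℂ) * ee ((n : ℝ) * α)‖ ≤
        k * (C * (N : ℝ) ^ (1 - s)) + 12 * (N : ℝ) ^ (3 / 4 : ℝ) := by
    intro k
    induction k with
    | zero =>
      intro M _ hMX
      rw [pow_zero, one_mul] at hMX
      have : (M : ℝ) ≤ X := by exact_mod_cast hMX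
      have h1 := triv M α
      push_cast
      linarith
    | succ k ih =>
      intro M hMN hMX
      rcases Nat.lt_or_ge X ((M + 1) / 2) with hlt | hge
      · have h1 : (M + 1) / 2 ≤ M := by omega
        have h2 : (M + 1) / 2 ≤ 2 ^ k * X := by
          rw [pow_succ] at hMX
          have : M + 1 ≤ 2 ^ k * X * 2 + 1 := by
            calc M + 1 ≤ 2 ^ k * 2 * X + 1 := by omega
              _ = _ := by ring
          omega
        have h3 := ih ((M + 1) / 2) (h1.trans hMN) h2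
        have h4 := hb N ((M + 1) / 2) M α hN hI
          (hXl.trans (by exact_mod_cast hlt.le)) h1 (by omega) hMN
        have h5 : Ioc 0 M = Ioc 0 ((M + 1) / 2) ∪ Ioc ((M + 1) / 2) M := by
          rw [Ioc_union_Ioc_eq_Ioc (Nat.zero_le _) h1]
        rw [h5, sum_union (Ioc_disjoint_Ioc_of_le le_rfl)]
        refine (norm_add_le _ _).trans ?_
        push_cast
        linarith
      · have h1 : M ≤ 2 * X := by omega
        have h2 : M ≤ N := hMN
        rcases Nat.lt_or_ge X M with h6 | h6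
        · -- one block from `X` to `M`
          have h3 := ih X (h6.le.trans hMN) (Nat.le_mul_of_pos_left _ (by positivity))
          have h4 := hb N X M α hN hI hXl h6.le h1 hMN
          have h5 : Ioc 0 M = Ioc 0 X ∪ Ioc X M := by
            rw [Ioc_union_Ioc_eq_Ioc (Nat.zero_le _) h6.le]
          rw [h5, sum_union (Ioc_disjoint_Ioc_of_le le_rfl)]
          refine (norm_add_le _ _).trans ?_
          push_cast
          linarith
        · have h3 := ih M hMN (h6.trans (Nat.le_mul_of_pos_left _ (by positivity)))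
          have h4 : 0 ≤ C * (N : ℝ) ^ (1 - s) := by have := hpw (1 - s); positivity
          push_cast
          linarith
  have hk : N ≤ 2 ^ (Nat.log 2 N + 1) * X := by
    have h1 : N < 2 ^ (Nat.log 2 N + 1) := Nat.lt_pow_succ_log_self (by norm_num) N
    have h2 : 1 ≤ X := by
      have : (1 : ℝ) ≤ X := hX1.trans hXl
      exact_mod_cast this
    calc N ≤ 2 ^ (Nat.log 2 N + 1) := h1.le
      _ ≤ _ := Nat.le_mul_of_pos_right _ h2
  have h1 := hstep (Nat.log 2 N + 1) M hM (hM.trans hk)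
  refine h1.trans ?_
  have hL := hlog N hN
  rw [pow_one] at hL
  have hlg : ((Nat.log 2 N + 1 : ℕ) : ℝ) ≤ 2 * (1 + Real.log (4 * N)) := by
    have h2 : (Nat.log 2 N : ℝ) ≤ Real.log N / Real.log 2 := by
      have := Real.natLog_le_logb N 2
      simpa [Real.logb] using this
    have h0 : 0 ≤ Real.log N := Real.log_nonneg hN1
    have h3 : Real.log N / Real.log 2 ≤ 2 * Real.log N := by
      rw [div_le_iff₀ (Real.log_pos (by norm_num))]
      have := Real.log_two_gt_d9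
      nlinarith
    have h4 : 0 ≤ Real.log 4 := Real.log_nonneg (by norm_num)
    push_cast
    rw [Real.log_mul (by norm_num) hN0.ne']
    linarith
  have hP := hpw (1 - s)
  have h5 : ((Nat.log 2 N + 1 : ℕ) : ℝ) * (C * (N : ℝ) ^ (1 - s)) ≤
      2 * C0 * C * (N : ℝ) ^ (1 - s / 2) := by
    calc ((Nat.log 2 N + 1 : ℕ) : ℝ) * (C * (N : ℝ) ^ (1 - s)) ≤
        (2 * (C0 * (N : ℝ) ^ (s / 2))) * (C * (N : ℝ) ^ (1 - s)) := by
          apply mul_le_mul_of_nonneg_right _ (by positivity)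
          linarith
      _ = 2 * C0 * C * ((N : ℝ) ^ (s / 2) * (N : ℝ) ^ (1 - s)) := by ring
      _ = _ := by rw [← Real.rpow_add hN0]; ring_nf
  have h6 : (N : ℝ) ^ (3 / 4 : ℝ) ≤ (N : ℝ) ^ (1 - s / 2) := hmono (by linarith)
  have : (2 * C0 * C + 12) * (N : ℝ) ^ (1 - s / 2) =
      2 * C0 * C * (N : ℝ) ^ (1 - s / 2) + 12 * (N : ℝ) ^ (1 - s / 2) := by ring
  rw [this]
  linarith

/-- Abel's inequality -/
lemma abel_ineq (f : ℕ → ℝ) (a : ℕ → ℂ) (B : ℝ) (hf0 : ∀ n, 0 ≤ f n) (hf : Antitone f)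
    (hB : ∀ n, ‖∑ i ∈ range n, a i‖ ≤ B) (n : ℕ) : ‖∑ i ∈ range n, f i • a i‖ ≤ f 0 * B := by
  have hB0 : 0 ≤ B := (norm_nonneg _).trans (hB 0)
  rcases Nat.eq_zero_or_pos n with rfl | hn
  · simp; exact mul_nonneg (hf0 0) hB0
  rw [sum_range_by_parts]
  refine (norm_sub_le _ _).trans ?_
  have h1 : ‖f (n - 1) • ∑ i ∈ range n, a i‖ ≤ f (n - 1) * B := by
    rw [norm_smul, Real.norm_of_nonneg (hf0 _)]
    exact mul_le_mul_of_nonneg_left (hB n) (hf0 _)
  have h2 : ‖∑ i ∈ range (n - 1), (f (i + 1) - f i) • ∑ i ∈ range (i + 1), a i‖ ≤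
      (f 0 - f (n - 1)) * B := by
    refine (norm_sum_le _ _).trans ?_
    have h3 : ∀ i ∈ range (n - 1), ‖(f (i + 1) - f i) • ∑ i ∈ range (i + 1), a i‖ ≤
        (f i - f (i + 1)) * B := by
      intro i _
      have h4 : f (i + 1) ≤ f i := hf (Nat.le_succ i)
      rw [norm_smul, Real.norm_eq_abs, abs_of_nonpos (by linarith), neg_sub]
      exact mul_le_mul_of_nonneg_left (hB _) (by linarith)
    refine (sum_le_sum h3).trans ?_
    rw [← sum_mul, sum_range_sub']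
  linarith

/-- exponential sums over primes -/
theorem prime_sum {η : ℝ} (hη : 0 < η) : ∃ σ : ℝ, 0 < σ ∧ σ ≤ 1 / 64 ∧ ∃ C : ℝ, 1 ≤ C ∧
    ∀ (N : ℕ) (α : ℝ), 1 ≤ N → Irr N η α →
      ‖∑ p ∈ (range (N + 1)).filter Nat.Prime, e ((p : ℝ) * α)‖ ≤ C * (N : ℝ) ^ (1 - σ) := by
  obtain ⟨s, hs0, hs1, C, hC, hb⟩ := lam_sum hη
  obtain ⟨D, hD⟩ := Chebyshev.psi_sub_theta_le_mul_sqrt
  refine ⟨s, hs0, hs1, 2 * (C + |D|), by have := abs_nonneg D; linarith, ?_⟩
  intro N α hN hI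
  have hN1 : (1 : ℝ) ≤ N := by exact_mod_cast hN
  have hN0 : (0 : ℝ) < N := by linarith
  have hpw : ∀ t : ℝ, 0 < (N : ℝ) ^ t := fun t => Real.rpow_pos_of_pos hN0 t
  have hmono : ∀ {s t : ℝ}, s ≤ t → (N : ℝ) ^ s ≤ (N : ℝ) ^ t := fun h =>
    Real.rpow_le_rpow_of_exponent_le hN1 h
  set B : ℝ := (C + |D|) * (N : ℝ) ^ (1 - s) with hB
  -- the sum with logarithmic weights
  set a : ℕ → ℂ := fun n => if n.Prime ∧ n ≤ N then ((Real.log n : ℝ) : ℂ) * e ((n : ℝ) * α) else 0 with ha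
  have hsmall : ∀ M : ℕ, M ≤ N → ‖∑ n ∈ Ioc 0 M, a n‖ ≤ B := by
    intro M hM
    have hMN : (M : ℝ) ≤ N := by exact_mod_cast hM
    have h1 := hb N M α hN hI hM
    have h2 : ‖∑ n ∈ Ioc 0 M, ((Λ n : ℝ) : ℂ) * ee ((n : ℝ) * α) - ∑ n ∈ Ioc 0 M, a n‖ ≤
        |D| * (N : ℝ) ^ (1 - s) := by
      rw [← sum_sub_distrib]
      have h3 : ∀ n ∈ Ioc 0 M, ‖((Λ n : ℝ) : ℂ) * ee ((n : ℝ) * α) - a n‖ ≤
          Λ n - (if n.Prime then Real.log n else 0) := by
        intro n hn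
        rw [mem_Ioc] at hn
        simp only [ha]
        by_cases hp : n.Prime
        · rw [if_pos ⟨hp, hn.2.trans hM⟩, if_pos hp, vonMangoldt_apply_prime hp, ee_eq_e]
          simp
        · rw [if_neg (fun h => hp h.1), if_neg hp, sub_zero, sub_zero, norm_lam]
      refine (norm_sum_le _ _).trans ((sum_le_sum h3).trans ?_)
      rw [sum_sub_distrib, ← sum_filter]
      have h4 : ∑ n ∈ Ioc 0 M, Λ n = Chebyshev.psi M := by
        rw [Chebyshev.psi, Nat.floor_natCast]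
      have h5 : ∑ n ∈ (Ioc 0 M).filter Nat.Prime, Real.log n = Chebyshev.theta M := by
        rw [Chebyshev.theta, Nat.floor_natCast]
      rw [h4, h5]
      refine (hD M).trans ?_
      have h6 : Real.sqrt M ≤ (N : ℝ) ^ (1 - s) := by
        calc Real.sqrt M ≤ Real.sqrt N := Real.sqrt_le_sqrt hMN
          _ = (N : ℝ) ^ (1 / 2 : ℝ) := Real.sqrt_eq_rpow _
          _ ≤ _ := hmono (by linarith)
      calc D * Real.sqrt M ≤ |D| * Real.sqrt M :=
            mul_le_mul_of_nonneg_right (le_abs_self _) (Real.sqrt_nonneg _)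
        _ ≤ _ := mul_le_mul_of_nonneg_left h6 (abs_nonneg _)
    have h7 : ‖∑ n ∈ Ioc 0 M, a n‖ ≤ ‖∑ n ∈ Ioc 0 M, ((Λ n : ℝ) : ℂ) * ee ((n : ℝ) * α)‖ +
        ‖∑ n ∈ Ioc 0 M, ((Λ n : ℝ) : ℂ) * ee ((n : ℝ) * α) - ∑ n ∈ Ioc 0 M, a n‖ := by
      have := norm_sub_norm_le (∑ n ∈ Ioc 0 M, a n) (∑ n ∈ Ioc 0 M, ((Λ n : ℝ) : ℂ) * ee ((n : ℝ) * α))
      rw [norm_sub_rev] at this
      linarith
    rw [hB, add_mul]
    linarith
  have hrange : ∀ K : ℕ, ‖∑ n ∈ range K, a n‖ ≤ B := by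
    intro K
    have ha0 : a 0 = 0 := by simp [ha]
    have h1 : ∑ n ∈ range K, a n = ∑ n ∈ Ioc 0 (min (K - 1) N), a n := by
      symm
      apply sum_subset_zero_on_sdiff
      · intro n hn
        rw [mem_Ioc] at hn
        rw [mem_range]
        have := hn.2
        rw [le_min_iff] at this
        omega
      · intro n hn
        rw [mem_sdiff, mem_range, mem_Ioc] at hn
        obtain ⟨h1, h2⟩ := hn
        rcases Nat.eq_zero_or_pos n with rfl | h3
        · exact ha0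
        · have h4 : ¬ (n ≤ min (K - 1) N) := fun h => h2 ⟨h3, h⟩
          rw [le_min_iff] at h4
          simp only [ha]
          rw [if_neg]
          intro h5
          exact h4 ⟨by omega, h5.2⟩
      · intro n _; rfl
    rw [h1]
    exact hsmall _ (min_le_right _ _)
  -- remove the logarithms
  set f : ℕ → ℝ := fun n => if n < 2 then 1 / Real.log 2 else 1 / Real.log n with hf
  have hl2 : 0 < Real.log 2 := Real.log_pos (by norm_num)
  have hf0 : ∀ n, 0 ≤ f n := by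
    intro n
    simp only [hf]
    split_ifs with h
    · positivity
    · exact one_div_nonneg.2 (Real.log_nonneg (by exact_mod_cast (by omega : 1 ≤ n)))
  have hanti : Antitone f := by
    intro m n hmn
    simp only [hf]
    by_cases hn : n < 2
    · rw [if_pos hn, if_pos (lt_of_le_of_lt hmn hn)]
    · rw [if_neg hn]
      by_cases hm : m < 2
      · rw [if_pos hm]
        apply one_div_le_one_div_of_le hl2
        exact Real.log_le_log (by norm_num) (by exact_mod_cast not_lt.1 hn)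
      · rw [if_neg hm]
        have h2 : (2 : ℝ) ≤ m := by exact_mod_cast not_lt.1 hm
        apply one_div_le_one_div_of_le (Real.log_pos (by linarith))
        exact Real.log_le_log (by linarith) (by exact_mod_cast hmn)
  have h1 := abel_ineq f a B hf0 hanti hrange (N + 1)
  have h2 : ∑ n ∈ range (N + 1), f n • a n =
      ∑ p ∈ (range (N + 1)).filter Nat.Prime, e ((p : ℝ) * α) := by
    rw [sum_filter]
    refine sum_congr rfl fun n hn => ?_
    rw [mem_range] at hn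
    simp only [ha]
    by_cases hp : n.Prime
    · rw [if_pos ⟨hp, by omega⟩, if_pos hp]
      simp only [hf]
      rw [if_neg (by have := hp.two_le; omega)]
      have h3 : 0 < Real.log n := Real.log_pos (by exact_mod_cast hp.one_lt)
      rw [Complex.real_smul, ← mul_assoc, ← Complex.ofReal_mul, one_div_mul_cancel h3.ne']
      simp
    · rw [if_neg (fun h => hp h.1), if_neg hp, smul_zero]
  rw [h2] at h1
  refine h1.trans ?_
  have h3 : f 0 ≤ 2 := by
    simp only [hf]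
    rw [if_pos (by norm_num), div_le_iff₀ hl2]
    have := Real.log_two_gt_d9
    linarith
  have hB0 : 0 ≤ B := (norm_nonneg _).trans (hrange 0)
  calc f 0 * B ≤ 2 * B := mul_le_mul_of_nonneg_right h3 hB0
    _ = _ := by rw [hB]; ring

end Pool.Agent.T6.H35.EQ
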