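import Pool.Agent.T6.H35.EQ.Arb

/-!
# Two primes and arbitrary sets: the estimate
-/

set_option autoImplicit false

namespace Pool.Agent.T6.H35.EQ

open Finset
open Pool.Agent.H469R2.NK (e norm_e e_add e_zero conj_e)

/-- the bound for the numbers which are represented -/
noncomputable def BB (N : ℕ) (δ : ℝ) : ℕ := 2 * ⌊(N : ℝ) ^ δ⌋₊ * N

lemma BB_ok {N : ℕ} {δ : ℝ} {a b : ℤ} (ha : |(a : ℝ)| ≤ (N : ℝ) ^ δ) (hb : |(b : ℝ)| ≤ (N : ℝ) ^ δ) :
    (|a| + |b|) * N ≤ BB N δ := by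
  have key : ∀ a : ℤ, |(a : ℝ)| ≤ (N : ℝ) ^ δ → |a| ≤ (⌊(N : ℝ) ^ δ⌋₊ : ℤ) := by
    intro a ha
    have h1 : a.natAbs ≤ ⌊(N : ℝ) ^ δ⌋₊ := by
      apply Nat.le_floor
      rw [Nat.cast_natAbs, Int.cast_abs]
      exact ha
    have : ((a.natAbs : ℕ) : ℤ) = |a| := by simp
    rw [← this]
    exact_mod_cast h1
  have h1 := key a ha
  have h2 := key b hb
  unfold BB
  push_cast
  have : (0 : ℤ) ≤ N := Int.natCast_nonneg _
  nlinarith

lemma card_le_BB {N : ℕ} {δ : ℝ} (hN : 1 ≤ N) (hδ : 0 ≤ δ) {T : Finset ℤ}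
    (hT : T ⊆ Icc (-(BB N δ : ℤ)) (BB N δ)) :
    (T.card : ℝ) ≤ (3 * (N : ℝ) ^ ((1 + δ) / 2)) * √T.card := by
  have hN1 : (1 : ℝ) ≤ N := by exact_mod_cast hN
  have hN0 : (0 : ℝ) < N := by linarith
  have h1 : T.card ≤ 2 * BB N δ + 1 := by
    have := card_le_card hT
    rw [Int.card_Icc] at this
    omega
  have h2 : (T.card : ℝ) ≤ 5 * (N : ℝ) ^ (1 + δ) := by
    have h3 : (T.card : ℝ) ≤ 2 * (BB N δ : ℝ) + 1 := by exact_mod_cast h1
    have h4 : (BB N δ : ℝ) ≤ 2 * (N : ℝ) ^ δ * N := by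
      unfold BB
      push_cast
      have := Nat.floor_le (show 0 ≤ (N : ℝ) ^ δ by positivity)
      gcongr
    have h5 : (N : ℝ) ^ (1 + δ) = (N : ℝ) ^ δ * N := by
      rw [add_comm, Real.rpow_add hN0, Real.rpow_one]
    have h6 : (1 : ℝ) ≤ (N : ℝ) ^ (1 + δ) := Real.one_le_rpow hN1 (by linarith)
    rw [h5] at h6 ⊢
    linarith
  have h3 : √(T.card : ℝ) ≤ 3 * (N : ℝ) ^ ((1 + δ) / 2) := by
    apply Real.sqrt_le_iff.2
    refine ⟨by positivity, h2.trans ?_⟩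
    rw [mul_pow, ← Real.rpow_natCast ((N : ℝ) ^ ((1 + δ) / 2)) 2, ← Real.rpow_mul hN0.le]
    have : (1 + δ) / 2 * ((2 : ℕ) : ℝ) = 1 + δ := by push_cast; ring
    rw [this]
    have := Real.rpow_pos_of_pos hN0 (1 + δ)
    nlinarith
  calc (T.card : ℝ) = √T.card * √T.card := (Real.mul_self_sqrt (Nat.cast_nonneg _)).symm
    _ ≤ _ := by
      have := Real.sqrt_nonneg (T.card : ℝ)
      gcongr

lemma sum_sqrt (T : Finset ℤ) (w : ℤ → ℝ) (hw : ∀ n, 0 ≤ w n) {B : ℝ} (hB : ∑ n ∈ T, w n ≤ B) :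
    ∑ n ∈ T, √(w n) ≤ √B * √T.card := by
  have h1 := Finset.sum_mul_sq_le_sq_mul_sq T (fun n => √(w n)) (fun _ => (1 : ℝ))
  simp only [mul_one, one_pow, sum_const, nsmul_eq_mul] at h1
  have h2 : ∑ n ∈ T, √(w n) ^ 2 = ∑ n ∈ T, w n := sum_congr rfl fun n _ => Real.sq_sqrt (hw n)
  rw [h2] at h1
  rw [← Real.sqrt_mul (le_trans (sum_nonneg fun n _ => hw n) hB)]
  apply Real.le_sqrt_of_sq_le
  exact h1.trans (mul_le_mul_of_nonneg_right hB (Nat.cast_nonneg _))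

theorem arb : ∃ δ : ℝ, 0 < δ ∧ δ ≤ 1 / 4 ∧ ∃ C : ℝ, 1 ≤ C ∧ ∃ j : ℕ → ℕ, ∀ N : ℕ, 1 ≤ N →
    j N ∈ JJ ∧ Adm N δ C (zt (j N)) := by
  classical
  obtain ⟨σ, hσ0, hσ1, C, hC, htwo⟩ := two_sq (η := 1 / 360000) (by norm_num)
  obtain ⟨N₀, hN₀, hsc⟩ := scale3
  set τ : ℝ := min (σ / 16) (1 / 1440000) with hτ
  have hτ0 : 0 < τ := lt_min (by positivity) (by norm_num)
  have hτ1 : τ ≤ σ / 16 := min_le_left _ _
  have hτ2 : τ ≤ 1 / 1440000 := min_le_right _ _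
  set δ : ℝ := τ / 2 with hδ
  have hδ0 : 0 < δ := by positivity
  set N₁ : ℕ := max N₀ 4096 with hN₁
  refine ⟨δ, hδ0, by linarith, 24 * C + 3 * N₁ + 6, by have : (0:ℝ) ≤ N₁ := Nat.cast_nonneg _
                                                       linarith,
    fun N => if h : ∃ j ∈ JJ, ∀ q : ℕ, 1 ≤ q →
    (q : ℝ) ≤ (N : ℝ) ^ (1 / 90000 : ℝ) → ∀ r : ℤ, (N : ℝ) ^ (-(1 / 3) : ℝ) < |q * zt j - r|
      then h.choose else 9, ?_⟩
  intro N hN
  have hN1 : (1 : ℝ) ≤ N := by exact_mod_cast hN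
  have hN0 : (0 : ℝ) < N := by linarith
  have hpw : ∀ t : ℝ, 0 < (N : ℝ) ^ t := fun t => Real.rpow_pos_of_pos hN0 t
  have hmono : ∀ {s t : ℝ}, s ≤ t → (N : ℝ) ^ s ≤ (N : ℝ) ^ t := fun h =>
    Real.rpow_le_rpow_of_exponent_le hN1 h
  have hN₁0 : (0 : ℝ) ≤ N₁ := Nat.cast_nonneg _
  -- the trivial bound
  have triv : ∀ z : ℝ, (N : ℝ) ^ (3 / 2 * δ) ≤ N₁ + 2 → Adm N δ (24 * C + 3 * N₁ + 6) z := by
    intro z hsm
    refine restrict (B := BB N δ) (3 * (N : ℝ) ^ (3 / 2 + δ / 2)) (by have := hpw (3 / 2 + δ / 2)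
                                                                      linarith)
      (fun a b ha hb => BB_ok ha hb) ?_ ?_
    · have e1 : (N : ℝ) ^ (3 / 2 + δ / 2) = (N : ℝ) ^ (3 / 2 * δ) * (N : ℝ) ^ (3 / 2 - δ) := by
        rw [← Real.rpow_add hN0]; congr 1; ring
      rw [e1]
      have := hpw (3 / 2 - δ)
      calc 3 * ((N : ℝ) ^ (3 / 2 * δ) * (N : ℝ) ^ (3 / 2 - δ)) ≤
          3 * ((N₁ + 2) * (N : ℝ) ^ (3 / 2 - δ)) := by gcongr
        _ = (3 * N₁ + 6) * (N : ℝ) ^ (3 / 2 - δ) := by ring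
        _ ≤ _ := by
          apply mul_le_mul_of_nonneg_right _ this.le
          linarith
    · intro T hT a b m β c hc
      calc ∑ n ∈ T, _ ≤ ∑ _n ∈ T, (N : ℝ) := sum_le_sum fun n hn => by
            obtain ⟨_, h2, _, _, _, _, h7, h8⟩ := hc n hn
            exact triv_disc N (a n) (b n) n h2 _ h7 h8
        _ = N * T.card := by rw [sum_const, nsmul_eq_mul, mul_comm]
        _ ≤ N * ((3 * (N : ℝ) ^ ((1 + δ) / 2)) * √T.card) := by
            gcongr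
            exact card_le_BB hN hδ0.le hT
        _ = _ := by
            have : (N : ℝ) ^ (3 / 2 + δ / 2) = N * (N : ℝ) ^ ((1 + δ) / 2) := by
              rw [← Real.rpow_one_add' hN0.le (by positivity)]; congr 1; ring
            rw [this]; ring
  by_cases hex : ∃ j ∈ JJ, ∀ q : ℕ, 1 ≤ q →
    (q : ℝ) ≤ (N : ℝ) ^ (1 / 90000 : ℝ) → ∀ r : ℤ, (N : ℝ) ^ (-(1 / 3) : ℝ) < |q * zt j - r|
  · beta_reduce
    rw [dif_pos hex]
    obtain ⟨hj, hz⟩ := hex.choose_spec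
    refine ⟨hj, ?_⟩
    set z : ℝ := zt hex.choose with hzdef
    by_cases hsm : (N : ℝ) ^ (3 / 2 * δ) ≤ N₁ + 2
    · exact triv z hsm
    · rw [not_le] at hsm
      have hNN₁ : (N₁ : ℝ) < N := by
        have : (N : ℝ) ^ (3 / 2 * δ) ≤ (N : ℝ) ^ (1 : ℝ) := hmono (by linarith)
        rw [Real.rpow_one] at this
        linarith
      have h4096 : (4096 : ℝ) ≤ N := by
        have : ((4096 : ℕ) : ℝ) ≤ N₁ := by exact_mod_cast le_max_right _ _
        push_cast at this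
        linarith
      have h2 : 2 ≤ (N : ℝ) ^ τ := by
        have : (N : ℝ) ^ (3 / 2 * δ) ≤ (N : ℝ) ^ τ := hmono (by linarith)
        linarith
      have h12 : (2 : ℝ) ≤ (N : ℝ) ^ (1 / 12 : ℝ) := by
        calc (2 : ℝ) = (4096 : ℝ) ^ (1 / 12 : ℝ) := by
              rw [show (4096 : ℝ) = 2 ^ (12 : ℝ) by norm_num, ← Real.rpow_mul (by norm_num)]; norm_num
          _ ≤ _ := Real.rpow_le_rpow (by norm_num) h4096 (by norm_num)
      have h13 : 2 * (N : ℝ) ^ (2 * (1 / 360000 : ℝ) - 1 / 2) ≤ (N : ℝ) ^ (-(1 / 3) : ℝ) := by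
        calc 2 * (N : ℝ) ^ (2 * (1 / 360000 : ℝ) - 1 / 2) ≤
            (N : ℝ) ^ (1 / 12 : ℝ) * (N : ℝ) ^ (2 * (1 / 360000 : ℝ) - 1 / 2) := by
              have := hpw (2 * (1 / 360000 : ℝ) - 1 / 2)
              gcongr
          _ = (N : ℝ) ^ (1 / 12 + (2 * (1 / 360000) - 1 / 2) : ℝ) := by rw [← Real.rpow_add hN0]
          _ ≤ _ := hmono (by norm_num)
      have h4τ : (N : ℝ) ^ (4 * τ) ≤ (N : ℝ) ^ (1 / 360000 : ℝ) := hmono (by linarith)
      have hD : ∀ a b k : ℤ, a ∈ ZZ N (4 * τ) → b ∈ ZZ N (4 * τ) → k ∈ ZZ N (4 * τ) →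
          ∀ T : Finset ℤ, ∑ n ∈ T, ‖ff N a b (k * z) n‖ ^ 2 ≤ C * (N : ℝ) ^ (3 - 2 * σ) := by
        intro a b k ha hb hk T
        obtain ⟨ha1, ha2⟩ := of_mem_ZZ ha
        obtain ⟨hb1, hb2⟩ := of_mem_ZZ hb
        obtain ⟨hk1, hk2⟩ := of_mem_ZZ hk
        exact htwo N a b (k * z) hN ha1 hb1 (fun α => irr_or hN (η₀ := 1 / 90000) (by norm_num) h13 hz
          hb1 hk1 (ha2.trans h4τ) (hb2.trans h4τ) (hk2.trans h4τ) α) T
      have hW := sum_W2 (z := z) hN (by have := hpw (3 - 2 * σ); positivity) hD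
      refine restrict (B := BB N δ) (24 * C * (N : ℝ) ^ (3 / 2 - δ)) (by have := hpw (3 / 2 - δ)
                                                                         positivity)
        (fun a b ha hb => BB_ok ha hb) ?_ ?_
      · have := hpw (3 / 2 - δ)
        apply mul_le_mul_of_nonneg_right _ this.le
        linarith
      · intro T hT a b m β c hc
        have hδτ : (N : ℝ) ^ δ ≤ (N : ℝ) ^ τ := hmono (by linarith)
        have hs := sum_sqrt T (W2 N (4 * τ) z) (W2_nonneg N (4 * τ) z) (hW T)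
        have hcard := card_le_BB hN hδ0.le hT
        have hsq : √(8 * (N : ℝ) ^ (3 * (4 * τ)) * (C * (N : ℝ) ^ (3 - 2 * σ))) ≤
            3 * C * (N : ℝ) ^ (3 / 2 + 6 * τ - σ) := by
          apply Real.sqrt_le_iff.2
          refine ⟨by have := hpw (3 / 2 + 6 * τ - σ); positivity, ?_⟩
          rw [mul_pow, ← Real.rpow_natCast ((N : ℝ) ^ (3 / 2 + 6 * τ - σ)) 2, ← Real.rpow_mul hN0.le]
          have e1 : (N : ℝ) ^ ((3 / 2 + 6 * τ - σ) * ((2 : ℕ) : ℝ)) =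
              (N : ℝ) ^ (3 * (4 * τ)) * (N : ℝ) ^ (3 - 2 * σ) := by
            rw [← Real.rpow_add hN0]; congr 1; push_cast; ring
          rw [e1]
          have h5 := mul_pos (hpw (3 * (4 * τ))) (hpw (3 - 2 * σ))
          have h6 : 8 * C ≤ (3 * C) ^ 2 := by nlinarith
          calc 8 * (N : ℝ) ^ (3 * (4 * τ)) * (C * (N : ℝ) ^ (3 - 2 * σ)) =
              8 * C * ((N : ℝ) ^ (3 * (4 * τ)) * (N : ℝ) ^ (3 - 2 * σ)) := by ring
            _ ≤ _ := mul_le_mul_of_nonneg_right h6 h5.le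
        have hsT := Real.sqrt_nonneg (T.card : ℝ)
        calc ∑ n ∈ T, _ ≤ ∑ n ∈ T, (4 * (N : ℝ) ^ (2 * τ) * √(W2 N (4 * τ) z n) + 4 * (N : ℝ) ^ (1 - τ)) :=
              sum_le_sum fun n hn => by
                obtain ⟨h1', h2', h3', h4', h5', h6', h7', h8'⟩ := hc n hn
                exact disc_one hN hτ0 h2 h1' h2' h3' (h4'.trans hδτ) (h5'.trans hδτ) (h6'.trans hδτ) (β n) h7' h8'
          _ = 4 * (N : ℝ) ^ (2 * τ) * ∑ n ∈ T, √(W2 N (4 * τ) z n) + 4 * (N : ℝ) ^ (1 - τ) * T.card := by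
              rw [sum_add_distrib, ← mul_sum, sum_const, nsmul_eq_mul]; ring
          _ ≤ 4 * (N : ℝ) ^ (2 * τ) * ((3 * C * (N : ℝ) ^ (3 / 2 + 6 * τ - σ)) * √T.card) +
              4 * (N : ℝ) ^ (1 - τ) * ((3 * (N : ℝ) ^ ((1 + δ) / 2)) * √T.card) := by
              have h5 := hpw (2 * τ)
              have h6 := hpw (1 - τ)
              have h7 : ∑ n ∈ T, √(W2 N (4 * τ) z n) ≤
                  (3 * C * (N : ℝ) ^ (3 / 2 + 6 * τ - σ)) * √T.card :=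
                hs.trans (mul_le_mul_of_nonneg_right hsq hsT)
              gcongr
          _ = (12 * C * ((N : ℝ) ^ (2 * τ) * (N : ℝ) ^ (3 / 2 + 6 * τ - σ)) +
              12 * ((N : ℝ) ^ (1 - τ) * (N : ℝ) ^ ((1 + δ) / 2))) * √T.card := by ring
          _ ≤ (12 * C * (N : ℝ) ^ (3 / 2 - δ) + 12 * C * (N : ℝ) ^ (3 / 2 - δ)) * √T.card := by
              apply mul_le_mul_of_nonneg_right _ hsT
              rw [← Real.rpow_add hN0, ← Real.rpow_add hN0]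
              have h8 : (N : ℝ) ^ (2 * τ + (3 / 2 + 6 * τ - σ)) ≤ (N : ℝ) ^ (3 / 2 - δ) :=
                hmono (by linarith)
              have h9 : (N : ℝ) ^ (1 - τ + (1 + δ) / 2) ≤ (N : ℝ) ^ (3 / 2 - δ) :=
                hmono (by linarith)
              have h10 := hpw (3 / 2 - δ)
              nlinarith
          _ = _ := by ring
  · beta_reduce
    rw [dif_neg hex]
    refine ⟨by decide, triv _ ?_⟩
    have hlt : N < N₀ := by
      by_contra hge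
      exact hex (hsc N (not_lt.1 hge))
    have h3 : (N : ℝ) ^ (3 / 2 * δ) ≤ (N : ℝ) ^ (1 : ℝ) := hmono (by linarith)
    rw [Real.rpow_one] at h3
    have h4 : (N : ℝ) ≤ N₁ := by
      exact_mod_cast hlt.le.trans (le_max_left _ _)
    linarith

end Pool.Agent.T6.H35.EQ
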