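import Pool.Agent.T6.H35.EQ.Weyl
import Pool.Agent.Results.MP_db0fbf_nt.MeasureZeta9To21

/-!
# At every scale one of the seven numbers is badly approximable
-/

set_option autoImplicit false

namespace Pool.Agent.T6.H35.EQ

open Finset

/-- `ζ(j)` -/
noncomputable def zt (j : ℕ) : ℝ := ∑' n : ℕ, 1 / ((n : ℝ) + 1) ^ j

/-- the seven arguments -/
def JJ : Finset ℕ := {9, 11, 13, 15, 17, 19, 21}

lemma mem_JJ {j : ℕ} (ho : Odd j) (h9 : 9 ≤ j) (h21 : j ≤ 21) : j ∈ JJ := by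
  obtain ⟨m, rfl⟩ := ho
  have h1 : 4 ≤ m := by omega
  have h2 : m ≤ 10 := by omega
  unfold JJ
  interval_cases m <;> simp

lemma of_mem_JJ {j : ℕ} (h : j ∈ JJ) : Odd j ∧ 9 ≤ j ∧ j ≤ 21 := by
  unfold JJ at h
  simp only [mem_insert, mem_singleton] at h
  rcases h with rfl | rfl | rfl | rfl | rfl | rfl | rfl <;> decide

/-- at every large scale one of the seven numbers is badly approximable -/
theorem scale : ∃ N₀ : ℕ, 1 ≤ N₀ ∧ ∀ N : ℕ, N₀ ≤ N → ∃ j ∈ JJ, Irr N (1 / 30000) (zt j) := by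
  obtain ⟨c, hc, hm⟩ := Pool.Agent.Results.MP_db0fbf_nt.MeasureZeta9To21.result
  obtain ⟨N₁, hN₁⟩ := exists_nat_gt ((1 / c) ^ 4)
  refine ⟨N₁ + 1, by omega, fun N hN => ?_⟩
  by_contra hcon
  push Not at hcon
  have hN1 : (1 : ℝ) ≤ N := by exact_mod_cast (by omega : 1 ≤ N)
  have hN0 : (0 : ℝ) < N := by linarith
  have hpw : ∀ t : ℝ, 0 < (N : ℝ) ^ t := fun t => Real.rpow_pos_of_pos hN0 t
  have hex : ∀ j : ℕ, ∃ (q : ℕ) (a : ℤ), 1 ≤ q ∧ (q : ℝ) ≤ (N : ℝ) ^ (1 / 30000 : ℝ) ∧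
      (j ∈ JJ → |q * zt j - a| ≤ (N : ℝ) ^ (-(1 / 2) : ℝ)) := by
    intro j
    by_cases hj : j ∈ JJ
    · have h1 := hcon j hj
      unfold Irr at h1
      push Not at h1
      obtain ⟨q, hq1, hq2, a, ha⟩ := h1
      exact ⟨q, a, hq1, hq2, fun _ => ha⟩
    · exact ⟨1, 0, le_rfl, by push_cast; exact Real.one_le_rpow hN1 (by norm_num), fun h => absurd h hj⟩
  choose q a hq1 hq2 hqa using hex
  set Q : ℕ := ∏ j ∈ JJ, q j with hQ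
  have hQ0 : 0 < Q := prod_pos fun j _ => hq1 j
  obtain ⟨j, ho, h9, h21, hj⟩ := hm (fun j => a j * ((Q / q j : ℕ) : ℤ)) Q hQ0
  have hjJ := mem_JJ ho h9 h21
  have hdvd : q j ∣ Q := dvd_prod_of_mem q hjJ
  have hQr : (0 : ℝ) < Q := by exact_mod_cast hQ0
  have hqj : (0 : ℝ) < q j := by exact_mod_cast hq1 j
  have hqj1 : (1 : ℝ) ≤ q j := by exact_mod_cast hq1 j
  have e1 : ((a j * ((Q / q j : ℕ) : ℤ) : ℤ) : ℝ) / Q = a j / q j := by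
    have h0 : ((Q / q j : ℕ) : ℝ) = (Q : ℝ) / q j := Nat.cast_div hdvd hqj.ne'
    rw [Int.cast_mul, Int.cast_natCast, h0]
    field_simp
  have h1 : |(∑' n : ℕ, 1 / ((n : ℝ) + 1) ^ j) - (a j : ℝ) / q j| ≤ (N : ℝ) ^ (-(1 / 2) : ℝ) := by
    have h2 := hqa j hjJ
    have h3 : (∑' n : ℕ, 1 / ((n : ℝ) + 1) ^ j) - (a j : ℝ) / q j = (q j * zt j - a j) / q j := by
      unfold zt; field_simp
    rw [h3, abs_div, abs_of_pos hqj, div_le_iff₀ hqj]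
    nlinarith [hpw (-(1 / 2)), abs_nonneg (q j * zt j - a j)]
  rw [e1] at hj
  have h2 := hj.trans h1
  have hQu : (Q : ℝ) ≤ (N : ℝ) ^ (7 / 30000 : ℝ) := by
    rw [hQ]
    push_cast
    calc ∏ j ∈ JJ, (q j : ℝ) ≤ ∏ _j ∈ JJ, (N : ℝ) ^ (1 / 30000 : ℝ) :=
          prod_le_prod (fun j _ => Nat.cast_nonneg _) fun j _ => hq2 j
      _ = ((N : ℝ) ^ (1 / 30000 : ℝ)) ^ 7 := by
          rw [prod_const]; congr 1
      _ = _ := by rw [← Real.rpow_natCast, ← Real.rpow_mul hN0.le]; norm_num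
  have hQp : (Q : ℝ) ^ 1038 ≤ (N : ℝ) ^ (1 / 4 : ℝ) := by
    calc (Q : ℝ) ^ 1038 ≤ ((N : ℝ) ^ (7 / 30000 : ℝ)) ^ 1038 := pow_le_pow_left₀ hQr.le hQu _
      _ = (N : ℝ) ^ (7 / 30000 * 1038 : ℝ) := by
          rw [← Real.rpow_natCast, ← Real.rpow_mul hN0.le]; norm_num
      _ ≤ _ := Real.rpow_le_rpow_of_exponent_le hN1 (by norm_num)
  have h3 : c ≤ (N : ℝ) ^ (-(1 / 4) : ℝ) := by
    rw [div_le_iff₀ (by positivity)] at h2
    calc c ≤ (N : ℝ) ^ (-(1 / 2) : ℝ) * (Q : ℝ) ^ 1038 := h2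
      _ ≤ (N : ℝ) ^ (-(1 / 2) : ℝ) * (N : ℝ) ^ (1 / 4 : ℝ) := by
          apply mul_le_mul_of_nonneg_left hQp (hpw _).le
      _ = _ := by rw [← Real.rpow_add hN0]; norm_num
  have h4 : (1 / c) ^ 4 < (N : ℝ) := hN₁.trans (by exact_mod_cast (by omega : N₁ < N))
  have h5 : (N : ℝ) ≤ (1 / c) ^ 4 := by
    have h6 : (N : ℝ) ^ (1 / 4 : ℝ) ≤ 1 / c := by
      rw [Real.rpow_neg hN0.le] at h3
      rw [le_div_iff₀ hc]
      have := hpw (1 / 4)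
      calc (N : ℝ) ^ (1 / 4 : ℝ) * c ≤ (N : ℝ) ^ (1 / 4 : ℝ) * ((N : ℝ) ^ (1 / 4 : ℝ))⁻¹ := by gcongr
        _ = 1 := mul_inv_cancel₀ this.ne'
    calc (N : ℝ) = ((N : ℝ) ^ (1 / 4 : ℝ)) ^ 4 := by
          rw [← Real.rpow_natCast, ← Real.rpow_mul hN0.le]; norm_num
      _ ≤ _ := pow_le_pow_left₀ (hpw _).le h6 4
  linarith

end Pool.Agent.T6.H35.EQ
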