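import Pool.Agent.T6.H35.EQ.Two
import Pool.Agent.T6.H35.EQ.Poly

/-!
# Two primes and arbitrary sets at one scale
-/

set_option autoImplicit false

namespace Pool.Agent.T6.H35.EQ

open Finset
open Pool.Agent.H469R2.NK (e norm_e e_add e_zero conj_e)

/-- the nonzero integers up to `N ^ ρ` in absolute value -/
noncomputable def ZZ (N : ℕ) (ρ : ℝ) : Finset ℤ :=
  (Icc (-(⌊(N : ℝ) ^ ρ⌋₊ : ℤ)) ⌊(N : ℝ) ^ ρ⌋₊).erase 0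

lemma mem_ZZ {N : ℕ} {ρ : ℝ} {k : ℤ} (hk : k ≠ 0) (h : |(k : ℝ)| ≤ (N : ℝ) ^ ρ) : k ∈ ZZ N ρ := by
  have h1 : k.natAbs ≤ ⌊(N : ℝ) ^ ρ⌋₊ := by
    apply Nat.le_floor
    rw [Nat.cast_natAbs, Int.cast_abs]
    exact h
  rw [ZZ, mem_erase, mem_Icc]
  exact ⟨hk, by omega, by omega⟩

lemma of_mem_ZZ {N : ℕ} {ρ : ℝ} {k : ℤ} (h : k ∈ ZZ N ρ) : k ≠ 0 ∧ |(k : ℝ)| ≤ (N : ℝ) ^ ρ := by
  rw [ZZ, mem_erase, mem_Icc] at h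
  refine ⟨h.1, ?_⟩
  have h1 : k.natAbs ≤ ⌊(N : ℝ) ^ ρ⌋₊ := by omega
  have h2 : ((k.natAbs : ℕ) : ℝ) ≤ ⌊(N : ℝ) ^ ρ⌋₊ := by exact_mod_cast h1
  rw [Nat.cast_natAbs, Int.cast_abs] at h2
  exact h2.trans (Nat.floor_le (by positivity))

lemma card_ZZ (N : ℕ) (ρ : ℝ) : ((ZZ N ρ).card : ℝ) ≤ 2 * (N : ℝ) ^ ρ := by
  have h1 : (ZZ N ρ).card = 2 * ⌊(N : ℝ) ^ ρ⌋₊ := by
    rw [ZZ, card_erase_of_mem (by rw [mem_Icc]; constructor <;> simp), Int.card_Icc]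
    omega
  rw [h1]
  push_cast
  have := Nat.floor_le (show 0 ≤ (N : ℝ) ^ ρ by positivity)
  linarith

/-- the total mean square -/
noncomputable def W2 (N : ℕ) (ρ z : ℝ) (n : ℤ) : ℝ :=
  ∑ a ∈ ZZ N ρ, ∑ b ∈ ZZ N ρ, ∑ k ∈ ZZ N ρ, ‖ff N a b (k * z) n‖ ^ 2

lemma W2_nonneg (N : ℕ) (ρ z : ℝ) (n : ℤ) : 0 ≤ W2 N ρ z n :=
  sum_nonneg fun _ _ => sum_nonneg fun _ _ => sum_nonneg fun _ _ => by positivity

lemma le_W2 {N : ℕ} {ρ z : ℝ} {n a b k : ℤ} (ha : a ∈ ZZ N ρ) (hb : b ∈ ZZ N ρ) (hk : k ∈ ZZ N ρ) :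
    ‖ff N a b (k * z) n‖ ≤ √(W2 N ρ z n) := by
  apply Real.le_sqrt_of_sq_le
  have h1 : ‖ff N a b (k * z) n‖ ^ 2 ≤ ∑ k ∈ ZZ N ρ, ‖ff N a b (k * z) n‖ ^ 2 :=
    single_le_sum (f := fun k : ℤ => ‖ff N a b (k * z) n‖ ^ 2) (fun _ _ => by positivity) hk
  have h2 : ∑ k ∈ ZZ N ρ, ‖ff N a b (k * z) n‖ ^ 2 ≤
      ∑ b ∈ ZZ N ρ, ∑ k ∈ ZZ N ρ, ‖ff N a b (k * z) n‖ ^ 2 :=
    single_le_sum (f := fun b : ℤ => ∑ k ∈ ZZ N ρ, ‖ff N a b (k * z) n‖ ^ 2)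
      (fun _ _ => sum_nonneg fun _ _ => by positivity) hb
  have h3 : ∑ b ∈ ZZ N ρ, ∑ k ∈ ZZ N ρ, ‖ff N a b (k * z) n‖ ^ 2 ≤ W2 N ρ z n :=
    single_le_sum (f := fun a : ℤ => ∑ b ∈ ZZ N ρ, ∑ k ∈ ZZ N ρ, ‖ff N a b (k * z) n‖ ^ 2)
      (fun _ _ => sum_nonneg fun _ _ => sum_nonneg fun _ _ => by positivity) ha
  exact h1.trans (h2.trans h3)

lemma sum_W2 {N : ℕ} {ρ z D : ℝ} (hN : 1 ≤ N) (hD0 : 0 ≤ D)
    (hD : ∀ a b k : ℤ, a ∈ ZZ N ρ → b ∈ ZZ N ρ → k ∈ ZZ N ρ → ∀ T : Finset ℤ,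
      ∑ n ∈ T, ‖ff N a b (k * z) n‖ ^ 2 ≤ D) (T : Finset ℤ) :
    ∑ n ∈ T, W2 N ρ z n ≤ 8 * (N : ℝ) ^ (3 * ρ) * D := by
  have hN1 : (1 : ℝ) ≤ N := by exact_mod_cast hN
  have hN0 : (0 : ℝ) < N := by linarith
  have h0 : (0 : ℝ) < (N : ℝ) ^ ρ := Real.rpow_pos_of_pos hN0 ρ
  have hc := card_ZZ N ρ
  have hc0 : (0 : ℝ) ≤ (ZZ N ρ).card := Nat.cast_nonneg _
  have h1 : ∑ n ∈ T, W2 N ρ z n = ∑ a ∈ ZZ N ρ, ∑ b ∈ ZZ N ρ, ∑ k ∈ ZZ N ρ,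
      ∑ n ∈ T, ‖ff N a b (k * z) n‖ ^ 2 := by
    unfold W2
    rw [sum_comm]
    refine sum_congr rfl fun a _ => ?_
    rw [sum_comm]
    refine sum_congr rfl fun b _ => ?_
    rw [sum_comm]
  have h2 : ∑ a ∈ ZZ N ρ, ∑ b ∈ ZZ N ρ, ∑ k ∈ ZZ N ρ, ∑ n ∈ T, ‖ff N a b (k * z) n‖ ^ 2 ≤
      ∑ _a ∈ ZZ N ρ, ∑ _b ∈ ZZ N ρ, ∑ _k ∈ ZZ N ρ, D :=
    sum_le_sum fun a ha => sum_le_sum fun b hb => sum_le_sum fun k hk => hD a b k ha hb hk T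
  rw [h1]
  refine h2.trans ?_
  simp only [sum_const, nsmul_eq_mul]
  have h3 : (N : ℝ) ^ (3 * ρ) = (N : ℝ) ^ ρ * ((N : ℝ) ^ ρ * (N : ℝ) ^ ρ) := by
    rw [← Real.rpow_add hN0, ← Real.rpow_add hN0]; congr 1; ring
  rw [h3]
  calc ((ZZ N ρ).card : ℝ) * ((ZZ N ρ).card * ((ZZ N ρ).card * D)) ≤
      (2 * (N : ℝ) ^ ρ) * ((2 * (N : ℝ) ^ ρ) * ((2 * (N : ℝ) ^ ρ) * D)) := by gcongr
    _ = _ := by ring

/-- the discrepancy of the representations of one number -/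
lemma disc_one {N : ℕ} {τ z : ℝ} (hN : 1 ≤ N) (hτ : 0 < τ) (h2 : 2 ≤ (N : ℝ) ^ τ) {a b m n : ℤ}
    (ha : a ≠ 0) (hb : b ≠ 0) (hm : m ≠ 0) (haN : |(a : ℝ)| ≤ (N : ℝ) ^ τ)
    (hbN : |(b : ℝ)| ≤ (N : ℝ) ^ τ) (hmN : |(m : ℝ)| ≤ (N : ℝ) ^ τ) (β : ℝ) {c : ℝ}
    (h0 : 0 ≤ c) (h1 : c ≤ 1) :
    |(((prs N a b n).filter (fun x => Int.fract (m * z * x.1 + β) < c)).card : ℝ) -
      c * (prs N a b n).card| ≤ 4 * (N : ℝ) ^ (2 * τ) * √(W2 N (4 * τ) z n) + 4 * (N : ℝ) ^ (1 - τ) := by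
  have hN1 : (1 : ℝ) ≤ N := by exact_mod_cast hN
  have hN0 : (0 : ℝ) < N := by linarith
  have hpw : ∀ t : ℝ, 0 < (N : ℝ) ^ t := fun t => Real.rpow_pos_of_pos hN0 t
  have hmono : ∀ {s t : ℝ}, s ≤ t → (N : ℝ) ^ s ≤ (N : ℝ) ^ t := fun h =>
    Real.rpow_le_rpow_of_exponent_le hN1 h
  have h4 : (N : ℝ) ^ τ ≤ (N : ℝ) ^ (4 * τ) := hmono (by linarith)
  refine disc (prs N a b n) (fun x => m * z * x.1 + β) hN1 (by exact_mod_cast card_prs N a b n hb) hτ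
    (fun h hh1 hh2 => ?_) h0 h1
  have h3 : ∑ x ∈ prs N a b n, e (h * (m * z * x.1 + β)) = e (h * β) * ff N a b ((h * m : ℤ) * z) n := by
    rw [ff, mul_sum]
    refine sum_congr rfl fun x _ => ?_
    rw [← e_add]; congr 1; push_cast; ring
  rw [h3, norm_mul, norm_e, one_mul]
  apply le_W2 (mem_ZZ ha (haN.trans h4)) (mem_ZZ hb (hbN.trans h4))
  apply mem_ZZ (mul_ne_zero (by exact_mod_cast (by omega : h ≠ 0)) hm)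
  push_cast
  rw [abs_mul, abs_of_nonneg (Nat.cast_nonneg h)]
  calc (h : ℝ) * |(m : ℝ)| ≤ (2 * (N : ℝ) ^ (2 * τ)) * (N : ℝ) ^ τ := by
        have := hpw (2 * τ)
        gcongr
    _ ≤ ((N : ℝ) ^ τ * (N : ℝ) ^ (2 * τ)) * (N : ℝ) ^ τ := by
        have := hpw (2 * τ)
        have := hpw τ
        gcongr
    _ = (N : ℝ) ^ (4 * τ) := by
        rw [← Real.rpow_add hN0, ← Real.rpow_add hN0]; congr 1; ring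

/-- the conclusion -/
def Adm (N : ℕ) (δ C z : ℝ) : Prop :=
  ∀ (T : Finset ℤ) (a b m : ℤ → ℤ) (β c : ℤ → ℝ), (∀ n ∈ T, a n ≠ 0 ∧ b n ≠ 0 ∧ m n ≠ 0 ∧
    |(a n : ℝ)| ≤ (N : ℝ) ^ δ ∧ |(b n : ℝ)| ≤ (N : ℝ) ^ δ ∧ |(m n : ℝ)| ≤ (N : ℝ) ^ δ ∧
    0 ≤ c n ∧ c n ≤ 1) →
  ∑ n ∈ T, |(((prs N (a n) (b n) n).filter (fun x => Int.fract (m n * z * x.1 + β n) < c n)).card : ℝ) -
    c n * (prs N (a n) (b n) n).card| ≤ C * (N : ℝ) ^ (3 / 2 - δ) * √T.card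

lemma triv_disc (N : ℕ) (a b n : ℤ) (hb : b ≠ 0) (P : ℕ × ℕ → Prop) [DecidablePred P] {c : ℝ}
    (h0 : 0 ≤ c) (h1 : c ≤ 1) :
    |(((prs N a b n).filter P).card : ℝ) - c * (prs N a b n).card| ≤ N := by
  have h2 : (((prs N a b n).filter P).card : ℝ) ≤ (prs N a b n).card := by
    exact_mod_cast card_filter_le _ _
  have h3 : ((prs N a b n).card : ℝ) ≤ N := by exact_mod_cast card_prs N a b n hb
  have h4 : (0 : ℝ) ≤ ((prs N a b n).filter P).card := Nat.cast_nonneg _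
  have h5 : (0 : ℝ) ≤ (prs N a b n).card := Nat.cast_nonneg _
  rw [abs_le]
  constructor <;> nlinarith

/-- restriction to the numbers which are represented at all -/
lemma restrict {N : ℕ} {δ C z : ℝ} {B : ℕ} (F : ℝ) (hF : 0 ≤ F)
    (hB : ∀ a b : ℤ, |(a : ℝ)| ≤ (N : ℝ) ^ δ → |(b : ℝ)| ≤ (N : ℝ) ^ δ → (|a| + |b|) * N ≤ B)
    (hC : F ≤ C * (N : ℝ) ^ (3 / 2 - δ))
    (h : ∀ (T : Finset ℤ), T ⊆ Icc (-(B : ℤ)) B → ∀ (a b m : ℤ → ℤ) (β c : ℤ → ℝ),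
    (∀ n ∈ T, a n ≠ 0 ∧ b n ≠ 0 ∧ m n ≠ 0 ∧
    |(a n : ℝ)| ≤ (N : ℝ) ^ δ ∧ |(b n : ℝ)| ≤ (N : ℝ) ^ δ ∧ |(m n : ℝ)| ≤ (N : ℝ) ^ δ ∧
    0 ≤ c n ∧ c n ≤ 1) →
  ∑ n ∈ T, |(((prs N (a n) (b n) n).filter (fun x => Int.fract (m n * z * x.1 + β n) < c n)).card : ℝ) -
    c n * (prs N (a n) (b n) n).card| ≤ F * √T.card) : Adm N δ C z := by
  intro T a b m β c hT
  have h1 := h (T.filter (fun n => n ∈ Icc (-(B : ℤ)) B)) (fun n hn => (mem_filter.1 hn).2) a b m β c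
    (fun n hn => hT n (mem_filter.1 hn).1)
  have h2 : ∑ n ∈ T, |(((prs N (a n) (b n) n).filter (fun x => Int.fract (m n * z * x.1 + β n) < c n)).card : ℝ) -
    c n * (prs N (a n) (b n) n).card| = ∑ n ∈ T.filter (fun n => n ∈ Icc (-(B : ℤ)) B),
      |(((prs N (a n) (b n) n).filter (fun x => Int.fract (m n * z * x.1 + β n) < c n)).card : ℝ) -
    c n * (prs N (a n) (b n) n).card| := by
    rw [sum_filter]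
    refine sum_congr rfl fun n hn => ?_
    split_ifs with hi
    · rfl
    · have : prs N (a n) (b n) n = ∅ := by
        rw [eq_empty_iff_forall_notMem]
        intro x hx
        apply hi
        have h3 := prs_bound hx
        obtain ⟨_, _, _, h4, h5, _, _, _⟩ := hT n hn
        have h6 := h3.trans (hB _ _ h4 h5)
        rw [mem_Icc]
        exact abs_le.1 h6
      rw [this]
      simp
  rw [h2]
  refine h1.trans ?_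
  have h3 : √((T.filter (fun n => n ∈ Icc (-(B : ℤ)) B)).card : ℝ) ≤ √(T.card : ℝ) := by
    apply Real.sqrt_le_sqrt
    exact_mod_cast card_filter_le _ _
  calc F * √((T.filter (fun n => n ∈ Icc (-(B : ℤ)) B)).card : ℝ) ≤ F * √(T.card : ℝ) := by gcongr
    _ ≤ _ := by
      have := Real.sqrt_nonneg (T.card : ℝ)
      gcongr

end Pool.Agent.T6.H35.EQ
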