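import Pool.Agent.T6.H35.EQ.Low

/-!
# Almost all even numbers
-/

set_option autoImplicit false

namespace Pool.Agent.T6.H35.EQ

open Finset Filter
open Pool.Agent.T6.H18.HH (exc mem_exc card_exc cnt_lower)
open Pool.Agent.W93.PG (cnt WinP)

/-- the representations of `n` by two primes are equidistributed in all arcs -/
def Good (N : ℕ) (δ z : ℝ) (n : ℕ) : Prop :=
  0 < (prs N 1 1 n).card ∧ ∀ k : ℤ, k ≠ 0 → |(k : ℝ)| ≤ (N : ℝ) ^ δ → ∀ β c : ℝ, 0 ≤ c → c ≤ 1 →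
    |(((prs N 1 1 n).filter (fun x => Int.fract (k * z * x.1 + β) < c)).card : ℝ) -
      c * (prs N 1 1 n).card| ≤ (N : ℝ) ^ (-δ) * (prs N 1 1 n).card

lemma Adm.mono {N : ℕ} {δ δ' C z : ℝ} (hN : 1 ≤ N) (hC : 0 ≤ C) (h : Adm N δ C z) (hd : δ' ≤ δ) :
    Adm N δ' C z := by
  have hN1 : (1 : ℝ) ≤ N := by exact_mod_cast hN
  intro T a b m β c hT
  refine (h T a b m β c (fun n hn => ?_)).trans ?_
  · have h1 : (N : ℝ) ^ δ' ≤ (N : ℝ) ^ δ := Real.rpow_le_rpow_of_exponent_le hN1 hd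
    obtain ⟨h1', h2', h3', h4', h5', h6', h7', h8'⟩ := hT n hn
    exact ⟨h1', h2', h3', h4'.trans h1, h5'.trans h1, h6'.trans h1, h7', h8'⟩
  · have h2 : (N : ℝ) ^ (3 / 2 - δ) ≤ (N : ℝ) ^ (3 / 2 - δ') :=
      Real.rpow_le_rpow_of_exponent_le hN1 (by linarith)
    gcongr

/-- the exceptional numbers with many representations -/
lemma few_bad {N : ℕ} {δ C z : ℝ} (hN : 1 ≤ N) (hδ : 0 < δ) (hC : 1 ≤ C) (h : Adm N δ C z)
    (T : Finset ℕ) (hT : ∀ n ∈ T, (N : ℝ) ^ (1 - δ / 4) ≤ (prs N 1 1 n).card ∧ ¬ Good N (δ / 4) z n) :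
    (T.card : ℝ) ≤ C ^ 2 * (N : ℝ) ^ (1 - δ) := by
  classical
  have hN1 : (1 : ℝ) ≤ N := by exact_mod_cast hN
  have hN0 : (0 : ℝ) < N := by linarith
  have hpw : ∀ t : ℝ, 0 < (N : ℝ) ^ t := fun t => Real.rpow_pos_of_pos hN0 t
  have hex : ∀ t : ℤ, ∃ (k : ℤ) (β c : ℝ), t ∈ T.image (fun n : ℕ => (n : ℤ)) →
      k ≠ 0 ∧ |(k : ℝ)| ≤ (N : ℝ) ^ (δ / 4) ∧ 0 ≤ c ∧ c ≤ 1 ∧
      (N : ℝ) ^ (1 - δ / 2) ≤ |(((prs N 1 1 t).filter (fun x => Int.fract (k * z * x.1 + β) < c)).card : ℝ) -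
        c * (prs N 1 1 t).card| := by
    intro t
    by_cases ht : t ∈ T.image (fun n : ℕ => (n : ℤ))
    · rw [mem_image] at ht
      obtain ⟨n, hn, rfl⟩ := ht
      obtain ⟨h1, h2⟩ := hT n hn
      unfold Good at h2
      push Not at h2
      have h3 : 0 < (prs N 1 1 n).card := by
        have : (0 : ℝ) < (prs N 1 1 n).card := lt_of_lt_of_le (hpw _) h1
        exact_mod_cast this
      obtain ⟨k, hk, hkN, β, c, h0, h1', h4⟩ := h2 h3
      refine ⟨k, β, c, fun _ => ⟨hk, hkN, h0, h1', ?_⟩⟩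
      refine le_trans ?_ h4.le
      calc (N : ℝ) ^ (1 - δ / 2) = (N : ℝ) ^ (-(δ / 4)) * (N : ℝ) ^ (1 - δ / 4) := by
            rw [← Real.rpow_add hN0]; congr 1; ring
        _ ≤ _ := mul_le_mul_of_nonneg_left h1 (hpw _).le
    · exact ⟨0, 0, 0, fun h => absurd h ht⟩
  choose k β c hk using hex
  have h1 : (N : ℝ) ^ (δ / 4) ≤ (N : ℝ) ^ δ := Real.rpow_le_rpow_of_exponent_le hN1 (by linarith)
  have h2 := h (T.image (fun n : ℕ => (n : ℤ))) (fun _ => 1) (fun _ => 1) k β c (fun t ht => by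
    obtain ⟨a1, a2, a3, a4, _⟩ := hk t ht
    have h3 : (1 : ℝ) ≤ (N : ℝ) ^ δ := Real.one_le_rpow hN1 hδ.le
    exact ⟨one_ne_zero, one_ne_zero, a1, by simpa using h3, by simpa using h3, a2.trans h1, a3, a4⟩)
  have hcard : (T.image (fun n : ℕ => (n : ℤ))).card = T.card :=
    card_image_of_injective _ Nat.cast_injective
  have h3 : (T.card : ℝ) * (N : ℝ) ^ (1 - δ / 2) ≤ C * (N : ℝ) ^ (3 / 2 - δ) * √(T.card : ℝ) := by
    rw [hcard] at h2
    refine le_trans ?_ h2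
    rw [← hcard, ← nsmul_eq_mul]
    apply card_nsmul_le_sum
    intro t ht
    exact (hk t ht).2.2.2.2
  rcases Nat.eq_zero_or_pos T.card with h0 | hpos
  · rw [h0]
    have := hpw (1 - δ)
    push_cast
    positivity
  · have hT0 : (0 : ℝ) < T.card := by exact_mod_cast hpos
    have hs0 : 0 < √(T.card : ℝ) := Real.sqrt_pos.2 hT0
    have hss := Real.mul_self_sqrt hT0.le
    have h4 : √(T.card : ℝ) ≤ C * (N : ℝ) ^ ((1 - δ) / 2) := by
      have h5 : √(T.card : ℝ) * (√(T.card : ℝ) * (N : ℝ) ^ (1 - δ / 2)) ≤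
          √(T.card : ℝ) * (C * (N : ℝ) ^ (3 / 2 - δ)) := by
        calc √(T.card : ℝ) * (√(T.card : ℝ) * (N : ℝ) ^ (1 - δ / 2)) = T.card * (N : ℝ) ^ (1 - δ / 2) := by
              rw [← mul_assoc, hss]
          _ ≤ _ := h3
          _ = _ := by ring
      have h6 := le_of_mul_le_mul_left h5 hs0
      have h7 : (N : ℝ) ^ (3 / 2 - δ) = (N : ℝ) ^ ((1 - δ) / 2) * (N : ℝ) ^ (1 - δ / 2) := by
        rw [← Real.rpow_add hN0]; congr 1; ring
      rw [h7, ← mul_assoc] at h6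
      exact le_of_mul_le_mul_right h6 (hpw _)
    calc (T.card : ℝ) = √(T.card : ℝ) * √(T.card : ℝ) := hss.symm
      _ ≤ (C * (N : ℝ) ^ ((1 - δ) / 2)) * (C * (N : ℝ) ^ ((1 - δ) / 2)) := by gcongr
      _ = C ^ 2 * ((N : ℝ) ^ ((1 - δ) / 2) * (N : ℝ) ^ ((1 - δ) / 2)) := by ring
      _ = _ := by rw [← Real.rpow_add hN0]; congr 2; ring

/-- almost all even numbers -/
theorem even_all {δ C : ℝ} (hδ : 0 < δ) (hδ1 : δ ≤ 1) (hC : 1 ≤ C) (j : ℕ → ℝ)
    (hj : ∀ N : ℕ, 1 ≤ N → Adm N δ C (j N)) (U : ℕ) : ∃ D : ℝ, ∀ N : ℕ, 2 ≤ N → ∀ T : Finset ℕ,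
    (∀ n ∈ T, n ≤ N ∧ Even n ∧ ¬ Good N (δ / 4) (j N) n) → (T.card : ℝ) ≤ D * (N / Real.log N ^ U) := by
  classical
  obtain ⟨k₀, hk₀⟩ := card_exc U
  obtain ⟨n1, h1⟩ := ev_log 1 (δ / (16 * (U + 1))) (by norm_num) (by positivity)
  obtain ⟨n2, h2⟩ := ev_log (1 / 2) (δ / 16) (by norm_num) (by positivity)
  obtain ⟨n3, h3⟩ := ev_big (k₀ : ℝ)
  obtain ⟨n4, h4⟩ := ev_big 1
  obtain ⟨n5, h5⟩ := ev_big (4 * Real.log (n4 + 1))
  set N₁ : ℕ := n1 + n2 + n3 + n4 + n5 + 100 with hN₁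
  refine ⟨C ^ 2 + 8 + 2 * Real.log N₁ ^ U, fun N hN T hT => ?_⟩
  have hN2 : (2 : ℝ) ≤ N := by exact_mod_cast hN
  have hN1 : (1 : ℝ) ≤ N := by linarith
  have hN0 : (0 : ℝ) < N := by linarith
  have hL0 : 0 < Real.log N := Real.log_pos (by linarith)
  have hN₁r : (1 : ℝ) ≤ N₁ := by exact_mod_cast (by omega : 1 ≤ N₁)
  have hlog₁ : 0 ≤ Real.log N₁ := Real.log_nonneg hN₁r
  have hpw : ∀ t : ℝ, 0 < (N : ℝ) ^ t := fun t => Real.rpow_pos_of_pos hN0 t
  have hmono : ∀ {s t : ℝ}, s ≤ t → (N : ℝ) ^ s ≤ (N : ℝ) ^ t := fun h =>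
    Real.rpow_le_rpow_of_exponent_le hN1 h
  have hTN : T ⊆ range (N + 1) := fun n hn => mem_range.2 (by have := (hT n hn).1; omega)
  have hF0 : 0 < (N : ℝ) / Real.log N ^ U := by positivity
  rcases Nat.lt_or_ge N N₁ with hlt | hge
  · have h6 : (T.card : ℝ) ≤ N + 1 := by
      have := card_le_card hTN
      rw [card_range] at this
      exact_mod_cast this
    have h7 : Real.log N ^ U ≤ Real.log N₁ ^ U := by
      apply pow_le_pow_left₀ hL0.le
      exact Real.log_le_log hN0 (by exact_mod_cast hlt.le)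
    have h8 : (N : ℝ) ≤ Real.log N₁ ^ U * (N / Real.log N ^ U) := by
      rw [mul_div_assoc', le_div_iff₀ (by positivity)]
      nlinarith
    have h9 : (0 : ℝ) ≤ (C ^ 2 + 8) * (N / Real.log N ^ U) := by positivity
    nlinarith
  · set L : ℝ := Real.log N with hLdef
    obtain ⟨k, hk⟩ : ∃ k, k = Nat.log 2 N + 1 := ⟨_, rfl⟩
    obtain ⟨hk1, hk2, hk3⟩ := two_pow_k hk (by omega : 1 ≤ N)
    have hkk : k₀ ≤ k := by
      have := (h3 N (by omega)).trans hk3
      exact_mod_cast this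
    have hexc := hk₀ k hkk
    have hexc2 : ((exc k).card : ℝ) ≤ 2 * (N / L ^ U) := by
      refine hexc.trans ?_
      have : (2 : ℝ) ^ k ≤ N * 2 := by exact_mod_cast hk2
      rw [mul_div_assoc']
      apply div_le_div₀ (by positivity) (by linarith) (by positivity)
      exact pow_le_pow_left₀ hL0.le hk3 U
    -- logarithms are small
    have hLU : (N : ℝ) ^ (1 - δ / 8) ≤ N / L ^ U := by
      rw [le_div_iff₀ (by positivity)]
      have h6 := h1 N (by omega)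
      rw [one_mul] at h6
      have h7 : L ^ U ≤ ((N : ℝ) ^ (δ / (16 * (U + 1)))) ^ U := pow_le_pow_left₀ hL0.le h6 U
      rw [← Real.rpow_natCast ((N : ℝ) ^ (δ / (16 * (U + 1)))) U, ← Real.rpow_mul hN0.le] at h7
      have h8 : δ / (16 * (U + 1)) * (U : ℝ) ≤ δ / 8 := by
        have hU : (0 : ℝ) ≤ U := Nat.cast_nonneg U
        rw [div_mul_eq_mul_div, div_le_div_iff₀ (by positivity) (by norm_num)]
        nlinarith
      calc (N : ℝ) ^ (1 - δ / 8) * L ^ U ≤ (N : ℝ) ^ (1 - δ / 8) * (N : ℝ) ^ (δ / 8) := by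
            have := hpw (1 - δ / 8)
            gcongr
            exact h7.trans (hmono h8)
        _ = N := by rw [← Real.rpow_add hN0]; simp
    set F : ℝ := N / L ^ U with hF
    set X : ℕ := ⌊(N : ℝ) ^ (1 - δ / 8)⌋₊ with hX
    set B : Finset ℕ := T.filter (fun n => X < n ∧ n ∉ exc k ∧ n4 + 3 ≤ n) with hB
    have hcov : T ⊆ range (X + 1) ∪ (exc k ∪ (range (n4 + 3) ∪ B)) := by
      intro n hn
      by_cases a1 : n ≤ X
      · rw [mem_union, mem_range]; left; omega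
      · by_cases a2 : n ∈ exc k
        · rw [mem_union, mem_union]; right; left; exact a2
        · by_cases a3 : n < n4 + 3
          · rw [mem_union, mem_union, mem_union]; right; right; left; exact mem_range.2 a3
          · rw [mem_union, mem_union, mem_union, hB, mem_filter]; right; right; right
            exact ⟨hn, by omega, a2, by omega⟩
    have hcard : (T.card : ℝ) ≤ (X + 1) + ((exc k).card + ((n4 + 3) + B.card)) := by
      have a1 := (card_le_card hcov).trans (card_union_le _ _)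
      have a2 := card_union_le (exc k) (range (n4 + 3) ∪ B)
      have a3 := card_union_le (range (n4 + 3)) B
      rw [card_range] at a1 a3
      have : T.card ≤ (X + 1) + ((exc k).card + ((n4 + 3) + B.card)) := by omega
      exact_mod_cast this
    have hXle : (X : ℝ) ≤ (N : ℝ) ^ (1 - δ / 8) := Nat.floor_le (hpw _).le
    have hBc : (B.card : ℝ) ≤ C ^ 2 * (N : ℝ) ^ (1 - δ) := by
      refine few_bad (by omega) hδ hC (hj N (by omega)) B (fun n hn => ?_)
      rw [hB, mem_filter] at hn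
      obtain ⟨hnT, hnX, hnE, hn4⟩ := hn
      obtain ⟨hnN, hnev, hngood⟩ := hT n hnT
      refine ⟨?_, hngood⟩
      have hw : WinP (1 / 2) 1 n := by
        by_contra hcon
        exact hnE (mem_exc.2 ⟨by omega, by omega, hnev.two_dvd, hcon⟩)
      have hnr : (N : ℝ) ^ (1 - δ / 8) ≤ n := by
        have h6 : (N : ℝ) ^ (1 - δ / 8) < X + 1 := Nat.lt_floor_add_one _
        have h7 : ((X + 1 : ℕ) : ℝ) ≤ n := by exact_mod_cast hnX
        push_cast at h7
        linarith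
      have hn0 : (0 : ℝ) < n := lt_of_lt_of_le (hpw _) hnr
      have hl1 := h4 n (by omega)
      have hl2 : Real.log n ≤ L := Real.log_le_log hn0 (by exact_mod_cast hnN)
      refine le_trans ?_ (good_many hnN (by omega) hw hl1)
      rw [le_div_iff₀ (by positivity)]
      have h6 := h2 N (by omega)
      have h7 : Real.log n ^ 2 ≤ (1 / 2 * (N : ℝ) ^ (δ / 16)) ^ 2 :=
        pow_le_pow_left₀ (by linarith) (hl2.trans h6) 2
      rw [mul_pow, ← Real.rpow_natCast ((N : ℝ) ^ (δ / 16)) 2, ← Real.rpow_mul hN0.le] at h7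
      have e1 : δ / 16 * ((2 : ℕ) : ℝ) = δ / 8 := by push_cast; ring
      rw [e1] at h7
      calc (N : ℝ) ^ (1 - δ / 4) * (2 * Real.log n ^ 2) ≤
          (N : ℝ) ^ (1 - δ / 4) * (2 * ((1 / 2) ^ 2 * (N : ℝ) ^ (δ / 8))) := by
            have := hpw (1 - δ / 4)
            gcongr
        _ = 1 / 2 * ((N : ℝ) ^ (1 - δ / 4) * (N : ℝ) ^ (δ / 8)) := by ring
        _ = 1 / 2 * (N : ℝ) ^ (1 - δ / 8) := by rw [← Real.rpow_add hN0]; congr 2; ring
        _ ≤ (N : ℝ) ^ (1 - δ / 8) := by have := hpw (1 - δ / 8); linarith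
        _ ≤ n := hnr
    have h6 : (N : ℝ) ^ (1 - δ) ≤ F := (hmono (by linarith)).trans hLU
    have h7 : (N : ℝ) ^ (1 - δ / 8) ≥ 1 := Real.one_le_rpow hN1 (by linarith)
    -- the constant
    have h8 : (n4 : ℝ) + 3 ≤ 4 * (N : ℝ) ^ (1 - δ / 8) := by
      have h9 := h5 N (by omega)
      have h10 : Real.log (n4 + 1) ≤ Real.log ((N : ℝ) ^ (1 - δ / 8)) := by
        rw [Real.log_rpow hN0]
        nlinarith [Real.log_nonneg (show (1 : ℝ) ≤ n4 + 1 by have : (0:ℝ) ≤ n4 := Nat.cast_nonneg _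
                                                             linarith)]
      have h11 := (Real.log_le_log_iff (by positivity) (hpw _)).1 h10
      linarith
    have h12 : C ^ 2 * (N : ℝ) ^ (1 - δ) ≤ C ^ 2 * F := by gcongr
    have h13 : 0 ≤ Real.log N₁ ^ U * F := by positivity
    nlinarith

end Pool.Agent.T6.H35.EQ
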