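import Pool.Agent.T6.H35.EQ.Tri
import Pool.Agent.T6.H18.HH.Vino

/-!
# Lower bounds for the numbers of representations
-/

set_option autoImplicit false

namespace Pool.Agent.T6.H35.EQ

open Finset Filter
open Pool.Agent.T6.H18.HH (exc mem_exc card_exc cnt_lower)
open Pool.Agent.W93.PG (cnt WinP)

lemma ev_log (c r : ℝ) (hc : 0 < c) (hr : 0 < r) : ∃ N₀ : ℕ, ∀ n : ℕ, N₀ ≤ n →
    Real.log n ≤ c * (n : ℝ) ^ r := by
  have h1 := (isLittleO_log_rpow_atTop hr).bound hc
  have h2 := tendsto_natCast_atTop_atTop (R := ℝ) |>.eventually h1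
  obtain ⟨N₀, hN₀⟩ := eventually_atTop.1 h2
  refine ⟨max N₀ 1, fun n hn => ?_⟩
  have h3 := hN₀ n (le_trans (le_max_left _ _) hn)
  have hn1 : (1 : ℝ) ≤ n := by exact_mod_cast le_trans (le_max_right _ _) hn
  rw [Real.norm_of_nonneg (Real.log_nonneg hn1), Real.norm_of_nonneg (by positivity)] at h3
  exact h3

lemma ev_big (A : ℝ) : ∃ N₀ : ℕ, ∀ n : ℕ, N₀ ≤ n → A ≤ Real.log n := by
  have h2 := (Real.tendsto_log_atTop.comp (tendsto_natCast_atTop_atTop (R := ℝ))).eventually_ge_atTop A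
  obtain ⟨N₀, hN₀⟩ := eventually_atTop.1 h2
  exact ⟨N₀, fun n hn => hN₀ n hn⟩

lemma cnt_le_prs {N m : ℕ} (h : m ≤ N) : cnt m 0 m ≤ (prs N 1 1 m).card := by
  rw [cnt]
  apply card_le_card_of_injOn (fun p => (p, m - p))
  · intro p hp
    rw [mem_coe, mem_filter, mem_Ioc] at hp
    rw [mem_coe, mem_prs]
    refine ⟨⟨by simp only; omega, hp.2.1⟩, ⟨by simp only; omega, hp.2.2⟩, ?_⟩
    simp only [one_mul]
    omega
  · intro p _ q _ h
    exact (Prod.mk.inj h).1

/-- a good even number has many representations -/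
lemma good_many {N m : ℕ} (h : m ≤ N) (hm : 3 ≤ m) (hw : WinP (1 / 2) 1 m) (hlog : 1 ≤ Real.log m) :
    (m : ℝ) / (2 * Real.log m ^ 2) ≤ (prs N 1 1 m).card := by
  have hm0 : (0 : ℝ) < m := by positivity
  have h1 := cnt_lower hw (y₁ := 0) (y₂ := m) (by omega) le_rfl (by
    push_cast
    rw [sub_zero]
    exact div_le_self hm0.le hlog)
  push_cast at h1
  rw [sub_zero] at h1
  refine h1.trans ?_
  exact_mod_cast cnt_le_prs h

lemma two_pow_k {n k : ℕ} (hk : k = Nat.log 2 n + 1) (hn : 1 ≤ n) : n < 2 ^ k ∧ 2 ^ k ≤ n * 2 ∧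
    Real.log n ≤ k := by
  have h1 : n < 2 ^ k := by
    rw [hk]
    exact Nat.lt_pow_succ_log_self (by norm_num) n
  refine ⟨h1, ?_, ?_⟩
  · rw [hk, pow_succ]
    exact Nat.mul_le_mul_right 2 (Nat.pow_log_le_self 2 (by omega))
  · have h2 : Real.log n ≤ Real.log ((2 : ℝ) ^ k) :=
      Real.log_le_log (by exact_mod_cast hn) (by exact_mod_cast h1.le)
    rw [Real.log_pow] at h2
    have := Real.log_two_lt_d9
    have : (0 : ℝ) ≤ k := Nat.cast_nonneg k
    nlinarith

/-- many representations by three primes -/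
theorem tri_many (ε : ℝ) (hε : 0 < ε) : ∃ N₀ : ℕ, ∀ n : ℕ, N₀ ≤ n → Odd n →
    (n : ℝ) ^ (2 - ε) ≤ (tri n).card := by
  classical
  obtain ⟨k₀, hk₀⟩ := card_exc 3
  obtain ⟨n1, h1⟩ := ev_log (1 / 8) (ε / 3) (by norm_num) (by positivity)
  obtain ⟨n2, h2⟩ := ev_big 8
  obtain ⟨n3, h3⟩ := ev_big (k₀ : ℝ)
  obtain ⟨n4, h4⟩ := ev_log (1 / 64) 1 (by norm_num) (by norm_num)
  refine ⟨n1 + n2 + n3 + n4 + 100, fun n hn hodd => ?_⟩
  have hnr : (100 : ℝ) ≤ n := by exact_mod_cast (by omega : 100 ≤ n)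
  have hn0 : (0 : ℝ) < n := by linarith
  have hn1 : (1 : ℝ) ≤ n := by linarith
  have hL := h2 n (by omega)
  set L : ℝ := Real.log n with hLdef
  have hL0 : 0 < L := by linarith
  have hLn : L ≤ 1 / 64 * n := by
    have := h4 n (by omega)
    rwa [Real.rpow_one] at this
  obtain ⟨k, hk⟩ : ∃ k, k = Nat.log 2 n + 1 := ⟨_, rfl⟩
  obtain ⟨hk1, hk2, hk3⟩ := two_pow_k hk (by omega : 1 ≤ n)
  have hkk : k₀ ≤ k := by
    have := (h3 n (by omega)).trans hk3
    exact_mod_cast this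
  have hexc := hk₀ k hkk
  have hk0 : (0 : ℝ) < k := by linarith
  have hexc2 : ((exc k).card : ℝ) ≤ 2 * n / L ^ 3 := by
    refine hexc.trans ?_
    have : (2 : ℝ) ^ k ≤ n * 2 := by exact_mod_cast hk2
    apply div_le_div₀ (by positivity) (by linarith) (by positivity)
    exact pow_le_pow_left₀ hL0.le hk3 3
  -- the first primes
  set h : ℕ := n / 2 with hh
  set G : Finset ℕ := (Pr h).filter (fun q => q ≠ 2 ∧ n - q ∉ exc k) with hG
  have hcov : Pr h ⊆ G ∪ ({2} ∪ (exc k).image (fun m => n - m)) := by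
    intro q hq
    by_cases h2' : q = 2
    · rw [mem_union, mem_union]; right; left; exact mem_singleton.2 h2'
    · by_cases h3' : n - q ∈ exc k
      · rw [mem_union, mem_union]; right; right
        rw [mem_image]
        refine ⟨n - q, h3', ?_⟩
        have := (mem_Pr.1 hq).1
        omega
      · rw [mem_union]; left
        rw [hG, mem_filter]
        exact ⟨hq, h2', h3'⟩
  have hcard : (Pr h).card ≤ G.card + (1 + (exc k).card) := by
    have h5 : (({2} : Finset ℕ) ∪ (exc k).image (fun m => n - m)).card ≤ 1 + (exc k).card := by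
      calc (({2} : Finset ℕ) ∪ (exc k).image (fun m => n - m)).card ≤
          ({2} : Finset ℕ).card + ((exc k).image (fun m => n - m)).card := card_union_le _ _
        _ ≤ 1 + (exc k).card := by
          rw [card_singleton]
          exact Nat.add_le_add_left card_image_le 1
    exact (card_le_card hcov).trans ((card_union_le _ _).trans (Nat.add_le_add_left h5 _))
  have hPr : (Pr h).card = Nat.primeCounting h := by
    rw [Pr, Nat.primeCounting, Nat.primeCounting', Nat.count_eq_card_filter_range]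
  have hpi := Chebyshev.pi_ge h
  rw [← hPr] at hpi
  have hhl : ((n : ℝ) - 1) / 2 ≤ h := by
    have : n ≤ 2 * h + 1 := by omega
    have : (n : ℝ) ≤ 2 * h + 1 := by exact_mod_cast this
    linarith
  have hhu : (h : ℝ) + 1 ≤ n := by
    have : h + 1 ≤ n := by omega
    exact_mod_cast this
  have hh1 : (1 : ℝ) < h := by linarith
  have hlh : Real.log h ≤ L := Real.log_le_log (by linarith) (by linarith)
  have hlh0 : 0 < Real.log h := Real.log_pos hh1
  have hlh1 : Real.log (h + 1) ≤ L := Real.log_le_log (by linarith) hhu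
  have hpi2 : (n : ℝ) / (4 * L) ≤ (Pr h).card := by
    refine le_trans ?_ hpi
    have h5 : (n : ℝ) / 4 ≤ h * Real.log 2 - Real.log (h + 1) := by
      have := Real.log_two_gt_d9
      nlinarith
    calc (n : ℝ) / (4 * L) = (n / 4) / L := by field_simp
      _ ≤ (h * Real.log 2 - Real.log (h + 1)) / Real.log h := by
        apply div_le_div₀ (by linarith) h5 hlh0 hlh
  have hGl : (n : ℝ) / (8 * L) ≤ G.card := by
    have h5 : ((Pr h).card : ℝ) ≤ G.card + (1 + (exc k).card) := by exact_mod_cast hcard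
    have h6 : 2 * (n : ℝ) / L ^ 3 ≤ n / (16 * L) := by
      rw [div_le_div_iff₀ (by positivity) (by positivity)]
      have : 64 ≤ L ^ 2 := by nlinarith
      nlinarith [mul_pos hn0 hL0]
    have h7 : (1 : ℝ) ≤ n / (16 * L) := by
      rw [le_div_iff₀ (by positivity)]
      linarith
    have h8 : (n : ℝ) / (4 * L) = n / (8 * L) + (n / (16 * L) + n / (16 * L)) := by
      field_simp; norm_num
    linarith
  -- the sum
  have e2 := tri_count n (fun _ => True) (fun _ => True)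
  simp only [and_true, filter_true] at e2
  rw [e2, sum_image (by intro a _ b _ hab; simp only at hab; omega)]
  push_cast
  have hGn : G ⊆ Pr n := by
    intro q hq
    rw [hG, mem_filter, mem_Pr] at hq
    rw [mem_Pr]
    exact ⟨by omega, hq.1.2⟩
  have h9 : ∀ q ∈ G, (n : ℝ) / (4 * L ^ 2) ≤ (prs n 1 1 ((n : ℤ) - q)).card := by
    intro q hq
    rw [hG, mem_filter, mem_Pr] at hq
    obtain ⟨⟨hq1, hq2⟩, hq3, hq4⟩ := hq
    have hqodd : Odd q := hq2.odd_of_ne_two hq3
    have heven : 2 ∣ n - q := by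
      obtain ⟨a, ha⟩ := hodd
      obtain ⟨b, hb⟩ := hqodd
      omega
    have hgood : WinP (1 / 2) 1 (n - q) := by
      by_contra hcon
      exact hq4 (mem_exc.2 ⟨by omega, by omega, heven, hcon⟩)
    have hc : ((n : ℤ) - q) = ((n - q : ℕ) : ℤ) := by
      rw [Nat.cast_sub (by omega)]
    rw [hc]
    have hmr : (n : ℝ) / 2 ≤ ((n - q : ℕ) : ℝ) := by
      have : n ≤ 2 * (n - q) := by omega
      have : (n : ℝ) ≤ 2 * ((n - q : ℕ) : ℝ) := by exact_mod_cast this
      linarith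
    have hmn : ((n - q : ℕ) : ℝ) ≤ n := by exact_mod_cast Nat.sub_le n q
    have hl1 : 1 ≤ Real.log ((n - q : ℕ) : ℝ) := by
      rw [Real.le_log_iff_exp_le (by linarith)]
      have := Real.exp_one_lt_d9
      linarith
    have hl2 : Real.log ((n - q : ℕ) : ℝ) ≤ L := Real.log_le_log (by linarith) hmn
    refine le_trans ?_ (good_many (N := n) (m := n - q) (Nat.sub_le _ _) (by omega) hgood hl1)
    calc (n : ℝ) / (4 * L ^ 2) = (n / 2) / (2 * L ^ 2) := by field_simp; norm_num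
      _ ≤ _ := by
        apply div_le_div₀ (by linarith) hmr (by positivity)
        have := pow_le_pow_left₀ (by linarith) hl2 2
        linarith
  have h10 : (n : ℝ) ^ 2 / (32 * L ^ 3) ≤ ∑ q ∈ Pr n, ((prs n 1 1 ((n : ℤ) - q)).card : ℝ) := by
    calc (n : ℝ) ^ 2 / (32 * L ^ 3) = (n / (8 * L)) * (n / (4 * L ^ 2)) := by field_simp; norm_num
      _ ≤ G.card * (n / (4 * L ^ 2)) := by gcongr
      _ = ∑ _q ∈ G, (n : ℝ) / (4 * L ^ 2) := by rw [sum_const, nsmul_eq_mul]
      _ ≤ ∑ q ∈ G, ((prs n 1 1 ((n : ℤ) - q)).card : ℝ) := sum_le_sum h9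
      _ ≤ _ := sum_le_sum_of_subset_of_nonneg hGn fun _ _ _ => Nat.cast_nonneg _
  refine le_trans ?_ h10
  rw [le_div_iff₀ (by positivity)]
  have h11 := h1 n (by omega)
  rw [← hLdef] at h11
  have h12 : L ^ 3 ≤ (1 / 8 * (n : ℝ) ^ (ε / 3)) ^ 3 := pow_le_pow_left₀ hL0.le h11 3
  rw [mul_pow, ← Real.rpow_natCast ((n : ℝ) ^ (ε / 3)) 3, ← Real.rpow_mul hn0.le] at h12
  have e3 : ε / 3 * ((3 : ℕ) : ℝ) = ε := by push_cast; ring
  rw [e3] at h12
  have h13 := Real.rpow_pos_of_pos hn0 (2 - ε)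
  calc (n : ℝ) ^ (2 - ε) * (32 * L ^ 3) ≤ (n : ℝ) ^ (2 - ε) * (32 * ((1 / 8) ^ 3 * (n : ℝ) ^ ε)) := by gcongr
    _ = 32 * (1 / 8) ^ 3 * ((n : ℝ) ^ (2 - ε) * (n : ℝ) ^ ε) := by ring
    _ = 32 * (1 / 8) ^ 3 * (n : ℝ) ^ 2 := by
        rw [← Real.rpow_add hn0, ← Real.rpow_natCast (n : ℝ) 2]; congr 2; push_cast; ring
    _ ≤ _ := by
        have : 0 < (n : ℝ) ^ 2 := by positivity
        nlinarith

end Pool.Agent.T6.H35.EQ
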