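import Pool.Agent.T6.H35.EQ.Weyl
import Pool.Agent.Erdos456.Mertens

/-!
# Multiplicative functions: reduction to a bilinear sum with a prime variable
-/

set_option autoImplicit false

namespace Pool.Agent.T6.H35.EQ

open Finset
open Pool.Agent.H469R2.NK (e norm_e e_add e_zero conj_e)
open Pool.Agent.Erdos456.Mert (PP mertens_log sum_small_bound theta_le)

/-- multiplicative functions bounded by one -/
def Mul1 (f : ℕ → ℂ) : Prop := (∀ m n : ℕ, m.Coprime n → f (m * n) = f m * f n) ∧ ∀ n, ‖f n‖ ≤ 1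

/-- the primes which divide `n` exactly once -/
def P1 (n : ℕ) : Finset ℕ := n.primeFactors.filter (fun p => ¬ p ^ 2 ∣ n)

/-- the sum of their logarithms -/
noncomputable def L1 (n : ℕ) : ℝ := ∑ p ∈ P1 n, Real.log p

lemma L1_le {n : ℕ} (hn : 1 ≤ n) : L1 n ≤ Real.log n := by
  have h1 : L1 n ≤ ∑ p ∈ n.primeFactors, Real.log p :=
    sum_le_sum_of_subset_of_nonneg (filter_subset _ _) fun p hp _ => Real.log_nonneg (by
      exact_mod_cast (Nat.prime_of_mem_primeFactors hp).one_lt.le)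
  refine h1.trans ?_
  rw [← Real.log_prod (fun p hp => by
    exact_mod_cast (Nat.prime_of_mem_primeFactors hp).ne_zero)]
  apply Real.log_le_log
  · apply prod_pos
    intro p hp
    exact_mod_cast (Nat.prime_of_mem_primeFactors hp).pos
  · have h2 : ((∏ p ∈ n.primeFactors, p : ℕ) : ℝ) ≤ n := by
      exact_mod_cast Nat.le_of_dvd (by omega) (Nat.prod_primeFactors_dvd n)
    rwa [Nat.cast_prod] at h2

lemma swap {A : Type} [AddCommMonoid A] (N : ℕ) (G : ℕ → ℕ → A) :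
    ∑ n ∈ Icc 1 N, ∑ p ∈ P1 n, G p (n / p) =
      ∑ p ∈ PP N, ∑ l ∈ (Icc 1 (N / p)).filter (fun l => ¬ p ∣ l), G p l := by
  rw [sum_sigma', sum_sigma']
  refine sum_nbij' (fun x => ⟨x.2, x.1 / x.2⟩) (fun x => ⟨x.1 * x.2, x.1⟩) ?_ ?_ ?_ ?_ ?_
  · rintro ⟨n, p⟩ h
    simp only [mem_sigma, mem_Icc, P1, mem_filter, Nat.mem_primeFactors] at h ⊢
    obtain ⟨⟨h1, h2⟩, ⟨hp, hd, h0⟩, hs⟩ := h
    have hpn : p ≤ n := Nat.le_of_dvd (by omega) hd
    obtain ⟨l, rfl⟩ := hd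
    rw [Nat.mul_div_cancel_left l hp.pos]
    refine ⟨⟨⟨hp.one_lt.le, hpn.trans h2⟩, hp⟩, ⟨?_, ?_⟩, ?_⟩
    · exact Nat.pos_of_ne_zero (fun h => h0 (by rw [h, mul_zero]))
    · rw [Nat.le_div_iff_mul_le hp.pos, mul_comm]; exact h2
    · intro hd
      exact hs (by rw [pow_two]; exact Nat.mul_dvd_mul_left p hd)
  · rintro ⟨p, l⟩ h
    simp only [mem_sigma, mem_Icc, P1, mem_filter, Nat.mem_primeFactors] at h ⊢
    obtain ⟨⟨⟨h1, h2⟩, hp⟩, ⟨h3, h4⟩, h5⟩ := h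
    have h6 : p * l ≤ N := by
      rw [mul_comm]; exact (Nat.le_div_iff_mul_le hp.pos).1 h4
    refine ⟨⟨Nat.mul_pos hp.pos h3, h6⟩, ⟨hp, dvd_mul_right _ _, (Nat.mul_pos hp.pos h3).ne'⟩, ?_⟩
    intro hd
    rw [pow_two] at hd
    exact h5 (Nat.dvd_of_mul_dvd_mul_left hp.pos hd)
  · rintro ⟨n, p⟩ h
    simp only [mem_sigma, P1, mem_filter, Nat.mem_primeFactors] at h
    obtain ⟨_, ⟨hp, hd, _⟩, _⟩ := h
    simp only
    rw [Nat.mul_div_cancel' hd]
  · rintro ⟨p, l⟩ h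
    simp only [mem_sigma, mem_filter] at h
    simp only
    rw [Nat.mul_div_cancel_left l h.1.2.pos]
  · rintro ⟨n, p⟩ _
    rfl

lemma card_dvd (M p : ℕ) : ((Icc 1 M).filter (fun l => p ∣ l)).card = M / p := by
  rw [← Nat.Ioc_filter_dvd_card_eq_div]
  rfl

lemma log_sq_sum : ∃ C : ℝ, 0 ≤ C ∧ ∀ N : ℕ, ∑ p ∈ PP N, Real.log p / (p : ℝ) ^ 2 ≤ C := by
  obtain ⟨C, hC, h⟩ := sum_small_bound
  refine ⟨C, hC, fun N => le_trans (sum_le_sum fun p hp => ?_) (h N)⟩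
  have hp' := (mem_filter.1 hp).2
  have h2 : (2 : ℝ) ≤ p := by exact_mod_cast hp'.two_le
  apply div_le_div_of_nonneg_left (Real.log_nonneg (by linarith)) (by nlinarith)
  nlinarith

/-- multiples of `p` among the cofactors -/
lemma nd_bound : ∃ C : ℝ, 0 ≤ C ∧ ∀ N : ℕ,
    ∑ p ∈ PP N, Real.log p * ((Icc 1 (N / p)).filter (fun l => p ∣ l)).card ≤ C * N := by
  obtain ⟨C, hC, h⟩ := log_sq_sum
  refine ⟨C, hC, fun N => ?_⟩
  calc ∑ p ∈ PP N, Real.log p * ((Icc 1 (N / p)).filter (fun l => p ∣ l)).card ≤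
      ∑ p ∈ PP N, (Real.log p / (p : ℝ) ^ 2) * N := sum_le_sum fun p hp => by
        have hp' := (mem_filter.1 hp).2
        have h2 : (2 : ℝ) ≤ p := by exact_mod_cast hp'.two_le
        rw [card_dvd, Nat.div_div_eq_div_mul]
        have h3 : ((N / (p * p) : ℕ) : ℝ) ≤ N / (p * p : ℕ) := Nat.cast_div_le
        push_cast at h3
        calc Real.log p * ((N / (p * p) : ℕ) : ℝ) ≤ Real.log p * (N / (p * p)) :=
              mul_le_mul_of_nonneg_left h3 (Real.log_nonneg (by linarith))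
          _ = _ := by rw [pow_two]; ring
    _ = (∑ p ∈ PP N, Real.log p / (p : ℝ) ^ 2) * N := by rw [sum_mul]
    _ ≤ C * N := mul_le_mul_of_nonneg_right (h N) (Nat.cast_nonneg _)

/-- the logarithm is mostly the sum over the primes which divide exactly once -/
lemma rest_bound : ∃ C : ℝ, 0 ≤ C ∧ ∀ N : ℕ, 1 ≤ N →
    ∑ n ∈ Icc 1 N, (Real.log N - L1 n) ≤ C * N := by
  obtain ⟨C1, h1⟩ := mertens_log
  obtain ⟨C2, hC2, h2⟩ := nd_bound
  have hC1 : 0 ≤ C1 := (abs_nonneg _).trans (h1 1 le_rfl)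
  refine ⟨C1 + C2 + 2, by linarith, fun N hN => ?_⟩
  have hN1 : (1 : ℝ) ≤ N := by exact_mod_cast hN
  have hN0 : (0 : ℝ) < N := by linarith
  have e1 : ∑ n ∈ Icc 1 N, L1 n = ∑ p ∈ PP N, ∑ _l ∈ (Icc 1 (N / p)).filter (fun l => ¬ p ∣ l), Real.log p := by
    unfold L1
    exact swap N (fun p _ => Real.log p)
  have h3 : ∀ p ∈ PP N, N * (Real.log p / p) - Real.log p - Real.log p * ((Icc 1 (N / p)).filter (fun l => p ∣ l)).card ≤
      ∑ _l ∈ (Icc 1 (N / p)).filter (fun l => ¬ p ∣ l), Real.log p := by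
    intro p hp
    have hp' := (mem_filter.1 hp).2
    have hl : 0 ≤ Real.log p := Real.log_nonneg (by exact_mod_cast hp'.one_lt.le)
    rw [sum_const, nsmul_eq_mul]
    have h4 : (((Icc 1 (N / p)).filter (fun l => ¬ p ∣ l)).card : ℝ) =
        (N / p : ℕ) - ((Icc 1 (N / p)).filter (fun l => p ∣ l)).card := by
      have := card_filter_add_card_filter_not (s := Icc 1 (N / p)) (fun l => p ∣ l)
      rw [Nat.card_Icc, Nat.add_sub_cancel] at this
      have h5 : ((((Icc 1 (N / p)).filter (fun l => p ∣ l)).card + ((Icc 1 (N / p)).filter (fun l => ¬ p ∣ l)).card : ℕ) : ℝ) = (N / p : ℕ) := by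
        exact_mod_cast this
      push_cast at h5
      linarith
    rw [h4]
    have h5 : (N : ℝ) / p - 1 ≤ ((N / p : ℕ) : ℝ) := by
      have := Nat.lt_floor_add_one ((N : ℝ) / p)
      rw [Nat.floor_div_eq_div] at this
      linarith
    have h6 : N * (Real.log p / p) - Real.log p ≤ Real.log p * ((N / p : ℕ) : ℝ) := by
      calc N * (Real.log p / p) - Real.log p = Real.log p * (N / p - 1) := by ring
        _ ≤ _ := mul_le_mul_of_nonneg_left h5 hl
    nlinarith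
  have h4 := sum_le_sum h3
  rw [sum_sub_distrib, sum_sub_distrib, ← mul_sum] at h4
  have h5 := (abs_le.1 (h1 N hN)).1
  have h6 := theta_le N
  have h7 := h2 N
  have h8 : ∑ n ∈ Icc 1 N, Real.log N = N * Real.log N := by
    rw [sum_const, Nat.card_Icc, nsmul_eq_mul]; simp
  rw [sum_sub_distrib, h8, e1]
  have h9 : N * (Real.log N - C1) ≤ N * ∑ p ∈ PP N, Real.log p / p := by
    apply mul_le_mul_of_nonneg_left _ hN0.le
    have : -C1 ≤ ∑ p ∈ PP N, Real.log p / p - Real.log N := h5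
    linarith
  nlinarith

/-- the bilinear sum -/
noncomputable def bsum (N : ℕ) (f : ℕ → ℂ) (α : ℝ) : ℂ :=
  ∑ p ∈ PP N, ∑ l ∈ Icc 1 (N / p), ((Real.log p : ℝ) : ℂ) * f p * f l * e ((p * l : ℕ) * α)

theorem reduce : ∃ C : ℝ, 0 ≤ C ∧ ∀ (N : ℕ) (f : ℕ → ℂ) (α : ℝ), 1 ≤ N → Mul1 f →
    Real.log N * ‖∑ n ∈ Icc 1 N, f n * e (n * α)‖ ≤ ‖bsum N f α‖ + C * N := by
  obtain ⟨C1, hC1, h1⟩ := rest_bound
  obtain ⟨C2, hC2, h2⟩ := nd_bound
  refine ⟨C1 + C2, by linarith, fun N f α hN hf => ?_⟩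
  have hN1 : (1 : ℝ) ≤ N := by exact_mod_cast hN
  have hlog : 0 ≤ Real.log N := Real.log_nonneg hN1
  set S : ℂ := ∑ n ∈ Icc 1 N, f n * e (n * α) with hS
  have e1 : ((Real.log N : ℝ) : ℂ) * S = ∑ n ∈ Icc 1 N, ((Real.log N - L1 n : ℝ) : ℂ) * (f n * e (n * α)) +
      ∑ n ∈ Icc 1 N, ((L1 n : ℝ) : ℂ) * (f n * e (n * α)) := by
    rw [hS, mul_sum, ← sum_add_distrib]
    refine sum_congr rfl fun n _ => ?_
    push_cast; ring
  have b1 : ‖∑ n ∈ Icc 1 N, ((Real.log N - L1 n : ℝ) : ℂ) * (f n * e (n * α))‖ ≤ C1 * N := by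
    refine (norm_sum_le _ _).trans ((sum_le_sum fun n hn => ?_).trans (h1 N hN))
    rw [mem_Icc] at hn
    have h3 := L1_le hn.1
    have h4 : Real.log n ≤ Real.log N := Real.log_le_log (by exact_mod_cast hn.1) (by exact_mod_cast hn.2)
    rw [norm_mul, Complex.norm_real, Real.norm_of_nonneg (by linarith), norm_mul, norm_e, mul_one]
    have := hf.2 n
    nlinarith
  have e2 : ∑ n ∈ Icc 1 N, ((L1 n : ℝ) : ℂ) * (f n * e (n * α)) =
      ∑ p ∈ PP N, ∑ l ∈ (Icc 1 (N / p)).filter (fun l => ¬ p ∣ l),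
        ((Real.log p : ℝ) : ℂ) * f p * f l * e ((p * l : ℕ) * α) := by
    rw [← swap N (fun p l => ((Real.log p : ℝ) : ℂ) * f p * f l * e ((p * l : ℕ) * α))]
    refine sum_congr rfl fun n _ => ?_
    unfold L1
    push_cast
    rw [sum_mul]
    refine sum_congr rfl fun p hp => ?_
    rw [P1, mem_filter, Nat.mem_primeFactors] at hp
    obtain ⟨⟨hp, hd, h0⟩, hs⟩ := hp
    obtain ⟨l, rfl⟩ := hd
    rw [Nat.mul_div_cancel_left l hp.pos]
    have hc : p.Coprime l := by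
      rw [hp.coprime_iff_not_dvd]
      intro hd
      exact hs (by rw [pow_two]; exact Nat.mul_dvd_mul_left p hd)
    rw [hf.1 p l hc]
    push_cast
    ring
  have e3 : bsum N f α = ∑ p ∈ PP N, ∑ l ∈ (Icc 1 (N / p)).filter (fun l => ¬ p ∣ l),
        ((Real.log p : ℝ) : ℂ) * f p * f l * e ((p * l : ℕ) * α) +
      ∑ p ∈ PP N, ∑ l ∈ (Icc 1 (N / p)).filter (fun l => p ∣ l),
        ((Real.log p : ℝ) : ℂ) * f p * f l * e ((p * l : ℕ) * α) := by
    rw [bsum, ← sum_add_distrib]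
    refine sum_congr rfl fun p _ => ?_
    rw [add_comm]
    exact (sum_filter_add_sum_filter_not _ _ _).symm
  have b2 : ‖∑ p ∈ PP N, ∑ l ∈ (Icc 1 (N / p)).filter (fun l => p ∣ l),
        ((Real.log p : ℝ) : ℂ) * f p * f l * e ((p * l : ℕ) * α)‖ ≤ C2 * N := by
    refine (norm_sum_le _ _).trans ((sum_le_sum fun p hp => ?_).trans (h2 N))
    have hp' := (mem_filter.1 hp).2
    have hl : 0 ≤ Real.log p := Real.log_nonneg (by exact_mod_cast hp'.one_lt.le)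
    refine (norm_sum_le _ _).trans ?_
    calc ∑ l ∈ (Icc 1 (N / p)).filter (fun l => p ∣ l),
          ‖((Real.log p : ℝ) : ℂ) * f p * f l * e ((p * l : ℕ) * α)‖ ≤
        ∑ _l ∈ (Icc 1 (N / p)).filter (fun l => p ∣ l), Real.log p := sum_le_sum fun l _ => by
          rw [norm_mul, norm_mul, norm_mul, norm_e, mul_one, Complex.norm_real, Real.norm_of_nonneg hl]
          have h3 := hf.2 p
          have h4 := hf.2 l
          have h5 := norm_nonneg (f p)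
          have h6 := norm_nonneg (f l)
          calc Real.log p * ‖f p‖ * ‖f l‖ ≤ Real.log p * 1 * 1 := by gcongr
            _ = _ := by ring
      _ = _ := by rw [sum_const, nsmul_eq_mul, mul_comm]
  have h3 : Real.log N * ‖S‖ = ‖((Real.log N : ℝ) : ℂ) * S‖ := by
    rw [norm_mul, Complex.norm_real, Real.norm_of_nonneg hlog]
  rw [h3, e1, e2]
  have e4 : ∑ p ∈ PP N, ∑ l ∈ (Icc 1 (N / p)).filter (fun l => ¬ p ∣ l),
        ((Real.log p : ℝ) : ℂ) * f p * f l * e ((p * l : ℕ) * α) = bsum N f α -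
      ∑ p ∈ PP N, ∑ l ∈ (Icc 1 (N / p)).filter (fun l => p ∣ l),
        ((Real.log p : ℝ) : ℂ) * f p * f l * e ((p * l : ℕ) * α) := by rw [e3]; ring
  rw [e4]
  refine (norm_add_le _ _).trans ?_
  have := norm_sub_le (bsum N f α) (∑ p ∈ PP N, ∑ l ∈ (Icc 1 (N / p)).filter (fun l => p ∣ l),
        ((Real.log p : ℝ) : ℂ) * f p * f l * e ((p * l : ℕ) * α))
  linarith

end Pool.Agent.T6.H35.EQ
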