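import Pool.Agent.T6.H35.EQ.Weyl
import Pool.Agent.H373R2.T7.Minor

/-!
# Exponential sums over primes at one scale
-/

set_option autoImplicit false

namespace Pool.Agent.T6.H35.EQ

open Finset ArithmeticFunction
open Pool.Agent.H469R2.NK (e norm_e e_add e_zero conj_e)
open Pool.Agent.H807R2.Dav (ee norm_ee)

/-- a reduced approximation with denominator in `(T ^ η, T ^ (1/2)]` -/
lemma Irr.approx {T η α : ℝ} (hT : 1 ≤ T) (h : Irr T η α) : ∃ (q : ℕ) (a : ℤ), 1 ≤ q ∧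
    IsCoprime a (q : ℤ) ∧ |α - a / q| ≤ 1 / (q : ℝ) ^ 2 ∧ T ^ η < q ∧ (q : ℝ) ≤ T ^ (1 / 2 : ℝ) := by
  have hT0 : 0 < T := by linarith
  have hs1 : (1 : ℝ) ≤ T ^ (1 / 2 : ℝ) := Real.one_le_rpow hT (by norm_num)
  set n : ℕ := ⌊T ^ (1 / 2 : ℝ)⌋₊ with hn
  have hn1 : 1 ≤ n := by rw [hn, Nat.one_le_floor_iff]; exact hs1
  have hnu : T ^ (1 / 2 : ℝ) < n + 1 := Nat.lt_floor_add_one _
  have hnl : (n : ℝ) ≤ T ^ (1 / 2 : ℝ) := Nat.floor_le (by linarith)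
  obtain ⟨r, hr1, hr2⟩ := Real.exists_rat_abs_sub_le_and_den_le α hn1
  have hd0 : (0 : ℝ) < r.den := by exact_mod_cast r.den_pos
  have hd1 : 1 ≤ r.den := r.den_pos
  have hcast : (r : ℝ) = (r.num : ℝ) / (r.den : ℝ) := by
    exact_mod_cast (Rat.num_div_den r).symm
  have hdn : (r.den : ℝ) ≤ n := by exact_mod_cast hr2
  refine ⟨r.den, r.num, hd1, ?_, ?_, ?_, hdn.trans hnl⟩
  · rw [Int.isCoprime_iff_gcd_eq_one]
    exact r.reduced
  · rw [← hcast]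
    refine hr1.trans ?_
    apply one_div_le_one_div_of_le (by positivity)
    rw [sq]
    apply mul_le_mul_of_nonneg_right _ hd0.le
    linarith
  · by_contra hcon
    have h1 := h r.den hd1 (not_lt.1 hcon) r.num
    have h2 : |(r.den : ℝ) * α - r.num| ≤ 1 / (n + 1) := by
      have : (r.den : ℝ) * α - r.num = r.den * (α - r) := by
        rw [hcast]; field_simp
      rw [this, abs_mul, abs_of_pos hd0]
      calc (r.den : ℝ) * |α - r| ≤ r.den * (1 / ((n + 1) * r.den)) := by gcongr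
        _ = 1 / (n + 1) := by field_simp
    have h3 : (1 : ℝ) / (n + 1) < T ^ (-(1 / 2) : ℝ) := by
      rw [Real.rpow_neg hT0.le, ← one_div]
      exact one_div_lt_one_div_of_lt (by linarith) hnu
    linarith

/-- powers of the logarithm -/
lemma log_pow (r : ℕ) (ε : ℝ) (hε : 0 < ε) : ∃ C : ℝ, 1 ≤ C ∧ ∀ N : ℕ, 1 ≤ N →
    (1 + Real.log (4 * N)) ^ r ≤ C * (N : ℝ) ^ ε := by
  set u : ℝ := ε / (r + 1) with hu
  have hu0 : 0 < u := by positivity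
  refine ⟨(3 + 1 / u) ^ r, one_le_pow₀ (by have : 0 < 1 / u := by positivity
                                           linarith), fun N hN => ?_⟩
  have hN1 : (1 : ℝ) ≤ N := by exact_mod_cast hN
  have hN0 : (0 : ℝ) < N := by linarith
  have h1 : Real.log N ≤ (N : ℝ) ^ u / u := Real.log_le_rpow_div hN0.le hu0
  have h4 : Real.log 4 ≤ 2 := by
    have : Real.log 4 = 2 * Real.log 2 := by
      rw [show (4 : ℝ) = 2 ^ 2 by norm_num, Real.log_pow]; norm_num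
    rw [this]; linarith [Real.log_two_lt_d9]
  have h5 : (1 : ℝ) ≤ (N : ℝ) ^ u := Real.one_le_rpow hN1 hu0.le
  have h2 : 1 + Real.log (4 * N) ≤ (3 + 1 / u) * (N : ℝ) ^ u := by
    rw [Real.log_mul (by norm_num) hN0.ne']
    have : (3 + 1 / u) * (N : ℝ) ^ u = 3 * (N : ℝ) ^ u + (N : ℝ) ^ u / u := by ring
    rw [this]; linarith
  have h0 : 0 ≤ 1 + Real.log (4 * N) := by
    have := Real.log_nonneg (show (1 : ℝ) ≤ 4 * N by linarith)
    linarith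
  calc (1 + Real.log (4 * N)) ^ r ≤ ((3 + 1 / u) * (N : ℝ) ^ u) ^ r := pow_le_pow_left₀ h0 h2 r
    _ = (3 + 1 / u) ^ r * (N : ℝ) ^ (u * r) := by
        rw [mul_pow, ← Real.rpow_natCast ((N : ℝ) ^ u), ← Real.rpow_mul hN0.le]
    _ ≤ (3 + 1 / u) ^ r * (N : ℝ) ^ ε := by
        apply mul_le_mul_of_nonneg_left _ (by positivity)
        apply Real.rpow_le_rpow_of_exponent_le hN1
        rw [hu, div_mul_eq_mul_div, div_le_iff₀ (by positivity)]
        nlinarith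

/-- one block -/
lemma block {η : ℝ} (hη : 0 < η) : ∃ σ : ℝ, 0 < σ ∧ σ ≤ 1 / 32 ∧ ∃ C : ℝ, 1 ≤ C ∧
    ∀ (N x y : ℕ) (α : ℝ), 1 ≤ N → Irr N η α → (N : ℝ) ^ (3 / 4 : ℝ) ≤ x → x ≤ y → y ≤ 2 * x →
      y ≤ N → ‖∑ n ∈ Ioc x y, ((Λ n : ℝ) : ℂ) * ee ((n : ℝ) * α)‖ ≤ C * (N : ℝ) ^ (1 - σ) := by
  set ρ : ℝ := min η (1 / 8) with hρ
  have hρ0 : 0 < ρ := lt_min hη (by norm_num)
  have hρ1 : ρ ≤ η := min_le_left _ _
  have hρ2 : ρ ≤ 1 / 8 := min_le_right _ _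
  obtain ⟨C0, hC0, hlog⟩ := log_pow 6 (ρ / 4) (by positivity)
  refine ⟨ρ / 4, by positivity, by linarith, 12000 * C0, by linarith, ?_⟩
  intro N x y α hN hI hx hxy hy2 hyN
  have hN1 : (1 : ℝ) ≤ N := by exact_mod_cast hN
  have hN0 : (0 : ℝ) < N := by linarith
  have hpw : ∀ t : ℝ, 0 < (N : ℝ) ^ t := fun t => Real.rpow_pos_of_pos hN0 t
  have hmono : ∀ {s t : ℝ}, s ≤ t → (N : ℝ) ^ s ≤ (N : ℝ) ^ t := fun h =>
    Real.rpow_le_rpow_of_exponent_le hN1 h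
  obtain ⟨q, a, hq1, hcop, hap, hql, hqu⟩ := hI.approx hN1
  have hq0 : (0 : ℝ) < q := by exact_mod_cast hq1
  have hqr1 : (1 : ℝ) ≤ q := by exact_mod_cast hq1
  have hxN : (x : ℝ) ≤ N := by exact_mod_cast hxy.trans hyN
  have hx1r : (1 : ℝ) ≤ x := le_trans (Real.one_le_rpow hN1 (by norm_num)) hx
  have hx1 : 1 ≤ x := by exact_mod_cast hx1r
  have hu1 : (1 : ℝ) ≤ (N : ℝ) ^ (1 / 8 : ℝ) := Real.one_le_rpow hN1 (by norm_num)
  set U : ℕ := ⌊(N : ℝ) ^ (1 / 8 : ℝ)⌋₊ with hU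
  have hU1 : 1 ≤ U := by rw [hU, Nat.one_le_floor_iff]; exact hu1
  have hUr : (1 : ℝ) ≤ U := by exact_mod_cast hU1
  have hUu : (U : ℝ) ≤ (N : ℝ) ^ (1 / 8 : ℝ) := Nat.floor_le (by linarith)
  have hUl : (N : ℝ) ^ (1 / 8 : ℝ) ≤ 2 * U := by
    have := (Nat.lt_floor_add_one ((N : ℝ) ^ (1 / 8 : ℝ))).le
    rw [← hU] at this; linarith
  have hUU : ((U * U : ℕ) : ℝ) ≤ (N : ℝ) ^ (1 / 4 : ℝ) := by
    push_cast
    calc (U : ℝ) * U ≤ (N : ℝ) ^ (1 / 8 : ℝ) * (N : ℝ) ^ (1 / 8 : ℝ) := by gcongr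
      _ = (N : ℝ) ^ (1 / 4 : ℝ) := by rw [← Real.rpow_add hN0]; norm_num
  have hUx : U * U ≤ x := by
    have : ((U * U : ℕ) : ℝ) ≤ x := hUU.trans ((hmono (by norm_num)).trans hx)
    exact_mod_cast this
  have key := Pool.Agent.H373R2.T7.block_lin hq1 hcop hap x y U hx1 hxy hy2 hU1 hUx
  refine key.trans ?_
  set L : ℝ := 1 + Real.log (4 * N) with hL
  have hlog4 : (1 : ℝ) ≤ Real.log 4 := by
    rw [Real.le_log_iff_exp_le (by norm_num)]
    exact Real.exp_one_lt_d9.le.trans (by norm_num)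
  have hlogN : 0 ≤ Real.log N := Real.log_nonneg hN1
  have hLe : L = 1 + (Real.log 4 + Real.log N) := by
    rw [hL, Real.log_mul (by norm_num) hN0.ne']
  have hL1 : 1 ≤ L := by rw [hLe]; linarith
  have hL2 : 2 ≤ L := by rw [hLe]; linarith
  have hLx : 1 + Real.log (4 * x) ≤ L := by
    rw [hL]
    have : Real.log (4 * x) ≤ Real.log (4 * N) := Real.log_le_log (by linarith) (by linarith)
    linarith
  have hLx0 : 0 ≤ 1 + Real.log (4 * x) := by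
    have := Real.log_nonneg (show (1 : ℝ) ≤ 4 * x by linarith)
    linarith
  have hqN : (q : ℝ) ≤ N := hqu.trans (by
    calc (N : ℝ) ^ (1 / 2 : ℝ) ≤ (N : ℝ) ^ (1 : ℝ) := hmono (by norm_num)
      _ = N := Real.rpow_one _)
  have hLq : 1 + Real.log q ≤ L := by
    rw [hL]
    have : Real.log q ≤ Real.log (4 * N) := Real.log_le_log hq0 (by linarith)
    linarith
  have hLq0 : 0 ≤ 1 + Real.log q := by
    have := Real.log_nonneg hqr1
    linarith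
  have hlog2 : (Nat.log 2 (U * U) + 1 : ℝ) ≤ 2 * L := by
    have h1 : (Nat.log 2 (U * U) : ℝ) ≤ Real.log (U * U : ℕ) / Real.log 2 := by
      have := Real.natLog_le_logb (U * U) 2
      simpa [Real.logb] using this
    have h2 : Real.log ((U * U : ℕ) : ℝ) ≤ Real.log N := by
      apply Real.log_le_log
      · push_cast; positivity
      · refine hUU.trans ?_
        calc (N : ℝ) ^ (1 / 4 : ℝ) ≤ (N : ℝ) ^ (1 : ℝ) := hmono (by norm_num)
          _ = N := Real.rpow_one _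
    have h3 : Real.log ((U * U : ℕ) : ℝ) / Real.log 2 ≤ 2 * Real.log N := by
      rw [div_le_iff₀ (Real.log_pos (by norm_num))]
      have := Real.log_two_gt_d9
      nlinarith
    rw [hLe]; linarith
  -- the three terms
  have t1 : (x : ℝ) / q ≤ (N : ℝ) ^ (1 - ρ) := by
    rw [div_le_iff₀ hq0]
    calc (x : ℝ) ≤ N := hxN
      _ = (N : ℝ) ^ (1 - ρ) * (N : ℝ) ^ ρ := by rw [← Real.rpow_add hN0]; simp
      _ ≤ (N : ℝ) ^ (1 - ρ) * q := by
          apply mul_le_mul_of_nonneg_left _ (hpw _).le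
          exact (hmono hρ1).trans hql.le
  have t2 : (x : ℝ) / U ≤ 2 * (N : ℝ) ^ (1 - ρ) := by
    rw [div_le_iff₀ (by linarith)]
    calc (x : ℝ) ≤ N := hxN
      _ = (N : ℝ) ^ (1 - ρ) * (N : ℝ) ^ ρ := by rw [← Real.rpow_add hN0]; simp
      _ ≤ (N : ℝ) ^ (1 - ρ) * (2 * U) := by
          apply mul_le_mul_of_nonneg_left _ (hpw _).le
          exact (hmono hρ2).trans hUl
      _ = _ := by ring
  have t3 : (q : ℝ) ≤ (N : ℝ) ^ (1 - ρ) := hqu.trans (hmono (by linarith))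
  have t4 : ((U * U : ℕ) : ℝ) ≤ (N : ℝ) ^ (1 - ρ) := hUU.trans (hmono (by linarith))
  have hsq : Real.sqrt (672 * (1 + Real.log q) * (x * ((x : ℝ) / q + x / U + q))) ≤
      52 * L * (N : ℝ) ^ (1 - ρ / 2) := by
    rw [Real.sqrt_le_left (by have := hpw (1 - ρ / 2); positivity)]
    have e1 : (52 * L * (N : ℝ) ^ (1 - ρ / 2)) ^ 2 = 2704 * L ^ 2 * (N * (N : ℝ) ^ (1 - ρ)) := by
      have : ((N : ℝ) ^ (1 - ρ / 2)) ^ 2 = N * (N : ℝ) ^ (1 - ρ) := by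
        rw [← Real.rpow_natCast, ← Real.rpow_mul hN0.le]
        conv_rhs => rw [← Real.rpow_one (N : ℝ), ← Real.rpow_mul hN0.le, ← Real.rpow_add hN0]
        congr 1; push_cast; ring
      rw [mul_pow, this]; ring
    rw [e1]
    have h1 : (x : ℝ) / q + x / U + q ≤ 4 * (N : ℝ) ^ (1 - ρ) := by linarith
    have h2 : 0 ≤ (x : ℝ) / q + x / U + q := by positivity
    calc 672 * (1 + Real.log q) * (x * ((x : ℝ) / q + x / U + q))
        ≤ 672 * L * (N * (4 * (N : ℝ) ^ (1 - ρ))) := by gcongr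
      _ = 2688 * L * (N * (N : ℝ) ^ (1 - ρ)) := by ring
      _ ≤ 2704 * L ^ 2 * (N * (N : ℝ) ^ (1 - ρ)) := by
          apply mul_le_mul_of_nonneg_right _ (by have := hpw (1 - ρ); positivity)
          nlinarith
  have hP := hpw (1 - ρ)
  have hP2 := hpw (1 - ρ / 2)
  have hPP : (N : ℝ) ^ (1 - ρ) ≤ (N : ℝ) ^ (1 - ρ / 2) := hmono (by linarith)
  have hA : 8 * (1 + Real.log (4 * x)) ^ 5 *
      Real.sqrt (672 * (1 + Real.log q) * (x * ((x : ℝ) / q + x / U + q))) ≤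
      416 * L ^ 6 * (N : ℝ) ^ (1 - ρ / 2) := by
    calc 8 * (1 + Real.log (4 * x)) ^ 5 *
      Real.sqrt (672 * (1 + Real.log q) * (x * ((x : ℝ) / q + x / U + q))) ≤
        8 * L ^ 5 * (52 * L * (N : ℝ) ^ (1 - ρ / 2)) := by gcongr
      _ = _ := by ring
  have hB : 3 * (1 + Real.log (4 * x)) * (600 * (Nat.log 2 (U * U) + 1 : ℝ) *
      ((x : ℝ) / q + (U * U : ℕ) + q) * (1 + Real.log q)) ≤ 10800 * L ^ 6 * (N : ℝ) ^ (1 - ρ / 2) := by
    have h1 : (x : ℝ) / q + (U * U : ℕ) + q ≤ 3 * (N : ℝ) ^ (1 - ρ) := by linarith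
    have h2 : 0 ≤ (x : ℝ) / q + (U * U : ℕ) + q := by positivity
    calc 3 * (1 + Real.log (4 * x)) * (600 * (Nat.log 2 (U * U) + 1 : ℝ) *
      ((x : ℝ) / q + (U * U : ℕ) + q) * (1 + Real.log q)) ≤
        3 * L * (600 * (2 * L) * (3 * (N : ℝ) ^ (1 - ρ)) * L) := by gcongr
      _ = 10800 * L ^ 3 * (N : ℝ) ^ (1 - ρ) := by ring
      _ ≤ 10800 * L ^ 6 * (N : ℝ) ^ (1 - ρ / 2) := by
          have h3 : L ^ 3 ≤ L ^ 6 := pow_le_pow_right₀ hL1 (by norm_num)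
          gcongr
  have hlg := hlog N hN
  rw [← hL] at hlg
  calc _ ≤ 416 * L ^ 6 * (N : ℝ) ^ (1 - ρ / 2) + 10800 * L ^ 6 * (N : ℝ) ^ (1 - ρ / 2) :=
        add_le_add hA hB
    _ ≤ 12000 * (L ^ 6 * (N : ℝ) ^ (1 - ρ / 2)) := by
        have : 0 ≤ L ^ 6 * (N : ℝ) ^ (1 - ρ / 2) := by positivity
        nlinarith
    _ ≤ 12000 * (C0 * (N : ℝ) ^ (ρ / 4) * (N : ℝ) ^ (1 - ρ / 2)) := by gcongr
    _ = 12000 * C0 * (N : ℝ) ^ (1 - ρ / 4) := by
        rw [mul_assoc C0, ← Real.rpow_add hN0]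
        ring_nf

end Pool.Agent.T6.H35.EQ
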