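import Pool.Agent.T6.H35.EQ.MF1
import Pool.Agent.T6.H35.EQ.Prime

/-!
# The bilinear sum with a prime variable
-/

set_option autoImplicit false

namespace Pool.Agent.T6.H35.EQ

open Finset
open Pool.Agent.H469R2.NK (e norm_e e_add e_zero conj_e)
open Pool.Agent.H807R2.Dav (ee norm_ee)
open Pool.Agent.Erdos456.Mert (PP mertens_log sum_small_bound theta_le)
open Pool.Agent.H373R2.T7 (typeII_lin)

/-- the coefficients of the prime variable -/
noncomputable def ca (f : ℕ → ℂ) (p : ℕ) : ℂ := if p.Prime then ((Real.log p : ℝ) : ℂ) * f p else 0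

/-- the phase in the hyperbolic region -/
noncomputable def hp (N : ℕ) (α : ℝ) (m l : ℕ) : ℂ :=
  if 0 < m * l ∧ m * l ≤ N then ee (((m * l : ℕ) : ℝ) * α) else 0

lemma norm_ca {f : ℕ → ℂ} (hf : Mul1 f) (p : ℕ) : ‖ca f p‖ ≤ Real.log p := by
  unfold ca
  split_ifs with h
  · have hl : 0 ≤ Real.log p := Real.log_nonneg (by exact_mod_cast h.one_lt.le)
    rw [norm_mul, Complex.norm_real, Real.norm_of_nonneg hl]
    have := hf.2 p
    nlinarith
  · rw [norm_zero]
    exact Real.log_natCast_nonneg p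

lemma norm_hp (N : ℕ) (α : ℝ) (m l : ℕ) : ‖hp N α m l‖ ≤ 1 := by
  unfold hp
  split_ifs
  · rw [norm_ee]
  · simp

lemma bsum_eq (N X : ℕ) (hX : N ≤ X) (f : ℕ → ℂ) (α : ℝ) : bsum N f α =
    ∑ p ∈ Icc 1 X, ∑ l ∈ Icc 1 X, ca f p * f l * hp N α p l := by
  rw [bsum]
  have h1 : ∀ p ∈ PP N, ∑ l ∈ Icc 1 (N / p), ((Real.log p : ℝ) : ℂ) * f p * f l * e ((p * l : ℕ) * α) =
      ∑ l ∈ Icc 1 X, ca f p * f l * hp N α p l := by
    intro p hp'
    have hpp := (mem_filter.1 hp').2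
    have hsub : Icc 1 (N / p) ⊆ Icc 1 X := Icc_subset_Icc_right ((Nat.div_le_self _ _).trans hX)
    rw [← sum_subset hsub]
    · refine sum_congr rfl fun l hl => ?_
      rw [mem_Icc] at hl
      have h2 : p * l ≤ N := by rw [mul_comm]; exact (Nat.le_div_iff_mul_le hpp.pos).1 hl.2
      have h3 : 0 < p * l := Nat.mul_pos hpp.pos hl.1
      rw [ca, if_pos hpp, hp, if_pos ⟨h3, h2⟩, ee_eq_e]
    · intro l hl hl'
      rw [mem_Icc] at hl hl'
      have h2 : ¬ p * l ≤ N := fun h => hl' ⟨hl.1, by rw [Nat.le_div_iff_mul_le hpp.pos, mul_comm]; exact h⟩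
      rw [hp, if_neg (fun h => h2 h.2), mul_zero]
  rw [sum_congr rfl h1]
  have hsub : PP N ⊆ Icc 1 X := by
    intro p hp'
    rw [mem_filter, mem_Icc] at hp'
    rw [mem_Icc]
    omega
  apply sum_subset hsub
  intro p hp1 hp2
  rw [mem_Icc] at hp1
  apply sum_eq_zero
  intro l hl
  rw [mem_Icc] at hl
  by_cases hpp : p.Prime
  · have h2 : ¬ p ≤ N := fun h => hp2 (by rw [mem_filter, mem_Icc]; exact ⟨⟨hp1.1, h⟩, hpp⟩)
    have h3 : ¬ p * l ≤ N := fun h => h2 (le_trans (Nat.le_mul_of_pos_right p hl.1) h)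
    rw [hp, if_neg (fun h => h3 h.2), mul_zero]
  · rw [ca, if_neg hpp]; ring

lemma dyad {A : Type} [AddCommMonoid A] (g : ℕ → A) (a b : ℕ) (h : a ≤ b) :
    ∑ x ∈ Ioc (2 ^ a) (2 ^ b), g x = ∑ i ∈ Ico a b, ∑ x ∈ Ioc (2 ^ i) (2 * 2 ^ i), g x := by
  induction b, h using Nat.le_induction with
  | base => simp
  | succ b hb ih =>
    rw [sum_Ico_succ_top hb, ← ih, ← sum_Ioc_consecutive g (Nat.pow_le_pow_right (by norm_num) hb)
      (Nat.pow_le_pow_right (by norm_num) (Nat.le_succ b)), pow_succ, mul_comm (2 ^ b) 2]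

/-- one block -/
lemma block2 {q : ℕ} (hq : 1 ≤ q) {c : ℤ} (hcop : IsCoprime c (q : ℤ)) {α : ℝ}
    (hα : |α - c / q| ≤ 1 / (q : ℝ) ^ 2) {N K M L : ℕ} {f : ℕ → ℂ} (hf : Mul1 f) (hN : 1 ≤ N)
    (hK : 1 ≤ K) (hKM : K ≤ M) (hKL : K ≤ L) (hKq : (K : ℝ) ≤ q) (hKN : (q : ℝ) * K ≤ N) :
    ‖∑ m ∈ Ioc M (2 * M), ∑ l ∈ Ioc L (2 * L), ca f m * f l * hp N α m l‖ ≤
      10 * (1 + Real.log N) ^ 2 * (N / √K) := by
  have hN1 : (1 : ℝ) ≤ N := by exact_mod_cast hN
  have hN0 : (0 : ℝ) < N := by linarith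
  set lam : ℝ := 1 + Real.log N with hlam
  have hlam1 : 1 ≤ lam := by have := Real.log_nonneg hN1; linarith
  have hK1 : (1 : ℝ) ≤ K := by exact_mod_cast hK
  have hK0 : (0 : ℝ) < K := by linarith
  have hq1 : (1 : ℝ) ≤ q := by exact_mod_cast hq
  have hrhs : 0 ≤ 10 * lam ^ 2 * (N / √K) := by positivity
  rcases Nat.lt_or_ge (M * L) N with hML | hML
  · have hM1 : (1 : ℝ) ≤ M := by exact_mod_cast hK.trans hKM
    have hL1 : (1 : ℝ) ≤ L := by exact_mod_cast hK.trans hKL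
    have hMLr : (M : ℝ) * L ≤ N := by exact_mod_cast hML.le
    have hKMr : (K : ℝ) ≤ M := by exact_mod_cast hKM
    have hKLr : (K : ℝ) ≤ L := by exact_mod_cast hKL
    have hMK : (M : ℝ) ≤ N / K := by
      rw [le_div_iff₀ hK0]; nlinarith
    have hLK : (L : ℝ) ≤ N / K := by
      rw [le_div_iff₀ hK0]; nlinarith
    have hqK : (q : ℝ) ≤ N / K := by
      rw [le_div_iff₀ hK0]; exact hKN
    have h1 := typeII_lin hq hcop hα 0 N M L (ca f) f
    have e1 : ∑ m ∈ Ioc M (2 * M), ∑ l ∈ Ioc L (2 * L), ca f m * f l *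
      (if 0 < m * l ∧ m * l ≤ N then ee (((m * l : ℕ) : ℝ) * α) else 0) =
        ∑ m ∈ Ioc M (2 * M), ∑ l ∈ Ioc L (2 * L), ca f m * f l * hp N α m l := rfl
    rw [e1] at h1
    set Z := ‖∑ m ∈ Ioc M (2 * M), ∑ l ∈ Ioc L (2 * L), ca f m * f l * hp N α m l‖ with hZ
    have h2 : ∑ m ∈ Ioc M (2 * M), ‖ca f m‖ ^ 2 ≤ M * lam ^ 2 := by
      have h3 : ∀ m ∈ Ioc M (2 * M), ‖ca f m‖ ^ 2 ≤ lam ^ 2 := by
        intro m hm
        rw [mem_Ioc] at hm
        apply pow_le_pow_left₀ (norm_nonneg _)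
        refine (norm_ca hf m).trans ?_
        have hmr : (m : ℝ) ≤ 2 * N := by
          have : (m : ℝ) ≤ 2 * M := by exact_mod_cast hm.2
          nlinarith
        have hm0 : (0 : ℝ) < m := by exact_mod_cast (by omega : 0 < m)
        have h4 : Real.log m ≤ Real.log (2 * N) := Real.log_le_log hm0 hmr
        rw [Real.log_mul (by norm_num) hN0.ne'] at h4
        have := Real.log_two_lt_d9
        linarith
      refine (sum_le_sum h3).trans ?_
      rw [sum_const, Nat.card_Ioc, nsmul_eq_mul]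
      apply mul_le_mul_of_nonneg_right _ (by positivity)
      have : 2 * M - M = M := by omega
      rw [this]
    have h3 : ∑ l ∈ Ioc L (2 * L), ‖f l‖ ^ 2 ≤ L := by
      have h4 : ∀ l ∈ Ioc L (2 * L), ‖f l‖ ^ 2 ≤ 1 := fun l _ => pow_le_one₀ (norm_nonneg _) (hf.2 l)
      refine (sum_le_sum h4).trans ?_
      rw [sum_const, Nat.card_Ioc, nsmul_eq_mul, mul_one]
      have : 2 * L - L = L := by omega
      rw [this]
    have hlq : 1 + Real.log q ≤ lam := by
      have : Real.log q ≤ Real.log N := Real.log_le_log (by linarith) (by nlinarith)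
      linarith
    have hlq0 : 0 ≤ Real.log q := Real.log_nonneg hq1
    have h5 : ((L : ℝ) / q + 1) * (39 * M + 3 * q * (1 + Real.log q)) ≤
        ((L : ℝ) / q + 1) * (39 * M + 3 * q * lam) := by
      gcongr
    have h6 : Z ^ 2 ≤ (M * lam ^ 2) * (L * (((L : ℝ) / q + 1) * (39 * M + 3 * q * lam))) := by
      refine h1.trans ?_
      have : 0 ≤ ∑ l ∈ Ioc L (2 * L), ‖f l‖ ^ 2 := sum_nonneg fun _ _ => by positivity
      gcongr
    have h7 : (M * lam ^ 2) * (L * (((L : ℝ) / q + 1) * (39 * M + 3 * q * lam))) ≤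
        (10 * lam ^ 2 * (N / √K)) ^ 2 := by
      have e2 : (M * lam ^ 2) * (L * (((L : ℝ) / q + 1) * (39 * M + 3 * q * lam))) =
          lam ^ 2 * ((M * L) * (39 * ((M * L) / q) + 3 * L * lam + 39 * M + 3 * q * lam)) := by
        field_simp
        ring
      have h8 : (M * L : ℝ) / q ≤ N / K := div_le_div₀ hN0.le hMLr hK0 hKq
      have h9 : 39 * ((M * L : ℝ) / q) + 3 * L * lam + 39 * M + 3 * q * lam ≤ 100 * lam * (N / K) := by
        have hNK : 0 ≤ (N : ℝ) / K := by positivity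
        nlinarith [mul_le_mul_of_nonneg_right hLK (by linarith : 0 ≤ lam), mul_le_mul_of_nonneg_right hqK (by linarith : 0 ≤ lam),
          mul_le_mul_of_nonneg_right hlam1 hNK]
      have e3 : (10 * lam ^ 2 * (N / √K)) ^ 2 = lam ^ 2 * (N * (100 * lam ^ 2 * (N / K))) := by
        rw [mul_pow, mul_pow, div_pow, Real.sq_sqrt hK0.le]; ring
      rw [e2, e3]
      apply mul_le_mul_of_nonneg_left _ (by positivity)
      have hpos : 0 ≤ 39 * ((M * L : ℝ) / q) + 3 * L * lam + 39 * M + 3 * q * lam := by positivity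
      have h10 : 100 * lam * (N / K) ≤ 100 * lam ^ 2 * ((N : ℝ) / K) := by
        have hNK : 0 ≤ (N : ℝ) / K := by positivity
        have : lam ≤ lam ^ 2 := by nlinarith
        gcongr
      exact mul_le_mul hMLr (h9.trans h10) hpos hN0.le
    exact (abs_le_of_sq_le_sq' (h6.trans h7) hrhs).2
  · have : ∑ m ∈ Ioc M (2 * M), ∑ l ∈ Ioc L (2 * L), ca f m * f l * hp N α m l = 0 := by
      apply sum_eq_zero
      intro m hm
      apply sum_eq_zero
      intro l hl
      rw [mem_Ioc] at hm hl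
      have h2 : ¬ m * l ≤ N := by
        have : M * L < m * l := Nat.mul_lt_mul_of_lt_of_lt hm.1 hl.1
        omega
      rw [hp, if_neg (fun h => h2 h.2), mul_zero]
    rw [this, norm_zero]
    exact hrhs

end Pool.Agent.T6.H35.EQ
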