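import Pool.Agent.T6.H35.EQ.MF2
import Pool.Agent.T6.H35.EQ.Low

/-!
# Sums of multiplicative functions twisted by a linear phase, at one scale
-/

set_option autoImplicit false

namespace Pool.Agent.T6.H35.EQ

open Finset
open Pool.Agent.H469R2.NK (e norm_e e_add e_zero conj_e)
open Pool.Agent.H807R2.Dav (ee norm_ee)
open Pool.Agent.Erdos456.Mert (PP mertens_log sum_small_bound theta_le)

lemma norm_term {N : ℕ} {f : ℕ → ℂ} (hf : Mul1 f) (α : ℝ) (p l : ℕ) :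
    ‖ca f p * f l * hp N α p l‖ ≤ (if p.Prime then Real.log p else 0) * (if p * l ≤ N then 1 else 0) := by
  unfold ca hp
  by_cases h1 : p.Prime
  · have hl : 0 ≤ Real.log p := Real.log_nonneg (by exact_mod_cast h1.one_lt.le)
    rw [if_pos h1, if_pos h1]
    by_cases h2 : p * l ≤ N
    · rw [if_pos h2, mul_one, norm_mul, norm_mul, norm_mul, Complex.norm_real, Real.norm_of_nonneg hl]
      have h3 := hf.2 p
      have h4 := hf.2 l
      have h5 := norm_nonneg (f p)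
      have h6 := norm_nonneg (f l)
      have h7 : ‖(if 0 < p * l ∧ p * l ≤ N then ee (((p * l : ℕ) : ℝ) * α) else 0 : ℂ)‖ ≤ 1 := by
        split_ifs
        · rw [norm_ee]
        · simp
      calc Real.log p * ‖f p‖ * ‖f l‖ * ‖(if 0 < p * l ∧ p * l ≤ N then ee (((p * l : ℕ) : ℝ) * α) else 0 : ℂ)‖ ≤
          Real.log p * 1 * 1 * 1 := by gcongr
        _ = _ := by ring
    · rw [if_neg h2, if_neg (fun h => h2 h.2)]
      simp
  · rw [if_neg h1, if_neg h1]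
    simp

lemma split_sum {A : Type} [AddCommMonoid A] (g : ℕ → A) {K X : ℕ} (h : K ≤ X) :
    ∑ x ∈ Icc 1 X, g x = ∑ x ∈ Icc 1 K, g x + ∑ x ∈ Ioc K X, g x := by
  have h1 := sum_Ioc_consecutive g (Nat.zero_le K) h
  exact h1.symm

theorem bsum_bound : ∃ C : ℝ, 0 ≤ C ∧ ∀ (N i0 q : ℕ) (c : ℤ) (α : ℝ) (f : ℕ → ℂ), 1 ≤ N → Mul1 f →
    1 ≤ q → IsCoprime c (q : ℤ) → |α - c / q| ≤ 1 / (q : ℝ) ^ 2 → ((2 ^ i0 : ℕ) : ℝ) ≤ q →
    (q : ℝ) * ((2 ^ i0 : ℕ) : ℝ) ≤ N → 1600 * (1 + Real.log N) ^ 8 ≤ ((2 ^ i0 : ℕ) : ℝ) →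
    ‖bsum N f α‖ ≤ N * (3 * Real.log ((2 ^ i0 : ℕ) : ℝ) + C) := by
  obtain ⟨C1, h1⟩ := mertens_log
  have hC1 : 0 ≤ C1 := (abs_nonneg _).trans (h1 1 le_rfl)
  refine ⟨C1 + 3, by linarith, ?_⟩
  intro N i0 q c α f hN hf hq hcop hα hKq hKN hKbig
  have hN1 : (1 : ℝ) ≤ N := by exact_mod_cast hN
  have hN0 : (0 : ℝ) < N := by linarith
  set lam : ℝ := 1 + Real.log N with hlam
  have hlogN := Real.log_nonneg hN1
  have hlam1 : 1 ≤ lam := by linarith
  set K : ℕ := 2 ^ i0 with hK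
  have hK1 : 1 ≤ K := Nat.one_le_two_pow
  have hK1r : (1 : ℝ) ≤ K := by exact_mod_cast hK1
  have hK0 : (0 : ℝ) < K := by linarith
  have hq1 : (1 : ℝ) ≤ q := by exact_mod_cast hq
  obtain ⟨J, hJ⟩ : ∃ J, J = Nat.log 2 N + 1 := ⟨_, rfl⟩
  have hXN : N < 2 ^ J := by rw [hJ]; exact Nat.lt_pow_succ_log_self (by norm_num) N
  have hKN' : K ≤ N := by
    have : (K : ℝ) ≤ N := by nlinarith
    exact_mod_cast this
  have hiJ : i0 ≤ J := (Nat.pow_le_pow_iff_right (by norm_num : 1 < 2)).1 (hKN'.trans hXN.le)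
  set X : ℕ := 2 ^ J with hX
  have hKX : K ≤ X := hKN'.trans hXN.le
  have hlogK : 0 ≤ Real.log K := Real.log_nonneg hK1r
  set G : ℕ → ℕ → ℂ := fun p l => ca f p * f l * hp N α p l with hG
  have e0 : bsum N f α = ∑ p ∈ Icc 1 K, ∑ l ∈ Icc 1 X, G p l + (∑ p ∈ Ioc K X, ∑ l ∈ Icc 1 K, G p l +
      ∑ p ∈ Ioc K X, ∑ l ∈ Ioc K X, G p l) := by
    rw [bsum_eq N X hXN.le f α, split_sum (fun p => ∑ l ∈ Icc 1 X, ca f p * f l * hp N α p l) hKX,
      ← sum_add_distrib]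
    congr 1
    refine sum_congr rfl fun p _ => ?_
    exact split_sum (fun l => ca f p * f l * hp N α p l) hKX
  -- small primes
  have b1 : ‖∑ p ∈ Icc 1 K, ∑ l ∈ Icc 1 X, G p l‖ ≤ N * (Real.log K + C1) := by
    have h2 : ‖∑ p ∈ Icc 1 K, ∑ l ∈ Icc 1 X, G p l‖ ≤ ∑ p ∈ Icc 1 K, (if p.Prime then Real.log p * (N / p) else 0) := by
      refine (norm_sum_le _ _).trans (sum_le_sum fun p hp => ?_)
      rw [mem_Icc] at hp
      have hp0 : (0 : ℝ) < p := by exact_mod_cast hp.1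
      refine (norm_sum_le _ _).trans ((sum_le_sum fun l _ => norm_term hf α p l).trans ?_)
      rw [← mul_sum]
      split_ifs with hpp
      · apply mul_le_mul_of_nonneg_left _ (Real.log_nonneg (by exact_mod_cast hp.1))
        rw [← sum_filter, sum_const, nsmul_eq_mul, mul_one]
        have h3 : ((Icc 1 X).filter (fun l => p * l ≤ N)).card ≤ N / p := by
          have h4 : (Icc 1 X).filter (fun l => p * l ≤ N) ⊆ Icc 1 (N / p) := by
            intro l hl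
            rw [mem_filter, mem_Icc] at hl
            rw [mem_Icc]
            exact ⟨hl.1.1, by rw [Nat.le_div_iff_mul_le hp.1, mul_comm]; exact hl.2⟩
          have := card_le_card h4
          rwa [Nat.card_Icc, Nat.add_sub_cancel] at this
        have h5 : ((N / p : ℕ) : ℝ) ≤ N / p := Nat.cast_div_le
        exact le_trans (by exact_mod_cast h3) h5
      · simp
    refine h2.trans ?_
    rw [← sum_filter]
    have h3 : ∑ p ∈ (Icc 1 K).filter Nat.Prime, Real.log p * ((N : ℝ) / p) =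
        N * ∑ p ∈ (Icc 1 K).filter Nat.Prime, Real.log p / p := by
      rw [mul_sum]
      refine sum_congr rfl fun p _ => ?_
      ring
    rw [h3]
    apply mul_le_mul_of_nonneg_left _ hN0.le
    have := (abs_le.1 (h1 K hK1)).2
    linarith
  -- small cofactors
  have b2 : ‖∑ p ∈ Ioc K X, ∑ l ∈ Icc 1 K, G p l‖ ≤ N * (2 * (1 + Real.log K)) := by
    rw [sum_comm]
    have h2 : ∀ l ∈ Icc 1 K, ‖∑ p ∈ Ioc K X, G p l‖ ≤ 2 * N * (1 / (l : ℝ)) := by
      intro l hl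
      rw [mem_Icc] at hl
      have hl0 : (0 : ℝ) < l := by exact_mod_cast hl.1
      refine (norm_sum_le _ _).trans ((sum_le_sum fun p _ => norm_term hf α p l).trans ?_)
      have h3 : ∑ p ∈ Ioc K X, (if p.Prime then Real.log p else 0) * (if p * l ≤ N then 1 else 0) ≤
          ∑ p ∈ PP (N / l), Real.log p := by
        have h4 : ∀ p ∈ Ioc K X, (if p.Prime then Real.log p else 0) * (if p * l ≤ N then 1 else 0) =
            if (p.Prime ∧ p * l ≤ N) then Real.log p else 0 := by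
          intro p _
          by_cases a1 : p.Prime <;> by_cases a2 : p * l ≤ N <;> simp [a1, a2]
        rw [sum_congr rfl h4, ← sum_filter]
        apply sum_le_sum_of_subset_of_nonneg
        · intro p hp
          rw [mem_filter, mem_Ioc] at hp
          rw [mem_filter, mem_Icc]
          exact ⟨⟨by omega, (Nat.le_div_iff_mul_le hl.1).2 hp.2.2⟩, hp.2.1⟩
        · intro p hp _
          exact Real.log_nonneg (by exact_mod_cast (mem_Icc.1 (mem_filter.1 hp).1).1)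
      refine h3.trans ((theta_le _).trans ?_)
      have h5 : ((N / l : ℕ) : ℝ) ≤ N / l := Nat.cast_div_le
      calc 2 * ((N / l : ℕ) : ℝ) ≤ 2 * (N / l) := by gcongr
        _ = _ := by ring
    refine (norm_sum_le _ _).trans ((sum_le_sum h2).trans ?_)
    rw [← mul_sum]
    have h6 : ∑ l ∈ Icc 1 K, 1 / (l : ℝ) ≤ 1 + Real.log K := by
      have := harmonic_le_one_add_log K
      rw [harmonic_eq_sum_Icc] at this
      push_cast at this
      simpa using this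
    calc 2 * (N : ℝ) * ∑ l ∈ Icc 1 K, 1 / (l : ℝ) ≤ 2 * N * (1 + Real.log K) := by gcongr
      _ = _ := by ring
  -- the blocks
  have b3 : ‖∑ p ∈ Ioc K X, ∑ l ∈ Ioc K X, G p l‖ ≤ N * 1 := by
    have e1 : ∑ p ∈ Ioc K X, ∑ l ∈ Ioc K X, G p l = ∑ i ∈ Ico i0 J, ∑ k ∈ Ico i0 J,
        ∑ p ∈ Ioc (2 ^ i) (2 * 2 ^ i), ∑ l ∈ Ioc (2 ^ k) (2 * 2 ^ k), G p l := by
      rw [hK, hX, dyad _ i0 J hiJ]
      refine sum_congr rfl fun i _ => ?_
      rw [sum_comm' (s := Ico i0 J) (t := fun _ => Ioc (2 ^ i) (2 * 2 ^ i)) (t' := Ioc (2 ^ i) (2 * 2 ^ i)) (s' := fun _ => Ico i0 J) (by simp)]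
      refine sum_congr rfl fun p _ => ?_
      exact dyad _ i0 J hiJ
    rw [e1]
    have h2 : ∀ i ∈ Ico i0 J, ∀ k ∈ Ico i0 J, ‖∑ p ∈ Ioc (2 ^ i) (2 * 2 ^ i), ∑ l ∈ Ioc (2 ^ k) (2 * 2 ^ k), G p l‖ ≤
        10 * lam ^ 2 * (N / √K) := by
      intro i hi k hk
      rw [mem_Ico] at hi hk
      exact block2 hq hcop hα hf hN hK1 (Nat.pow_le_pow_right (by norm_num) hi.1)
        (Nat.pow_le_pow_right (by norm_num) hk.1) hKq hKN
    have hpos : 0 ≤ 10 * lam ^ 2 * (N / √(K : ℝ)) := by positivity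
    have h3 : ‖∑ i ∈ Ico i0 J, ∑ k ∈ Ico i0 J,
        ∑ p ∈ Ioc (2 ^ i) (2 * 2 ^ i), ∑ l ∈ Ioc (2 ^ k) (2 * 2 ^ k), G p l‖ ≤
        J * (J * (10 * lam ^ 2 * (N / √(K : ℝ)))) := by
      refine (norm_sum_le _ _).trans ?_
      have h4 : ∀ i ∈ Ico i0 J, ‖∑ k ∈ Ico i0 J,
        ∑ p ∈ Ioc (2 ^ i) (2 * 2 ^ i), ∑ l ∈ Ioc (2 ^ k) (2 * 2 ^ k), G p l‖ ≤ J * (10 * lam ^ 2 * (N / √(K : ℝ))) := by
        intro i hi
        refine (norm_sum_le _ _).trans ((sum_le_sum fun k hk => h2 i hi k hk).trans ?_)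
        rw [sum_const, Nat.card_Ico, nsmul_eq_mul]
        apply mul_le_mul_of_nonneg_right _ hpos
        exact_mod_cast Nat.sub_le J i0
      refine (sum_le_sum h4).trans ?_
      rw [sum_const, Nat.card_Ico, nsmul_eq_mul]
      apply mul_le_mul_of_nonneg_right _ (by positivity)
      exact_mod_cast Nat.sub_le J i0
    have hJl : (J : ℝ) ≤ 2 * lam := by
      have h4 : (2 : ℝ) ^ (Nat.log 2 N) ≤ N := by exact_mod_cast Nat.pow_log_le_self 2 (by omega)
      have h5 : Real.log ((2 : ℝ) ^ (Nat.log 2 N)) ≤ Real.log N := Real.log_le_log (by positivity) h4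
      rw [Real.log_pow] at h5
      have h6 := Real.log_two_gt_d9
      have h7 : (0 : ℝ) ≤ Nat.log 2 N := Nat.cast_nonneg _
      rw [hJ]
      push_cast
      nlinarith
    have hsK : 40 * lam ^ 4 ≤ √(K : ℝ) := by
      apply Real.le_sqrt_of_sq_le
      calc (40 * lam ^ 4) ^ 2 = 1600 * lam ^ 8 := by ring
        _ ≤ _ := hKbig
    have hs0 : 0 < √(K : ℝ) := Real.sqrt_pos.2 hK0
    refine h3.trans ?_
    calc (J : ℝ) * (J * (10 * lam ^ 2 * (N / √(K : ℝ)))) ≤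
        (2 * lam) * ((2 * lam) * (10 * lam ^ 2 * (N / √(K : ℝ)))) := by gcongr
      _ = N * (40 * lam ^ 4 / √(K : ℝ)) := by ring
      _ ≤ N * 1 := by
        apply mul_le_mul_of_nonneg_left _ hN0.le
        rw [div_le_one hs0]
        exact hsK
  rw [e0]
  refine (norm_add_le _ _).trans ?_
  have h2 := norm_add_le (∑ p ∈ Ioc K X, ∑ l ∈ Icc 1 K, G p l) (∑ p ∈ Ioc K X, ∑ l ∈ Ioc K X, G p l)
  calc _ ≤ N * (Real.log K + C1) + (N * (2 * (1 + Real.log K)) + N * 1) := by linarith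
    _ = _ := by ring

end Pool.Agent.T6.H35.EQ
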