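import Pool.Agent.T6.H35.EQ.MF3
import Pool.Agent.T6.H35.EQ.Poly

/-!
# Multiplicative functions at one scale: the estimate, and level sets
-/

set_option autoImplicit false

namespace Pool.Agent.T6.H35.EQ

open Finset
open Pool.Agent.H469R2.NK (e norm_e e_add e_zero conj_e)

lemma Irr.mono {T η η' α : ℝ} (hT : 1 ≤ T) (h : Irr T η α) (hη : η' ≤ η) : Irr T η' α :=
  fun q hq1 hq a => h q hq1 (hq.trans (Real.rpow_le_rpow_of_exponent_le hT hη)) a

lemma loglog_ge {N : ℕ} (hN : 16 ≤ N) : 1 ≤ Real.log (Real.log N) ∧ 2 ≤ Real.log N := by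
  have h1 : (2.77 : ℝ) ≤ Real.log N := by
    have h2 : Real.log 16 ≤ Real.log N := Real.log_le_log (by norm_num) (by exact_mod_cast hN)
    have h3 : Real.log 16 = 4 * Real.log 2 := by
      rw [show (16 : ℝ) = 2 ^ 4 by norm_num, Real.log_pow]; norm_num
    have := Real.log_two_gt_d9
    linarith
  refine ⟨?_, by linarith⟩
  rw [Real.le_log_iff_exp_le (by linarith)]
  have := Real.exp_one_lt_d9
  linarith

/-- sums of multiplicative functions twisted by a linear phase -/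
theorem mf_sum {η : ℝ} (hη : 0 < η) : ∃ C : ℝ, 1 ≤ C ∧ ∀ (N : ℕ) (α : ℝ) (f : ℕ → ℂ), 16 ≤ N →
    Irr N η α → Mul1 f →
      ‖∑ n ∈ Icc 1 N, f n * e (n * α)‖ ≤ C * (N * (Real.log (Real.log N) / Real.log N)) := by
  obtain ⟨C1, hC1, h1⟩ := reduce
  obtain ⟨C2, hC2, h2⟩ := bsum_bound
  set η' : ℝ := min η (1 / 4) with hη'
  have hη0 : 0 < η' := lt_min hη (by norm_num)
  have hη1 : η' ≤ η := min_le_left _ _
  have hη2 : η' ≤ 1 / 4 := min_le_right _ _
  obtain ⟨C9, hC9, h9⟩ := log_pow 9 η' hη0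
  obtain ⟨N₁, hN₁⟩ := ev_big (3202 * C9)
  refine ⟨75 + C1 + C2 + Real.log (N₁ + 1), by
    have : 0 ≤ Real.log ((N₁ : ℝ) + 1) := Real.log_nonneg (by have : (0:ℝ) ≤ N₁ := Nat.cast_nonneg _
                                                              linarith)
    linarith, fun N α f hN hI hf => ?_⟩
  have hN16 : (16 : ℝ) ≤ N := by exact_mod_cast hN
  have hN1 : (1 : ℝ) ≤ N := by linarith
  have hN0 : (0 : ℝ) < N := by linarith
  obtain ⟨hll, hl2⟩ := loglog_ge hN
  have hN₁0 : (0 : ℝ) ≤ N₁ := Nat.cast_nonneg _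
  have hlog1 : 0 ≤ Real.log ((N₁ : ℝ) + 1) := Real.log_nonneg (by linarith)
  have hL0 : 0 < Real.log N := by linarith
  rcases Nat.lt_or_ge N N₁ with hlt | hge
  · have h3 : ‖∑ n ∈ Icc 1 N, f n * e (n * α)‖ ≤ N := by
      refine (norm_sum_le _ _).trans ?_
      calc ∑ n ∈ Icc 1 N, ‖f n * e (n * α)‖ ≤ ∑ _n ∈ Icc 1 N, (1 : ℝ) := sum_le_sum fun n _ => by
            rw [norm_mul, norm_e, mul_one]; exact hf.2 n
        _ = N := by simp
    refine h3.trans ?_
    have h4 : Real.log N ≤ Real.log ((N₁ : ℝ) + 1) := by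
      apply Real.log_le_log hN0
      have : (N : ℝ) < N₁ := by exact_mod_cast hlt
      linarith
    have h5 : 1 ≤ (75 + C1 + C2 + Real.log ((N₁ : ℝ) + 1)) * (Real.log (Real.log N) / Real.log N) := by
      rw [mul_div_assoc', le_div_iff₀ hL0, one_mul]
      nlinarith
    calc (N : ℝ) = N * 1 := (mul_one _).symm
      _ ≤ N * ((75 + C1 + C2 + Real.log ((N₁ : ℝ) + 1)) * (Real.log (Real.log N) / Real.log N)) := by gcongr
      _ = _ := by ring
  · set lam : ℝ := 1 + Real.log N with hlam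
    have hlam1 : 1 ≤ lam := by linarith
    obtain ⟨q, c, hq1, hcop, hα, hq2, hq3⟩ := (hI.mono hN1 hη1).approx hN1
    have hbig : 3202 * lam ^ 8 ≤ (N : ℝ) ^ η' := by
      have h3 := h9 N (by omega)
      have h4 : lam ≤ 1 + Real.log (4 * N) := by
        have : Real.log N ≤ Real.log (4 * N) := Real.log_le_log hN0 (by linarith)
        linarith
      have h5 : lam ^ 9 ≤ C9 * (N : ℝ) ^ η' := (pow_le_pow_left₀ (by linarith) h4 9).trans h3
      have h6 : 3202 * C9 ≤ lam := (hN₁ N hge).trans (by linarith)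
      have h7 : C9 * (3202 * lam ^ 8) ≤ C9 * (N : ℝ) ^ η' := by
        calc C9 * (3202 * lam ^ 8) = (3202 * C9) * lam ^ 8 := by ring
          _ ≤ lam * lam ^ 8 := by gcongr
          _ = lam ^ 9 := by ring
          _ ≤ _ := h5
      exact le_of_mul_le_mul_left h7 (by linarith)
    set Y : ℕ := ⌈1600 * lam ^ 8⌉₊ with hY
    have hY1 : 1600 * lam ^ 8 ≤ Y := Nat.le_ceil _
    have hY2 : (Y : ℝ) < 1600 * lam ^ 8 + 1 := Nat.ceil_lt_add_one (by positivity)
    have hlam8 : 1 ≤ lam ^ 8 := one_le_pow₀ hlam1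
    have hY3 : 1 < Y := by
      have : (1 : ℝ) < Y := by linarith
      exact_mod_cast this
    set i0 : ℕ := Nat.clog 2 Y with hi0
    have hK1 : Y ≤ 2 ^ i0 := Nat.le_pow_clog (by norm_num) Y
    have hK2 : 2 ^ i0 ≤ 2 * Y := by
      have h3 := Nat.pow_pred_clog_lt_self (b := 2) (by norm_num) hY3
      have h4 : 0 < i0 := Nat.clog_pos (by norm_num) (by omega)
      rw [← hi0] at h3
      have h5 : 2 ^ i0 = 2 * 2 ^ i0.pred := by
        rw [← pow_succ', Nat.pred_eq_sub_one]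
        congr 1
        omega
      omega
    have hK1r : (Y : ℝ) ≤ ((2 ^ i0 : ℕ) : ℝ) := by exact_mod_cast hK1
    have hK2r : ((2 ^ i0 : ℕ) : ℝ) ≤ 3202 * lam ^ 8 := by
      have : ((2 ^ i0 : ℕ) : ℝ) ≤ 2 * Y := by exact_mod_cast hK2
      linarith
    have hKq : ((2 ^ i0 : ℕ) : ℝ) ≤ q := (hK2r.trans hbig).trans hq2.le
    have hqK : (q : ℝ) * ((2 ^ i0 : ℕ) : ℝ) ≤ N := by
      calc (q : ℝ) * ((2 ^ i0 : ℕ) : ℝ) ≤ (N : ℝ) ^ (1 / 2 : ℝ) * (N : ℝ) ^ η' :=
            mul_le_mul hq3 (hK2r.trans hbig) (Nat.cast_nonneg _) (by positivity)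
        _ = (N : ℝ) ^ (1 / 2 + η') := by rw [← Real.rpow_add hN0]
        _ ≤ (N : ℝ) ^ (1 : ℝ) := Real.rpow_le_rpow_of_exponent_le hN1 (by linarith)
        _ = N := Real.rpow_one _
    have h3 := h2 N i0 q c α f (by omega) hf hq1 hcop hα hKq hqK (hY1.trans hK1r)
    have h4 := h1 N f α (by omega) hf
    have h5 : Real.log ((2 ^ i0 : ℕ) : ℝ) ≤ 9 + 8 * Real.log lam := by
      have h6 : Real.log ((2 ^ i0 : ℕ) : ℝ) ≤ Real.log (3202 * lam ^ 8) :=
        Real.log_le_log (by positivity) hK2r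
      rw [Real.log_mul (by norm_num) (by positivity), Real.log_pow] at h6
      have h7 : Real.log 3202 ≤ 9 := by
        have h8 : Real.log 3202 ≤ Real.log (2 ^ 12) := Real.log_le_log (by norm_num) (by norm_num)
        rw [Real.log_pow] at h8
        have := Real.log_two_lt_d9
        push_cast at h8
        linarith
      push_cast at h6 ⊢
      linarith
    have h6 : Real.log lam ≤ 2 * Real.log (Real.log N) := by
      have h7 : Real.log lam ≤ Real.log (2 * Real.log N) := Real.log_le_log (by linarith) (by linarith)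
      rw [Real.log_mul (by norm_num) hL0.ne'] at h7
      have := Real.log_two_lt_d9
      linarith
    set l2 : ℝ := Real.log (Real.log N) with hl2def
    have h7 : Real.log N * ‖∑ n ∈ Icc 1 N, f n * e (n * α)‖ ≤ N * ((75 + C1 + C2) * l2) := by
      refine h4.trans ?_
      have h8 : ‖bsum N f α‖ + C1 * N ≤ N * (3 * (9 + 8 * (2 * l2)) + C2) + C1 * N := by
        have : (N : ℝ) * (3 * Real.log ((2 ^ i0 : ℕ) : ℝ) + C2) ≤ N * (3 * (9 + 8 * (2 * l2)) + C2) := by
          apply mul_le_mul_of_nonneg_left _ hN0.le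
          linarith
        linarith
      refine h8.trans ?_
      have h10 : 3 * (9 + 8 * (2 * l2)) + C2 + C1 ≤ (75 + C1 + C2) * l2 := by nlinarith
      calc N * (3 * (9 + 8 * (2 * l2)) + C2) + C1 * N = N * (3 * (9 + 8 * (2 * l2)) + C2 + C1) := by ring
        _ ≤ _ := by gcongr
    have h8 : ‖∑ n ∈ Icc 1 N, f n * e (n * α)‖ ≤ N * ((75 + C1 + C2) * l2) / Real.log N := by
      rw [le_div_iff₀ hL0, mul_comm]
      exact h7
    refine h8.trans ?_
    have h10 : 0 ≤ (N : ℝ) * (l2 / Real.log N) := by positivity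
    calc N * ((75 + C1 + C2) * l2) / Real.log N = (75 + C1 + C2) * (N * (l2 / Real.log N)) := by ring
      _ ≤ _ := by
        apply mul_le_mul_of_nonneg_right _ h10
        linarith

/-- discrepancy with a given number of harmonics -/
lemma disc2 {ι : Type} (S : Finset ι) (x : ι → ℝ) (K : ℕ) (hK : 1 ≤ K) {E : ℝ}
    (hE : ∀ h : ℕ, 1 ≤ h → h ≤ K → ‖∑ n ∈ S, e (h * x n)‖ ≤ E) {c : ℝ} (h0 : 0 ≤ c) (h1 : c ≤ 1) :
    |((S.filter (fun n => Int.fract (x n) < c)).card : ℝ) - c * S.card| ≤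
      2 * (E * (1 + Real.log K)) + 4 * (S.card / √K) := by
  have hK1 : (1 : ℝ) ≤ K := by exact_mod_cast hK
  have hK0 : (0 : ℝ) < K := by linarith
  have hs0 : 0 < √(K : ℝ) := Real.sqrt_pos.2 hK0
  have hs1 : 1 ≤ √(K : ℝ) := Real.one_le_sqrt.2 hK1
  have hE0 : 0 ≤ E := (norm_nonneg _).trans (hE 1 le_rfl hK)
  have key : ∀ y : ι → ℝ, (∀ h : ℕ, ‖∑ n ∈ S, e (h * y n)‖ = ‖∑ n ∈ S, e (h * x n)‖) →
      |∑ n ∈ S, (Int.fract (y n) - 1 / 2)| ≤ E * (1 + Real.log K) + 2 * (S.card / √K) := by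
    intro y hy
    have h2 := Pool.Agent.R485.Trans.saw_bound S y K hK (1 / √(K : ℝ)) (by positivity)
      (by rw [div_le_one hs0]; exact hs1)
    refine h2.trans ?_
    have h3 : ∑ h ∈ Icc 1 K, ‖∑ n ∈ S, e (h * y n)‖ / h ≤ E * (1 + Real.log K) := by
      have : ∀ h ∈ Icc 1 K, ‖∑ n ∈ S, e (h * y n)‖ / h ≤ E * (1 / (h : ℝ)) := by
        intro h hh
        rw [mem_Icc] at hh
        rw [hy h, div_eq_mul_one_div]
        have := hE h hh.1 hh.2
        gcongr
      refine (sum_le_sum this).trans ?_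
      rw [← mul_sum]
      apply mul_le_mul_of_nonneg_left _ hE0
      have := harmonic_le_one_add_log K
      rw [harmonic_eq_sum_Icc] at this
      push_cast at this
      simpa using this
    have h4 : (S.card : ℝ) / (K * (1 / √(K : ℝ))) = S.card / √K := by
      have : (K : ℝ) * (1 / √(K : ℝ)) = √K := by
        rw [mul_one_div, Real.div_sqrt]
      rw [this]
    have h5 : (S.card : ℝ) * (1 / √(K : ℝ)) = S.card / √K := by ring
    rw [h4, h5]
    linarith
  have hc : ∀ h : ℕ, ‖∑ n ∈ S, e (h * (x n - c))‖ = ‖∑ n ∈ S, e (h * x n)‖ := by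
    intro h
    have : ∑ n ∈ S, e (h * (x n - c)) = e (-(h * c)) * ∑ n ∈ S, e (h * x n) := by
      rw [mul_sum]
      refine sum_congr rfl fun n _ => ?_
      rw [← e_add]; congr 1; ring
    rw [this, norm_mul, norm_e, one_mul]
  have h2 := key (fun n => x n - c) hc
  have h3 := key x (fun h => rfl)
  rw [count_eq S x h0 h1]
  refine (abs_sub _ _).trans ?_
  linarith

end Pool.Agent.T6.H35.EQ
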