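import Pool.Agent.T6.H35.EQ.MF4
import Mathlib.Analysis.Fourier.FiniteAbelian.PontryaginDuality

/-!
# Level sets of additive functions with values in a finite group
-/

set_option autoImplicit false

namespace Pool.Agent.T6.H35.EQ

open Finset
open Pool.Agent.H469R2.NK (e norm_e e_add e_zero conj_e)

lemma level {N : ℕ} {G : Type} [AddCommGroup G] [Fintype G] [DecidableEq G] (g : ℕ → G)
    (hg : ∀ m n : ℕ, m.Coprime n → g (m * n) = g m + g n) (A : Set ℕ) [DecidablePred (· ∈ A)]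
    (hA : ∀ m n : ℕ, m.Coprime n → (m * n ∈ A ↔ m ∈ A ∧ n ∈ A)) (r : G) (α : ℝ) {E : ℝ}
    (hE : ∀ f : ℕ → ℂ, Mul1 f → ‖∑ n ∈ Icc 1 N, f n * e (n * α)‖ ≤ E) :
    ‖∑ n ∈ (Icc 1 N).filter (fun n => n ∈ A ∧ g n = r), e (n * α)‖ ≤ E := by
  have hG0 : (0 : ℝ) < Fintype.card G := by exact_mod_cast Fintype.card_pos
  set F : AddChar G ℂ → ℕ → ℂ := fun ψ n => if n ∈ A then ψ (g n) else 0 with hF
  have hF1 : ∀ ψ : AddChar G ℂ, Mul1 (F ψ) := by
    intro ψ
    refine ⟨fun m n h => ?_, fun n => ?_⟩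
    · simp only [hF]
      have h1 := hA m n h
      by_cases h2 : m ∈ A
      · by_cases h3 : n ∈ A
        · rw [if_pos (h1.2 ⟨h2, h3⟩), if_pos h2, if_pos h3, hg m n h, AddChar.map_add_eq_mul]
        · rw [if_neg (fun h => h3 (h1.1 h).2), if_neg h3, mul_zero]
      · rw [if_neg (fun h => h2 (h1.1 h).1), if_neg h2, zero_mul]
    · simp only [hF]
      split_ifs
      · rw [AddChar.norm_apply]
      · simp
  have key : (Fintype.card G : ℂ) * ∑ n ∈ (Icc 1 N).filter (fun n => n ∈ A ∧ g n = r), e (n * α) =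
      ∑ ψ : AddChar G ℂ, ψ (-r) * ∑ n ∈ Icc 1 N, F ψ n * e (n * α) := by
    have h1 : ∀ ψ : AddChar G ℂ, ψ (-r) * ∑ n ∈ Icc 1 N, F ψ n * e (n * α) =
        ∑ n ∈ Icc 1 N, (if n ∈ A then ψ (g n - r) else 0) * e (n * α) := by
      intro ψ
      rw [mul_sum]
      refine sum_congr rfl fun n _ => ?_
      simp only [hF]
      split_ifs
      · rw [sub_eq_add_neg, AddChar.map_add_eq_mul]; ring
      · ring
    rw [sum_congr rfl fun ψ _ => h1 ψ, sum_comm, sum_filter, mul_sum]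
    refine sum_congr rfl fun n _ => ?_
    rw [← sum_mul]
    by_cases hn : n ∈ A
    · simp only [if_pos hn]
      rw [AddChar.sum_apply_eq_ite]
      by_cases h2 : g n = r
      · rw [if_pos ⟨hn, h2⟩, if_pos (by rw [h2, sub_self])]
      · rw [if_neg (fun h => h2 h.2), if_neg (fun h => h2 (sub_eq_zero.1 h))]
        ring
    · simp [hn]
  have h2 : (Fintype.card G : ℝ) * ‖∑ n ∈ (Icc 1 N).filter (fun n => n ∈ A ∧ g n = r), e (n * α)‖ ≤
      Fintype.card G * E := by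
    have h3 : (Fintype.card G : ℝ) * ‖∑ n ∈ (Icc 1 N).filter (fun n => n ∈ A ∧ g n = r), e (n * α)‖ =
        ‖(Fintype.card G : ℂ) * ∑ n ∈ (Icc 1 N).filter (fun n => n ∈ A ∧ g n = r), e (n * α)‖ := by
      rw [norm_mul]; simp
    rw [h3, key]
    refine (norm_sum_le _ _).trans ?_
    have h4 : ∀ ψ : AddChar G ℂ, ‖ψ (-r) * ∑ n ∈ Icc 1 N, F ψ n * e (n * α)‖ ≤ E := by
      intro ψ
      rw [norm_mul, AddChar.norm_apply, one_mul]
      exact hE _ (hF1 ψ)
    refine (sum_le_sum fun ψ _ => h4 ψ).trans ?_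
    rw [sum_const, card_univ, nsmul_eq_mul, AddChar.card_eq]
  exact le_of_mul_le_mul_left h2 hG0

/-- the estimate for all multiplicative functions at scale `N` -/
def MFAdm (N : ℕ) (δ C z : ℝ) : Prop := ∀ (m : ℤ), m ≠ 0 → |(m : ℝ)| ≤ (N : ℝ) ^ δ →
  ∀ f : ℕ → ℂ, Mul1 f → ‖∑ n ∈ Icc 1 N, f n * e (n * (m * z))‖ ≤
    C * (N * (Real.log (Real.log N) / Real.log N))

theorem mf_scale : ∃ C : ℝ, 1 ≤ C ∧ ∃ j : ℕ → ℕ, ∀ N : ℕ, 16 ≤ N → j N ∈ JJ ∧
    MFAdm N (1 / 60000) C (zt (j N)) := by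
  classical
  obtain ⟨C, hC, h⟩ := mf_sum (η := 1 / 60000) (by norm_num)
  obtain ⟨N₀, hN₀, hsc⟩ := scale
  refine ⟨C + Real.log (N₀ + 1), by
    have : 0 ≤ Real.log ((N₀ : ℝ) + 1) := Real.log_nonneg (by have : (0:ℝ) ≤ N₀ := Nat.cast_nonneg _
                                                              linarith)
    linarith, fun N => if h : ∃ j ∈ JJ, Irr N (1 / 30000) (zt j) then h.choose else 9, fun N hN => ?_⟩
  have hN₀0 : (0 : ℝ) ≤ N₀ := Nat.cast_nonneg _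
  have hlog1 : 0 ≤ Real.log ((N₀ : ℝ) + 1) := Real.log_nonneg (by linarith)
  have hN16 : (16 : ℝ) ≤ N := by exact_mod_cast hN
  have hN1 : (1 : ℝ) ≤ N := by linarith
  have hN0 : (0 : ℝ) < N := by linarith
  obtain ⟨hll, hl2⟩ := loglog_ge hN
  have hL0 : 0 < Real.log N := by linarith
  have hpos : 0 ≤ (N : ℝ) * (Real.log (Real.log N) / Real.log N) := by positivity
  by_cases hex : ∃ j ∈ JJ, Irr N (1 / 30000) (zt j)
  · beta_reduce
    rw [dif_pos hex]
    obtain ⟨hj, hI⟩ := hex.choose_spec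
    refine ⟨hj, fun m hm hmN f hf => ?_⟩
    refine (h N (m * zt hex.choose) f hN ?_ hf).trans ?_
    · apply hI.mul hm
      calc (N : ℝ) ^ (1 / 60000 : ℝ) * |(m : ℝ)| ≤ (N : ℝ) ^ (1 / 60000 : ℝ) * (N : ℝ) ^ (1 / 60000 : ℝ) := by gcongr
        _ = (N : ℝ) ^ (1 / 30000 : ℝ) := by rw [← Real.rpow_add hN0]; norm_num
    · apply mul_le_mul_of_nonneg_right _ hpos
      linarith
  · beta_reduce
    rw [dif_neg hex]
    refine ⟨by decide, fun m hm hmN f hf => ?_⟩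
    have hlt : N < N₀ := by
      by_contra hge
      exact hex (hsc N (not_lt.1 hge))
    have h3 : ‖∑ n ∈ Icc 1 N, f n * e (n * (m * zt 9))‖ ≤ N := by
      refine (norm_sum_le _ _).trans ?_
      calc ∑ n ∈ Icc 1 N, ‖f n * e (n * (m * zt 9))‖ ≤ ∑ _n ∈ Icc 1 N, (1 : ℝ) := sum_le_sum fun n _ => by
            rw [norm_mul, norm_e, mul_one]; exact hf.2 n
        _ = N := by simp
    refine h3.trans ?_
    have h4 : Real.log N ≤ Real.log ((N₀ : ℝ) + 1) := by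
      apply Real.log_le_log hN0
      have : (N : ℝ) < N₀ := by exact_mod_cast hlt
      linarith
    have h5 : 1 ≤ (C + Real.log ((N₀ : ℝ) + 1)) * (Real.log (Real.log N) / Real.log N) := by
      rw [mul_div_assoc', le_div_iff₀ hL0, one_mul]
      nlinarith
    calc (N : ℝ) = N * 1 := (mul_one _).symm
      _ ≤ N * ((C + Real.log ((N₀ : ℝ) + 1)) * (Real.log (Real.log N) / Real.log N)) := by gcongr
      _ = _ := by ring

/-- equidistribution on level sets -/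
theorem mf_disc {C : ℝ} (hC : 1 ≤ C) : ∃ D : ℝ, ∀ (N : ℕ) (z : ℝ), 16 ≤ N → MFAdm N (1 / 60000) C z →
    ∀ (m : ℤ), m ≠ 0 → |(m : ℝ)| ≤ (N : ℝ) ^ (1 / 120000 : ℝ) → ∀ S : Finset ℕ, S ⊆ Icc 1 N →
    (∀ (α E : ℝ), (∀ f : ℕ → ℂ, Mul1 f → ‖∑ n ∈ Icc 1 N, f n * e (n * α)‖ ≤ E) →
      ‖∑ n ∈ S, e (n * α)‖ ≤ E) → ∀ β c : ℝ, 0 ≤ c → c ≤ 1 →
    |((S.filter (fun n : ℕ => Int.fract (m * z * n + β) < c)).card : ℝ) - c * S.card| ≤
      D * (N * (Real.log (Real.log N) ^ 2 / Real.log N)) := by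
  obtain ⟨N₁, h1⟩ := ev_log (1 / 2) (1 / 240000) (by norm_num) (by norm_num)
  refine ⟨8 * C + 4 + Real.log (N₁ + 1), fun N z hN hz m hm hmN S hS hSE β c h0 hc1 => ?_⟩
  have hN₁0 : (0 : ℝ) ≤ N₁ := Nat.cast_nonneg _
  have hlog1 : 0 ≤ Real.log ((N₁ : ℝ) + 1) := Real.log_nonneg (by linarith)
  have hN16 : (16 : ℝ) ≤ N := by exact_mod_cast hN
  have hN1 : (1 : ℝ) ≤ N := by linarith
  have hN0 : (0 : ℝ) < N := by linarith
  obtain ⟨hll, hl2⟩ := loglog_ge hN
  set L : ℝ := Real.log N with hL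
  set l2 : ℝ := Real.log L with hl2def
  have hL0 : 0 < L := by linarith
  have hl22 : 1 ≤ l2 ^ 2 := one_le_pow₀ hll
  have hScard : (S.card : ℝ) ≤ N := by
    have := card_le_card hS
    rw [Nat.card_Icc, Nat.add_sub_cancel] at this
    exact_mod_cast this
  rcases Nat.lt_or_ge N N₁ with hlt | hge
  · have htriv : |((S.filter (fun n : ℕ => Int.fract (m * z * n + β) < c)).card : ℝ) - c * S.card| ≤ N := by
      have h2 : ((S.filter (fun n : ℕ => Int.fract (m * z * n + β) < c)).card : ℝ) ≤ S.card := by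
        exact_mod_cast card_filter_le _ _
      have h4 : (0 : ℝ) ≤ (S.filter (fun n : ℕ => Int.fract (m * z * n + β) < c)).card := Nat.cast_nonneg _
      have h5 : (0 : ℝ) ≤ S.card := Nat.cast_nonneg _
      rw [abs_le]
      constructor <;> nlinarith
    refine htriv.trans ?_
    have h4 : L ≤ Real.log ((N₁ : ℝ) + 1) := by
      apply Real.log_le_log hN0
      have : (N : ℝ) < N₁ := by exact_mod_cast hlt
      linarith
    have h5 : 1 ≤ (8 * C + 4 + Real.log ((N₁ : ℝ) + 1)) * (l2 ^ 2 / L) := by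
      rw [mul_div_assoc', le_div_iff₀ hL0, one_mul]
      nlinarith
    calc (N : ℝ) = N * 1 := (mul_one _).symm
      _ ≤ N * ((8 * C + 4 + Real.log ((N₁ : ℝ) + 1)) * (l2 ^ 2 / L)) := by gcongr
      _ = _ := by ring
  · set K : ℕ := ⌈L ^ 2⌉₊ with hK
    have hK1 : L ^ 2 ≤ K := Nat.le_ceil _
    have hK2 : (K : ℝ) < L ^ 2 + 1 := Nat.ceil_lt_add_one (by positivity)
    have hK3 : (K : ℝ) ≤ 2 * L ^ 2 := by nlinarith
    have hK0 : (0 : ℝ) < K := by nlinarith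
    have hK1' : 1 ≤ K := by
      have : 0 < K := by exact_mod_cast hK0
      omega
    have hKN : (K : ℝ) ≤ (N : ℝ) ^ (1 / 120000 : ℝ) := by
      have h2 := h1 N hge
      have h3 : L ^ 2 ≤ (1 / 2 * (N : ℝ) ^ (1 / 240000 : ℝ)) ^ 2 := pow_le_pow_left₀ hL0.le h2 2
      rw [mul_pow, ← Real.rpow_natCast ((N : ℝ) ^ (1 / 240000 : ℝ)) 2, ← Real.rpow_mul hN0.le] at h3
      have e1 : (1 / 240000 : ℝ) * ((2 : ℕ) : ℝ) = 1 / 120000 := by norm_num
      rw [e1] at h3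
      have := Real.rpow_pos_of_pos hN0 (1 / 120000 : ℝ)
      nlinarith
    have h2 := disc2 S (fun n : ℕ => m * z * n + β) K hK1' (E := C * (N * (l2 / L))) (fun h hh1 hh2 => by
      have e1 : ∑ n ∈ S, e (h * (m * z * n + β)) = e (h * β) * ∑ n ∈ S, e (n * (((h * m : ℤ) : ℝ) * z)) := by
        rw [mul_sum]
        refine sum_congr rfl fun n _ => ?_
        rw [← e_add]; congr 1; push_cast; ring
      rw [e1, norm_mul, norm_e, one_mul]
      apply hSE
      intro f hf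
      apply hz (h * m) (mul_ne_zero (by exact_mod_cast (by omega : h ≠ 0)) hm) _ f hf
      push_cast
      rw [abs_mul, abs_of_nonneg (Nat.cast_nonneg h)]
      have hhK : (h : ℝ) ≤ K := by exact_mod_cast hh2
      calc (h : ℝ) * |(m : ℝ)| ≤ (N : ℝ) ^ (1 / 120000 : ℝ) * (N : ℝ) ^ (1 / 120000 : ℝ) := by
            have := hhK.trans hKN
            gcongr
        _ = (N : ℝ) ^ (1 / 60000 : ℝ) := by rw [← Real.rpow_add hN0]; norm_num) h0 hc1
    refine h2.trans ?_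
    have h3 : 1 + Real.log K ≤ 4 * l2 := by
      have h4 : Real.log K ≤ Real.log (2 * L ^ 2) := Real.log_le_log hK0 hK3
      rw [Real.log_mul (by norm_num) (by positivity), Real.log_pow] at h4
      have := Real.log_two_lt_d9
      push_cast at h4
      linarith
    have h4 : L ≤ √(K : ℝ) := Real.le_sqrt_of_sq_le hK1
    have h5 : (S.card : ℝ) / √K ≤ N / L := div_le_div₀ hN0.le hScard hL0 h4
    have h6 : C * (N * (l2 / L)) * (1 + Real.log K) ≤ C * (N * (l2 / L)) * (4 * l2) := by gcongr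
    have h7 : (N : ℝ) / L ≤ N * (l2 ^ 2 / L) := by
      rw [mul_div_assoc']
      gcongr
      nlinarith
    have h8 : 0 ≤ Real.log ((N₁ : ℝ) + 1) * (N * (l2 ^ 2 / L)) := by positivity
    calc 2 * (C * (N * (l2 / L)) * (1 + Real.log K)) + 4 * ((S.card : ℝ) / √K) ≤
        2 * (C * (N * (l2 / L)) * (4 * l2)) + 4 * (N * (l2 ^ 2 / L)) := by linarith
      _ = (8 * C + 4) * (N * (l2 ^ 2 / L)) := by ring
      _ ≤ _ := by linarith

end Pool.Agent.T6.H35.EQ
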