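import Pool.Agent.T6.H35.EQ.Weyl

/-!
# Parseval's identity modulo `M`
-/

set_option autoImplicit false

namespace Pool.Agent.T6.H35.EQ

open Finset
open Pool.Agent.H469R2.NK (e norm_e e_add e_zero conj_e)

lemma e_nat_mul (k : ℕ) (x : ℝ) : e (k * x) = e x ^ k := by
  induction k with
  | zero => simp [e_zero]
  | succ k ih => rw [pow_succ, ← ih, ← e_add]; congr 1; push_cast; ring

lemma e_eq_one {x : ℝ} (h : e x = 1) : ∃ n : ℤ, x = n := by
  unfold Pool.Agent.H469R2.NK.e at h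
  rw [Complex.exp_eq_one_iff] at h
  obtain ⟨n, hn⟩ := h
  refine ⟨n, ?_⟩
  have h2 : (2 * Real.pi * Complex.I : ℂ) ≠ 0 := Complex.two_pi_I_ne_zero
  have h3 : (x : ℂ) = n := by
    apply mul_left_cancel₀ h2
    rw [← mul_comm (n : ℂ)]
    rw [← hn]
    push_cast
    ring
  exact_mod_cast h3

lemma e_int (n : ℤ) : e (n : ℝ) = 1 := by
  unfold Pool.Agent.H469R2.NK.e
  rw [Complex.exp_eq_one_iff]
  exact ⟨n, by push_cast; ring⟩

lemma geom_zero {M : ℕ} (hM : 1 ≤ M) {x : ℤ} (hx : ¬ (M : ℤ) ∣ x) :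
    ∑ k ∈ range M, e ((k : ℝ) * (x / M)) = 0 := by
  have hM0 : (M : ℝ) ≠ 0 := by positivity
  have h1 : e ((x : ℝ) / M) ≠ 1 := by
    intro h
    obtain ⟨n, hn⟩ := e_eq_one h
    rw [div_eq_iff hM0] at hn
    apply hx
    exact ⟨n, by have : (x : ℝ) = ((M : ℤ) * n : ℤ) := by push_cast; linarith
                 exact_mod_cast this⟩
  have h2 : ∀ k ∈ range M, e ((k : ℝ) * (x / M)) = e ((x : ℝ) / M) ^ k := fun k _ => e_nat_mul k _
  rw [sum_congr rfl h2, geom_sum_eq h1, ← e_nat_mul]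
  have h3 : (M : ℝ) * (x / M) = x := by field_simp
  rw [h3, e_int, sub_self, zero_div]

/-- Parseval's identity modulo `M` -/
theorem pars {M : ℕ} (hM : 1 ≤ M) (S : Finset ℤ) (c : ℤ → ℂ)
    (hS : ∀ s ∈ S, ∀ t ∈ S, (M : ℤ) ∣ s - t → s = t) :
    ∑ k ∈ range M, ‖∑ s ∈ S, c s * e ((k : ℝ) * (s / M))‖ ^ 2 = M * ∑ s ∈ S, ‖c s‖ ^ 2 := by
  have key : ((∑ k ∈ range M, ‖∑ s ∈ S, c s * e ((k : ℝ) * (s / M))‖ ^ 2 : ℝ) : ℂ) =
      ((M * ∑ s ∈ S, ‖c s‖ ^ 2 : ℝ) : ℂ) := by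
    push_cast
    have h1 : ∀ k ∈ range M, ((‖∑ s ∈ S, c s * e ((k : ℝ) * (s / M))‖ : ℂ)) ^ 2 =
        ∑ s ∈ S, ∑ t ∈ S, c s * (starRingEnd ℂ) (c t) * e ((k : ℝ) * (((s - t : ℤ) : ℝ) / M)) := by
      intro k _
      rw [← Complex.mul_conj', map_sum, sum_mul_sum]
      refine sum_congr rfl fun s _ => sum_congr rfl fun t _ => ?_
      rw [map_mul, conj_e]
      have : e ((k : ℝ) * (((s - t : ℤ) : ℝ) / M)) = e ((k : ℝ) * (s / M)) * e (-((k : ℝ) * (t / M))) := by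
        rw [← e_add]; congr 1; push_cast; ring
      rw [this]
      ring
    rw [sum_congr rfl h1, sum_comm, mul_sum]
    refine sum_congr rfl fun s hs => ?_
    rw [sum_comm]
    have h2 : ∀ t ∈ S, ∑ k ∈ range M, c s * (starRingEnd ℂ) (c t) *
        e ((k : ℝ) * (((s - t : ℤ) : ℝ) / M)) = if t = s then c s * (starRingEnd ℂ) (c s) * M else 0 := by
      intro t ht
      rw [← mul_sum]
      split_ifs with h
      · rw [h]
        simp [e_zero]
      · rw [geom_zero hM, mul_zero]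
        intro hd
        exact h (hS s hs t ht hd).symm
    rw [sum_congr rfl h2, sum_ite_eq' S s, if_pos hs, Complex.mul_conj']
    ring
  exact_mod_cast key

end Pool.Agent.T6.H35.EQ
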