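import Pool.Agent.T6.H35.EQ.Arb

/-!
# Three primes
-/

set_option autoImplicit false

namespace Pool.Agent.T6.H35.EQ

open Finset

/-- the representations of `n` by three primes -/
def tri (n : ℕ) : Finset (ℕ × ℕ × ℕ) :=
  (Pr n ×ˢ Pr n ×ˢ Pr n).filter (fun x => x.1 + x.2.1 + x.2.2 = n)

lemma mem_Pr {n p : ℕ} : p ∈ Pr n ↔ p ≤ n ∧ p.Prime := by
  rw [Pr, mem_filter, mem_range, Nat.lt_succ_iff]

lemma mem_tri {n : ℕ} {x : ℕ × ℕ × ℕ} : x ∈ tri n ↔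
    x.1.Prime ∧ x.2.1.Prime ∧ x.2.2.Prime ∧ x.1 + x.2.1 + x.2.2 = n := by
  simp only [tri, mem_filter, mem_product, mem_Pr]
  constructor
  · rintro ⟨⟨⟨_, h1⟩, ⟨_, h2⟩, _, h3⟩, h4⟩
    exact ⟨h1, h2, h3, h4⟩
  · rintro ⟨h1, h2, h3, h4⟩
    exact ⟨⟨⟨by omega, h1⟩, ⟨by omega, h2⟩, by omega, h3⟩, h4⟩

lemma tri_count (n : ℕ) (P Q : ℕ → Prop) [DecidablePred P] [DecidablePred Q] :
    ((tri n).filter (fun x => P x.1 ∧ Q x.2.1)).card =
      ∑ t ∈ ((Pr n).filter Q).image (fun q : ℕ => (n : ℤ) - q),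
        ((prs n 1 1 t).filter (fun x => P x.1)).card := by
  rw [card_eq_sum_card_fiberwise (f := fun x : ℕ × ℕ × ℕ => (n : ℤ) - x.2.1)
    (t := ((Pr n).filter Q).image (fun q : ℕ => (n : ℤ) - q))]
  · refine sum_congr rfl fun t ht => ?_
    rw [mem_image] at ht
    obtain ⟨q, hq, rfl⟩ := ht
    rw [mem_filter, mem_Pr] at hq
    refine card_nbij' (fun x => (x.1, x.2.2)) (fun x => (x.1, q, x.2)) ?_ ?_ ?_ ?_
    · intro x hx
      rw [mem_coe, mem_filter, mem_filter, mem_tri] at hx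
      rw [mem_coe, mem_filter, mem_prs]
      obtain ⟨⟨⟨h1, h2, h3, h4⟩, h5, h6⟩, h7⟩ := hx
      have h8 : x.2.1 = q := by omega
      refine ⟨⟨⟨by simp only; omega, h1⟩, ⟨by simp only; omega, h3⟩, ?_⟩, h5⟩
      simp only [one_mul]
      omega
    · intro x hx
      rw [mem_coe, mem_filter, mem_prs] at hx
      rw [mem_coe, mem_filter, mem_filter, mem_tri]
      obtain ⟨⟨⟨h1, h2⟩, ⟨h3, h4⟩, h5⟩, h6⟩ := hx
      refine ⟨⟨⟨h2, hq.1.2, h4, ?_⟩, h6, hq.2⟩, rfl⟩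
      simp only [one_mul] at h5 ⊢
      omega
    · intro x hx
      rw [mem_coe, mem_filter, mem_filter, mem_tri] at hx
      have h8 : x.2.1 = q := by
        have := hx.2
        omega
      ext
      · rfl
      · exact h8.symm
      · rfl
    · intro x _
      rfl
  · intro x hx
    rw [mem_coe, mem_filter, mem_tri] at hx
    rw [mem_coe, mem_image]
    refine ⟨x.2.1, ?_, rfl⟩
    rw [mem_filter, mem_Pr]
    exact ⟨⟨by omega, hx.1.2.1⟩, hx.2.2⟩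

lemma tri_swap (n : ℕ) (Q : ℕ → Prop) [DecidablePred Q] :
    ((tri n).filter (fun x => Q x.2.1)).card = ((tri n).filter (fun x => Q x.1)).card := by
  refine card_nbij' (fun x => (x.2.1, x.1, x.2.2)) (fun x => (x.2.1, x.1, x.2.2)) ?_ ?_ ?_ ?_
  · intro x hx
    rw [mem_coe, mem_filter, mem_tri] at hx ⊢
    exact ⟨⟨hx.1.2.1, hx.1.1, hx.1.2.2.1, by simp only; omega⟩, hx.2⟩
  · intro x hx
    rw [mem_coe, mem_filter, mem_tri] at hx ⊢
    exact ⟨⟨hx.1.2.1, hx.1.1, hx.1.2.2.1, by simp only; omega⟩, hx.2⟩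
  · intro x _; rfl
  · intro x _; rfl

lemma adm_sum {n : ℕ} {δ C z : ℝ} (hn : 1 ≤ n) (hδ : 0 ≤ δ) (hC : 0 ≤ C) (h : Adm n δ C z) {k : ℤ}
    (hk : k ≠ 0) (hkn : |(k : ℝ)| ≤ (n : ℝ) ^ δ) (β : ℝ) {c : ℝ} (h0 : 0 ≤ c) (h1 : c ≤ 1)
    (Q : ℕ → Prop) [DecidablePred Q] :
    |(((tri n).filter (fun x => Int.fract (k * z * x.1 + β) < c ∧ Q x.2.1)).card : ℝ) -
      c * ((tri n).filter (fun x => Q x.2.1)).card| ≤ C * (n : ℝ) ^ (2 - δ) := by
  have hn1 : (1 : ℝ) ≤ n := by exact_mod_cast hn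
  have hn0 : (0 : ℝ) < n := by linarith
  have e1 := tri_count n (fun p => Int.fract (k * z * p + β) < c) Q
  have e2 := tri_count n (fun _ => True) Q
  simp only [true_and, filter_true] at e2
  rw [e1, e2]
  set T : Finset ℤ := ((Pr n).filter Q).image (fun q : ℕ => (n : ℤ) - q) with hT
  have h2 := h T (fun _ => 1) (fun _ => 1) (fun _ => k) (fun _ => β) (fun _ => c) (fun t _ => by
    have h3 : (1 : ℝ) ≤ (n : ℝ) ^ δ := Real.one_le_rpow hn1 hδ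
    exact ⟨one_ne_zero, one_ne_zero, hk, by simpa using h3, by simpa using h3, hkn, h0, h1⟩)
  have h3 : (T.card : ℝ) ≤ n := by
    have : T.card ≤ n := card_image_le.trans ((card_filter_le _ _).trans (card_Pr n))
    exact_mod_cast this
  have h4 : √(T.card : ℝ) ≤ (n : ℝ) ^ (1 / 2 : ℝ) := by
    rw [← Real.sqrt_eq_rpow]
    exact Real.sqrt_le_sqrt h3
  push_cast
  rw [mul_sum, ← sum_sub_distrib]
  refine (abs_sum_le_sum_abs _ _).trans (h2.trans ?_)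
  calc C * (n : ℝ) ^ (3 / 2 - δ) * √(T.card : ℝ) ≤ C * (n : ℝ) ^ (3 / 2 - δ) * (n : ℝ) ^ (1 / 2 : ℝ) := by
        have := Real.rpow_pos_of_pos hn0 (3 / 2 - δ)
        gcongr
    _ = _ := by rw [mul_assoc, ← Real.rpow_add hn0]; congr 2; ring

/-- three primes, two of them in given arcs -/
theorem tri_disc {n : ℕ} {δ C z : ℝ} (hn : 1 ≤ n) (hδ : 0 ≤ δ) (hC : 0 ≤ C) (h : Adm n δ C z) {k k' : ℤ}
    (hk : k ≠ 0) (hkn : |(k : ℝ)| ≤ (n : ℝ) ^ δ) (hk' : k' ≠ 0) (hkn' : |(k' : ℝ)| ≤ (n : ℝ) ^ δ)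
    (β β' : ℝ) {c c' : ℝ} (h0 : 0 ≤ c) (h1 : c ≤ 1) (h0' : 0 ≤ c') (h1' : c' ≤ 1) :
    |(((tri n).filter (fun x => Int.fract (k * z * x.1 + β) < c ∧
      Int.fract (k' * z * x.2.1 + β') < c')).card : ℝ) - c * c' * (tri n).card| ≤
      2 * C * (n : ℝ) ^ (2 - δ) := by
  have h2 := adm_sum hn hδ hC h hk hkn β h0 h1 (fun q => Int.fract (k' * z * q + β') < c')
  have h3 := adm_sum hn hδ hC h hk' hkn' β' h0' h1' (fun _ => True)
  simp only [and_true, filter_true] at h3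
  rw [tri_swap n (fun q => Int.fract (k' * z * q + β') < c')] at h2
  set X : ℝ := (((tri n).filter (fun x => Int.fract (k * z * x.1 + β) < c ∧
      Int.fract (k' * z * x.2.1 + β') < c')).card : ℝ)
  set Y : ℝ := (((tri n).filter (fun x => Int.fract (k' * z * x.1 + β') < c')).card : ℝ)
  set Z : ℝ := ((tri n).card : ℝ)
  have e1 : X - c * c' * Z = (X - c * Y) + c * (Y - c' * Z) := by ring
  rw [e1]
  refine (abs_add_le _ _).trans ?_
  rw [abs_mul, abs_of_nonneg h0]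
  have := abs_nonneg (Y - c' * Z)
  nlinarith

end Pool.Agent.T6.H35.EQ
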