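import Pool.Agent.T6.H35.EQ.Pars
import Pool.Agent.T6.H35.EQ.Prime2
import Pool.Agent.T6.H35.EQ.Scale

/-!
# Two primes: mean squares of the twisted numbers of representations
-/

set_option autoImplicit false

namespace Pool.Agent.T6.H35.EQ

open Finset
open Pool.Agent.H469R2.NK (e norm_e e_add e_zero conj_e)

/-- the primes up to `N` -/
def Pr (N : ℕ) : Finset ℕ := (range (N + 1)).filter Nat.Prime

/-- the representations `a p + b q = n` by primes up to `N` -/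
def prs (N : ℕ) (a b n : ℤ) : Finset (ℕ × ℕ) :=
  (Pr N ×ˢ Pr N).filter (fun x => a * (x.1 : ℤ) + b * (x.2 : ℤ) = n)

/-- the twisted number of representations -/
noncomputable def ff (N : ℕ) (a b : ℤ) (θ : ℝ) (n : ℤ) : ℂ := ∑ x ∈ prs N a b n, e (θ * x.1)

lemma card_Pr (N : ℕ) : (Pr N).card ≤ N := by
  have h1 : Pr N ⊆ Icc 1 N := by
    intro p hp
    rw [Pr, mem_filter, mem_range] at hp
    rw [mem_Icc]
    exact ⟨hp.2.one_lt.le, by omega⟩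
  simpa using card_le_card h1

lemma mem_prs {N : ℕ} {a b n : ℤ} {x : ℕ × ℕ} : x ∈ prs N a b n ↔
    (x.1 ≤ N ∧ x.1.Prime) ∧ (x.2 ≤ N ∧ x.2.Prime) ∧ a * (x.1 : ℤ) + b * (x.2 : ℤ) = n := by
  simp only [prs, Pr, mem_filter, mem_product, mem_range, Nat.lt_succ_iff, and_assoc]

lemma card_prs (N : ℕ) (a b n : ℤ) (hb : b ≠ 0) : (prs N a b n).card ≤ N := by
  refine le_trans ?_ (card_Pr N)
  apply card_le_card_of_injOn (fun x => x.1)
  · intro x hx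
    rw [mem_coe, mem_prs] at hx
    simp only [Pr, mem_coe, mem_filter, mem_range]
    exact ⟨by omega, hx.1.2⟩
  · intro x hx y hy hxy
    rw [mem_coe, mem_prs] at hx hy
    simp only at hxy
    have h1 := hx.2.2
    have h2 := hy.2.2
    rw [hxy] at h1
    have h3 : b * (x.2 : ℤ) = b * (y.2 : ℤ) := by linarith
    have h4 : (x.2 : ℤ) = y.2 := mul_left_cancel₀ hb h3
    ext
    · exact hxy
    · exact_mod_cast h4

lemma prs_bound {N : ℕ} {a b n : ℤ} {x : ℕ × ℕ} (hx : x ∈ prs N a b n) : |n| ≤ (|a| + |b|) * N := by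
  rw [mem_prs] at hx
  rw [← hx.2.2]
  have h1 : ((x.1 : ℕ) : ℤ) ≤ N := by exact_mod_cast hx.1.1
  have h2 : ((x.2 : ℕ) : ℤ) ≤ N := by exact_mod_cast hx.2.1.1
  calc |a * (x.1 : ℤ) + b * (x.2 : ℤ)| ≤ |a * (x.1 : ℤ)| + |b * (x.2 : ℤ)| := abs_add_le _ _
    _ = |a| * x.1 + |b| * x.2 := by rw [abs_mul, abs_mul, Nat.abs_cast, Nat.abs_cast]
    _ ≤ |a| * N + |b| * N := by
        have := abs_nonneg a
        have := abs_nonneg b
        gcongr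
    _ = _ := by ring

/-- mean squares of exponential sums over primes -/
lemma mean_sq {N M : ℕ} (hM : 1 ≤ M) {a : ℤ} (ha : a ≠ 0) (haM : |a| * N < M) (θ : ℝ) :
    ∑ k ∈ range M, ‖∑ p ∈ Pr N, e ((p : ℝ) * (a * (k / M) + θ))‖ ^ 2 ≤ M * N := by
  have hinj : Set.InjOn (fun p : ℕ => a * (p : ℤ)) (Pr N : Set ℕ) := by
    intro p _ q _ h
    simp only at h
    exact_mod_cast mul_left_cancel₀ ha h
  have h1 := pars hM ((Pr N).image (fun p : ℕ => a * (p : ℤ))) (fun s => e (θ * (s / a))) (by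
    intro s hs t ht hd
    rw [mem_image] at hs ht
    obtain ⟨p, hp, rfl⟩ := hs
    obtain ⟨q, hq, rfl⟩ := ht
    rw [Pr, mem_filter, mem_range] at hp hq
    by_contra hne
    have h2 : (M : ℤ) ≤ |a * (p : ℤ) - a * (q : ℤ)| := Int.le_of_dvd (abs_pos.2 (sub_ne_zero.2 hne)) ((dvd_abs _ _).2 hd)
    have h3 : |a * (p : ℤ) - a * (q : ℤ)| ≤ |a| * N := by
      rw [← mul_sub, abs_mul]
      apply mul_le_mul_of_nonneg_left _ (abs_nonneg a)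
      rw [abs_le]
      constructor <;> omega
    linarith)
  rw [sum_image hinj] at h1
  have har : (a : ℝ) ≠ 0 := by exact_mod_cast ha
  have h2 : ∀ k ∈ range M, ‖∑ p ∈ Pr N, e ((p : ℝ) * (a * (k / M) + θ))‖ ^ 2 =
      ‖∑ s ∈ (Pr N).image (fun p : ℕ => a * (p : ℤ)), e (θ * (s / a)) * e ((k : ℝ) * (s / M))‖ ^ 2 := by
    intro k _
    rw [sum_image hinj]
    congr 2
    refine sum_congr rfl fun p _ => ?_
    rw [← e_add]
    congr 1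
    push_cast
    field_simp
    ring
  rw [sum_congr rfl h2, h1]
  have h3 : ∑ x ∈ Pr N, ‖e (θ * (((a * (x : ℤ) : ℤ) : ℝ) / a))‖ ^ 2 = (Pr N).card := by
    simp [norm_e]
  rw [h3]
  apply mul_le_mul_of_nonneg_left _ (Nat.cast_nonneg M)
  exact_mod_cast card_Pr N

/-- the mean square of the twisted numbers of representations -/
theorem two_sq {η : ℝ} (hη : 0 < η) : ∃ σ : ℝ, 0 < σ ∧ σ ≤ 1 / 64 ∧ ∃ C : ℝ, 1 ≤ C ∧
    ∀ (N : ℕ) (a b : ℤ) (θ : ℝ), 1 ≤ N → a ≠ 0 → b ≠ 0 →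
      (∀ α : ℝ, Irr N η (a * α + θ) ∨ Irr N η (b * α)) → ∀ T : Finset ℤ,
      ∑ n ∈ T, ‖ff N a b θ n‖ ^ 2 ≤ C * (N : ℝ) ^ (3 - 2 * σ) := by
  obtain ⟨σ, hσ0, hσ1, C, hC, hb⟩ := prime_sum hη
  refine ⟨σ, hσ0, hσ1, 2 * C ^ 2, by nlinarith, ?_⟩
  intro N a b θ hN ha hb0 hI T
  have hN1 : (1 : ℝ) ≤ N := by exact_mod_cast hN
  have hN0 : (0 : ℝ) < N := by linarith
  set M : ℕ := 2 * ((|a| + |b|).toNat * N) + 1 with hM
  have hab : ((|a| + |b|).toNat : ℤ) = |a| + |b| := Int.toNat_of_nonneg (by positivity)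
  have hMz : (M : ℤ) = 2 * ((|a| + |b|) * N) + 1 := by rw [hM]; push_cast; rw [hab]
  have hM1 : 1 ≤ M := by omega
  have hMr : (0 : ℝ) < M := by exact_mod_cast (by omega : 0 < M)
  have haM : |a| * N < M := by
    rw [hMz]
    have : 0 ≤ |b| * (N : ℤ) := by positivity
    have : 0 ≤ |a| * (N : ℤ) := by positivity
    nlinarith
  have hbM : |b| * N < M := by
    rw [hMz]
    have : 0 ≤ |b| * (N : ℤ) := by positivity
    have : 0 ≤ |a| * (N : ℤ) := by positivity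
    nlinarith
  set I : Finset ℤ := (Pr N ×ˢ Pr N).image (fun x => a * (x.1 : ℤ) + b * (x.2 : ℤ)) with hIdef
  have hbd : ∀ s ∈ I, |s| ≤ (|a| + |b|) * N := by
    intro s hs
    rw [hIdef, mem_image] at hs
    obtain ⟨x, hx, hxs⟩ := hs
    refine prs_bound (x := x) (a := a) (b := b) ?_
    rw [prs, mem_filter]
    exact ⟨hx, hxs⟩
  have h1 := pars hM1 I (ff N a b θ) (by
    intro s hs t ht hd
    by_contra hne
    have h2 : (M : ℤ) ≤ |s - t| := Int.le_of_dvd (abs_pos.2 (sub_ne_zero.2 hne)) ((dvd_abs _ _).2 hd)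
    have h3 := hbd s hs
    have h4 := hbd t ht
    have h5 := abs_sub s t
    linarith)
  -- the sum over `T` is at most the sum over `I`
  have h2 : ∑ n ∈ T, ‖ff N a b θ n‖ ^ 2 ≤ ∑ n ∈ I, ‖ff N a b θ n‖ ^ 2 := by
    have h3 : ∑ n ∈ T, ‖ff N a b θ n‖ ^ 2 = ∑ n ∈ T.filter (· ∈ I), ‖ff N a b θ n‖ ^ 2 := by
      rw [sum_filter]
      refine sum_congr rfl fun n _ => ?_
      split_ifs with h
      · rfl
      · have : prs N a b n = ∅ := by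
          rw [prs, filter_eq_empty_iff]
          intro x hx hxn
          exact h (by rw [hIdef, mem_image]; exact ⟨x, hx, hxn⟩)
        rw [ff, this]
        simp
    rw [h3]
    apply sum_le_sum_of_subset_of_nonneg
    · intro n hn
      exact (mem_filter.1 hn).2
    · intro i _ _
      positivity
  refine h2.trans ?_
  -- factorisation
  have h4 : ∀ k ∈ range M, ‖∑ s ∈ I, ff N a b θ s * e ((k : ℝ) * (s / M))‖ ^ 2 =
      ‖∑ p ∈ Pr N, e ((p : ℝ) * (a * (k / M) + θ))‖ ^ 2 * ‖∑ p ∈ Pr N, e ((p : ℝ) * (b * (k / M) + 0))‖ ^ 2 := by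
    intro k _
    rw [← mul_pow, ← norm_mul, sum_mul_sum, ← sum_product']
    congr 2
    rw [← sum_fiberwise_of_maps_to (s := Pr N ×ˢ Pr N) (t := I)
      (g := fun x : ℕ × ℕ => a * (x.1 : ℤ) + b * (x.2 : ℤ)) (fun x hx => mem_image_of_mem _ hx)]
    refine sum_congr rfl fun s _ => ?_
    rw [ff, sum_mul, prs]
    refine sum_congr rfl fun x hx => ?_
    rw [mem_filter] at hx
    rw [← e_add, ← e_add, ← hx.2]
    congr 1
    push_cast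
    ring
  rw [sum_congr rfl h4] at h1
  have h5 : ∀ k ∈ range M, ‖∑ p ∈ Pr N, e ((p : ℝ) * (a * (k / M) + θ))‖ ^ 2 *
      ‖∑ p ∈ Pr N, e ((p : ℝ) * (b * (k / M) + 0))‖ ^ 2 ≤
      (C * (N : ℝ) ^ (1 - σ)) ^ 2 * (‖∑ p ∈ Pr N, e ((p : ℝ) * (a * (k / M) + θ))‖ ^ 2 +
      ‖∑ p ∈ Pr N, e ((p : ℝ) * (b * (k / M) + 0))‖ ^ 2) := by
    intro k _
    have hx := sq_nonneg ‖∑ p ∈ Pr N, e ((p : ℝ) * (a * (k / M) + θ))‖
    have hy := sq_nonneg ‖∑ p ∈ Pr N, e ((p : ℝ) * (b * (k / M) + 0))‖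
    have hz := sq_nonneg (C * (N : ℝ) ^ (1 - σ))
    rcases hI (k / M) with h | h
    · have h6 := hb N _ hN h
      have h7 := pow_le_pow_left₀ (norm_nonneg _) h6 2
      rw [show (range (N + 1)).filter Nat.Prime = Pr N from rfl] at h7
      nlinarith
    · have h6 := hb N _ hN h
      have h7 := pow_le_pow_left₀ (norm_nonneg _) h6 2
      rw [show (range (N + 1)).filter Nat.Prime = Pr N from rfl] at h7
      rw [add_zero] at hy ⊢
      nlinarith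
  have h6 := sum_le_sum h5
  rw [h1, ← mul_sum, sum_add_distrib] at h6
  have h7 := mean_sq hM1 ha haM θ
  have h8 := mean_sq hM1 hb0 hbM 0
  have h9 : (M : ℝ) * ∑ s ∈ I, ‖ff N a b θ s‖ ^ 2 ≤ M * ((C * (N : ℝ) ^ (1 - σ)) ^ 2 * (2 * N)) := by
    refine h6.trans ?_
    have hz := sq_nonneg (C * (N : ℝ) ^ (1 - σ))
    calc (C * (N : ℝ) ^ (1 - σ)) ^ 2 * _ ≤ (C * (N : ℝ) ^ (1 - σ)) ^ 2 * ((M : ℝ) * N + M * N) := by
          apply mul_le_mul_of_nonneg_left _ hz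
          exact add_le_add h7 h8
      _ = _ := by ring
  have h10 := le_of_mul_le_mul_left h9 hMr
  refine h10.trans (le_of_eq ?_)
  rw [mul_pow, ← Real.rpow_natCast ((N : ℝ) ^ (1 - σ)) 2, ← Real.rpow_mul hN0.le]
  calc C ^ 2 * (N : ℝ) ^ ((1 - σ) * ((2 : ℕ) : ℝ)) * (2 * N) = 2 * C ^ 2 * ((N : ℝ) ^ ((1 - σ) * ((2 : ℕ) : ℝ)) * (N : ℝ) ^ (1 : ℝ)) := by
        rw [Real.rpow_one]; ring
    _ = _ := by rw [← Real.rpow_add hN0]; congr 2; push_cast; ring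

/-- two linear forms are not both near rational numbers with small denominators -/
lemma irr_or {N : ℕ} {η η₀ z : ℝ} (hN : 1 ≤ N) (hη4 : 4 * η ≤ η₀)
    (h2 : 2 * (N : ℝ) ^ (2 * η - 1 / 2) ≤ (N : ℝ) ^ (-(1 / 3) : ℝ))
    (hz : ∀ q : ℕ, 1 ≤ q → (q : ℝ) ≤ (N : ℝ) ^ η₀ → ∀ r : ℤ, (N : ℝ) ^ (-(1 / 3) : ℝ) < |q * z - r|)
    {a b k : ℤ} (hb0 : b ≠ 0) (hk0 : k ≠ 0) (ha : |(a : ℝ)| ≤ (N : ℝ) ^ η)
    (hb : |(b : ℝ)| ≤ (N : ℝ) ^ η) (hk : |(k : ℝ)| ≤ (N : ℝ) ^ η) (α : ℝ) :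
    Irr N η (a * α + k * z) ∨ Irr N η (b * α) := by
  by_contra hcon
  push Not at hcon
  obtain ⟨hc1, hc2⟩ := hcon
  unfold Irr at hc1 hc2
  push Not at hc1 hc2
  obtain ⟨q, hq1, hq2, r, hr⟩ := hc1
  obtain ⟨s, hs1, hs2, t, ht⟩ := hc2
  have hN1 : (1 : ℝ) ≤ N := by exact_mod_cast hN
  have hN0 : (0 : ℝ) < N := by linarith
  have hpw : ∀ t : ℝ, 0 < (N : ℝ) ^ t := fun t => Real.rpow_pos_of_pos hN0 t
  have hq0 : (0 : ℝ) ≤ q := Nat.cast_nonneg _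
  have hs0 : (0 : ℝ) ≤ s := Nat.cast_nonneg _
  -- the combination
  have h3 : |((q * s : ℕ) : ℝ) * (b * k) * z - ((s * b * r - a * q * t : ℤ) : ℝ)| ≤
      2 * (N : ℝ) ^ (2 * η - 1 / 2) := by
    have e1 : ((q * s : ℕ) : ℝ) * (b * k) * z - ((s * b * r - a * q * t : ℤ) : ℝ) =
        s * b * (q * (a * α + k * z) - r) - a * q * (s * (b * α) - t) := by
      push_cast; ring
    rw [e1]
    refine (abs_sub _ _).trans ?_
    rw [abs_mul, abs_mul, abs_mul, abs_mul, abs_of_nonneg hs0, abs_of_nonneg hq0]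
    have h4 : (s : ℝ) * |(b : ℝ)| * |q * (a * α + k * z) - r| ≤
        (N : ℝ) ^ η * (N : ℝ) ^ η * (N : ℝ) ^ (-(1 / 2) : ℝ) := by
      have := hpw η
      gcongr
    have h5 : |(a : ℝ)| * (q : ℝ) * |s * (b * α) - t| ≤
        (N : ℝ) ^ η * (N : ℝ) ^ η * (N : ℝ) ^ (-(1 / 2) : ℝ) := by
      have := hpw η
      gcongr
    have h6 : (N : ℝ) ^ η * (N : ℝ) ^ η * (N : ℝ) ^ (-(1 / 2) : ℝ) = (N : ℝ) ^ (2 * η - 1 / 2) := by
      rw [← Real.rpow_add hN0, ← Real.rpow_add hN0]; congr 1; ring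
    linarith
  have hbk : b * k ≠ 0 := mul_ne_zero hb0 hk0
  have hbk1 : 1 ≤ (b * k).natAbs := Int.natAbs_pos.2 hbk
  have hcast : (((b * k).natAbs : ℕ) : ℝ) = |(b : ℝ)| * |(k : ℝ)| := by
    rw [Nat.cast_natAbs, Int.cast_abs]; push_cast; rw [abs_mul]
  have h7 : ((q * s * (b * k).natAbs : ℕ) : ℝ) ≤ (N : ℝ) ^ η₀ := by
    have e2 : ((q * s * (b * k).natAbs : ℕ) : ℝ) = q * s * (|(b : ℝ)| * |(k : ℝ)|) := by
      rw [Nat.cast_mul, hcast]; push_cast; ring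
    rw [e2]
    calc (q : ℝ) * s * (|(b : ℝ)| * |(k : ℝ)|) ≤
        (N : ℝ) ^ η * (N : ℝ) ^ η * ((N : ℝ) ^ η * (N : ℝ) ^ η) := by
          have := hpw η
          gcongr
      _ = (N : ℝ) ^ (4 * η) := by
          rw [← Real.rpow_add hN0, ← Real.rpow_add hN0]; congr 1; ring
      _ ≤ _ := Real.rpow_le_rpow_of_exponent_le hN1 hη4
  have h8 : 1 ≤ q * s * (b * k).natAbs := Nat.one_le_iff_ne_zero.2 (by positivity)
  have h9 := h3.trans h2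
  rcases abs_cases (((b * k : ℤ) : ℝ)) with ⟨h10, _⟩ | ⟨h10, _⟩
  · have h11 := hz _ h8 h7 (s * b * r - a * q * t)
    have e3 : ((q * s * (b * k).natAbs : ℕ) : ℝ) * z = ((q * s : ℕ) : ℝ) * (b * k) * z := by
      rw [Nat.cast_mul, Nat.cast_natAbs, Int.cast_abs, h10]; push_cast; ring
    rw [e3] at h11
    linarith
  · have h11 := hz _ h8 h7 (-(s * b * r - a * q * t))
    have e3 : ((q * s * (b * k).natAbs : ℕ) : ℝ) * z = -(((q * s : ℕ) : ℝ) * (b * k) * z) := by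
      rw [Nat.cast_mul, Nat.cast_natAbs, Int.cast_abs, h10]; push_cast; ring
    rw [e3, Int.cast_neg, neg_sub_neg, abs_sub_comm] at h11
    linarith

/-- at every large scale one of the seven numbers is badly approximable, with a stronger exponent -/
theorem scale3 : ∃ N₀ : ℕ, 1 ≤ N₀ ∧ ∀ N : ℕ, N₀ ≤ N → ∃ j ∈ JJ, ∀ q : ℕ, 1 ≤ q →
    (q : ℝ) ≤ (N : ℝ) ^ (1 / 90000 : ℝ) → ∀ r : ℤ, (N : ℝ) ^ (-(1 / 3) : ℝ) < |q * zt j - r| := by
  obtain ⟨N₀, hN₀, h⟩ := scale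
  refine ⟨(N₀ + 2) ^ 2, Nat.one_le_pow _ _ (by omega), fun N hN => ?_⟩
  have hNbig : 8 ≤ N := le_trans (by nlinarith) hN
  have hN1 : (1 : ℝ) ≤ N := by exact_mod_cast (by omega : 1 ≤ N)
  have hN0 : (0 : ℝ) < N := by linarith
  have hpw : ∀ t : ℝ, 0 < (N : ℝ) ^ t := fun t => Real.rpow_pos_of_pos hN0 t
  set M : ℕ := ⌊(N : ℝ) ^ (2 / 3 : ℝ)⌋₊ with hM
  have hMl : (M : ℝ) ≤ (N : ℝ) ^ (2 / 3 : ℝ) := Nat.floor_le (hpw _).le
  have hMu : (N : ℝ) ^ (2 / 3 : ℝ) < M + 1 := Nat.lt_floor_add_one _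
  have h1 : (N : ℝ) ^ (1 / 2 : ℝ) + 1 ≤ M + 1 + 1 := by
    have := Real.rpow_le_rpow_of_exponent_le hN1 (show (1 / 2 : ℝ) ≤ 2 / 3 by norm_num)
    linarith
  have h2 : ((N₀ : ℝ) + 2) ≤ (N : ℝ) ^ (1 / 2 : ℝ) := by
    have : (((N₀ + 2) ^ 2 : ℕ) : ℝ) ≤ N := by exact_mod_cast hN
    rw [← Real.sqrt_eq_rpow]
    apply Real.le_sqrt_of_sq_le
    push_cast at this
    exact this
  have hMN₀ : N₀ ≤ M := by
    have : (N₀ : ℝ) ≤ M := by linarith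
    exact_mod_cast this
  have hM1 : (1 : ℝ) ≤ M := by exact_mod_cast (by omega : 1 ≤ M)
  have hM0 : (0 : ℝ) < M := by linarith
  obtain ⟨j, hj, hI⟩ := h M hMN₀
  refine ⟨j, hj, fun q hq1 hq2 r => ?_⟩
  have h3 : (N : ℝ) ^ (1 / 3 : ℝ) ≤ M := by
    have h5 : (2 : ℝ) ≤ (N : ℝ) ^ (1 / 3 : ℝ) := by
      calc (2 : ℝ) = (8 : ℝ) ^ (1 / 3 : ℝ) := by
            rw [show (8 : ℝ) = 2 ^ (3 : ℝ) by norm_num, ← Real.rpow_mul (by norm_num)]; norm_num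
        _ ≤ _ := Real.rpow_le_rpow (by norm_num) (by exact_mod_cast hNbig) (by norm_num)
    have h6 : (N : ℝ) ^ (2 / 3 : ℝ) = (N : ℝ) ^ (1 / 3 : ℝ) * (N : ℝ) ^ (1 / 3 : ℝ) := by
      rw [← Real.rpow_add hN0]; norm_num
    nlinarith
  have h4 : (q : ℝ) ≤ (M : ℝ) ^ (1 / 30000 : ℝ) := by
    refine hq2.trans ?_
    calc (N : ℝ) ^ (1 / 90000 : ℝ) = ((N : ℝ) ^ (1 / 3 : ℝ)) ^ (1 / 30000 : ℝ) := by
          rw [← Real.rpow_mul hN0.le]; norm_num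
      _ ≤ _ := Real.rpow_le_rpow (hpw _).le h3 (by norm_num)
  refine lt_of_le_of_lt ?_ (hI q hq1 h4 r)
  calc (N : ℝ) ^ (-(1 / 3) : ℝ) = ((N : ℝ) ^ (2 / 3 : ℝ)) ^ (-(1 / 2) : ℝ) := by
        rw [← Real.rpow_mul hN0.le]; norm_num
    _ ≤ (M : ℝ) ^ (-(1 / 2) : ℝ) := by
        apply Real.rpow_le_rpow_of_nonpos hM0 hMl (by norm_num)

end Pool.Agent.T6.H35.EQ
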