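import Pool.Agent.R485.Trans.Saw
import Pool.Agent.H469R2.NK.Vdc
import Pool.Agent.H807R2.Dav1

/-!
# Weyl sums at one scale

`Irr T η α`: no positive integer `q ≤ T ^ η` makes `q α` closer than `T ^ (-1/2)` to an integer.
For such `α` the Weyl sums of length at most `T` of all polynomials with leading coefficient `α`
are bounded by a power of `T` less than one.
-/

set_option autoImplicit false

namespace Pool.Agent.T6.H35.EQ

open Finset
open Pool.Agent.H469R2.NK (e norm_e e_add e_zero conj_e vdcH)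
open Pool.Agent.H807R2.Dav (dd dd_nonneg dd_ge dd_add_int KK KK_le' geo_bound)

/-- no positive integer `q ≤ T ^ η` makes `q α` closer than `T ^ (-1/2)` to an integer -/
def Irr (T η α : ℝ) : Prop :=
  ∀ q : ℕ, 1 ≤ q → (q : ℝ) ≤ T ^ η → ∀ a : ℤ, T ^ (-(1 / 2) : ℝ) < |q * α - a|

/-- polynomial phases of degree `k + 1` with leading coefficient `α` -/
def Ph : ℕ → ℝ → (ℕ → ℝ) → Prop
  | 0, α, g => ∃ β : ℝ, ∀ n : ℕ, g n = α * n + β
  | k + 1, α, g => ∀ h : ℕ, 1 ≤ h → Ph k ((k + 2) * h * α) (fun n => g (n + h) - g n)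

lemma ee_eq_e (x : ℝ) : Pool.Agent.H807R2.Dav.ee x = e x := by
  rw [Pool.Agent.H807R2.Dav.ee_eq]; rfl

/-- a multiple of a badly approximable number -/
lemma Irr.mul {T η η' α : ℝ} (h : Irr T η α) {r : ℤ} (hr : r ≠ 0)
    (hT : T ^ η' * |(r : ℝ)| ≤ T ^ η) : Irr T η' (r * α) := by
  intro q hq1 hq a
  have hr1 : 1 ≤ r.natAbs := Int.natAbs_pos.2 hr
  have hcast : ((r.natAbs : ℕ) : ℝ) = |(r : ℝ)| := by
    rw [Nat.cast_natAbs, Int.cast_abs]
  have h1 : (((q * r.natAbs : ℕ) : ℕ) : ℝ) ≤ T ^ η := by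
    push_cast
    rw [Nat.cast_natAbs, Int.cast_abs]
    exact (mul_le_mul_of_nonneg_right hq (abs_nonneg _)).trans hT
  have h2 : 1 ≤ q * r.natAbs := Nat.one_le_iff_ne_zero.2 (by positivity)
  rcases abs_cases (r : ℝ) with ⟨h3, _⟩ | ⟨h3, _⟩
  · have h4 := h (q * r.natAbs) h2 h1 a
    push_cast at h4
    rw [Nat.cast_natAbs, Int.cast_abs, h3] at h4
    convert h4 using 2
    ring
  · have h4 := h (q * r.natAbs) h2 h1 (-a)
    push_cast at h4
    rw [Nat.cast_natAbs, Int.cast_abs, h3] at h4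
    rw [← abs_neg]
    convert h4 using 2
    ring

lemma dd_lower {T η α : ℝ} (hT : 1 ≤ T) (hη : 0 ≤ η) (h : Irr T η α) :
    4 * T ^ (-(1 / 2) : ℝ) ≤ dd α := by
  have h1 : ((1 : ℕ) : ℝ) ≤ T ^ η := by
    push_cast; exact Real.one_le_rpow hT hη
  have ha := h 1 le_rfl h1 ⌊α⌋
  have hb := h 1 le_rfl h1 (⌊α⌋ + 1)
  push_cast at ha hb
  have e1 : (1 : ℝ) * α - ⌊α⌋ = Int.fract α := by rw [one_mul]; rfl
  have e2 : (1 : ℝ) * α - (⌊α⌋ + 1) = -(1 - Int.fract α) := by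
    rw [one_mul]; unfold Int.fract; ring
  have hf0 := Int.fract_nonneg α
  have hf1 := (Int.fract_lt_one α).le
  rw [e1, abs_of_nonneg hf0] at ha
  rw [e2, abs_neg, abs_of_nonneg (by linarith)] at hb
  have h2 := dd_ge hf0 hf1
  have h3 : dd α = dd (Int.fract α) := by
    conv_lhs => rw [← Int.fract_add_floor α]
    exact dd_add_int _ _
  rw [h3]
  refine le_trans ?_ h2
  have := le_min ha.le hb.le
  linarith

lemma lin_bound {T η α : ℝ} (hT : 1 ≤ T) (hη : 0 ≤ η) (h : Irr T η α) (β : ℝ) (M : ℕ) :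
    ‖∑ n ∈ range M, e (α * n + β)‖ ≤ T ^ (1 / 2 : ℝ) := by
  have h1 := dd_lower hT hη h
  have hpos : 0 < T ^ (-(1 / 2) : ℝ) := Real.rpow_pos_of_pos (by linarith) _
  have h2 : ∑ n ∈ range M, e (α * n + β) = e β * ∑ n ∈ Ico 0 M, e ((n : ℝ) * α) := by
    rw [mul_sum, range_eq_Ico]
    refine sum_congr rfl fun n _ => ?_
    rw [← e_add]; congr 1; ring
  rw [h2, norm_mul, norm_e, one_mul]
  have h3 := geo_bound 0 M (Nat.zero_le _) (M := (M : ℝ)) (by simp) α
  simp only [ee_eq_e] at h3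
  refine h3.trans ((KK_le' (Nat.cast_nonneg _) (by positivity) h1).trans ?_)
  rw [Real.rpow_neg (by linarith), div_le_iff₀ (by positivity)]
  have h4 : 0 < T ^ (1 / 2 : ℝ) := Real.rpow_pos_of_pos (by linarith) _
  have h5 : T ^ (1 / 2 : ℝ) * (4 * (T ^ (1 / 2 : ℝ))⁻¹) = 4 := by field_simp
  rw [h5]; norm_num

/-- **Weyl's bound at one scale** -/
theorem weyl (k : ℕ) : ∀ η : ℝ, 0 < η → η ≤ 1 → ∃ σ : ℝ, 0 < σ ∧ σ ≤ 1 / 2 ∧ ∃ C : ℝ, 1 ≤ C ∧
    ∀ (N M : ℕ) (α : ℝ) (g : ℕ → ℝ), 1 ≤ N → M ≤ N → Irr N η α → Ph k α g →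
      ‖∑ n ∈ range M, e (g n)‖ ≤ C * (N : ℝ) ^ (1 - σ) := by
  induction k with
  | zero =>
    intro η hη hη1
    refine ⟨1 / 2, by norm_num, le_rfl, 1, le_rfl, ?_⟩
    rintro N M α g hN hM hI ⟨β, hβ⟩
    have hN1 : (1 : ℝ) ≤ N := by exact_mod_cast hN
    have h1 := lin_bound hN1 hη.le hI β M
    rw [one_mul]
    calc ‖∑ n ∈ range M, e (g n)‖ = ‖∑ n ∈ range M, e (α * n + β)‖ := by
          congr 1; exact sum_congr rfl fun n _ => by rw [hβ]
      _ ≤ (N : ℝ) ^ (1 / 2 : ℝ) := h1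
      _ = _ := by norm_num
  | succ k ih =>
    intro η hη hη1
    obtain ⟨s, hs0, hs1, C, hC, hw⟩ := ih (η / 4) (by positivity) (by linarith)
    set σ : ℝ := min (η / 4) s / 2 with hσ
    have hσ0 : 0 < σ := by positivity
    have hσ1 : 2 * σ ≤ η / 4 := by rw [hσ]; linarith [min_le_left (η / 4) s]
    have hσ2 : 2 * σ ≤ s := by rw [hσ]; linarith [min_le_right (η / 4) s]
    refine ⟨σ, hσ0, by linarith, 2 + 4 * C + (k + 2), by have : (0 : ℝ) ≤ k := Nat.cast_nonneg _; linarith, ?_⟩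
    intro N M α g hN hM hI hP
    have hk0 : (0 : ℝ) ≤ k := Nat.cast_nonneg _
    have hN1 : (1 : ℝ) ≤ N := by exact_mod_cast hN
    have hN0 : (0 : ℝ) < N := by linarith
    have hpw : ∀ t : ℝ, 0 < (N : ℝ) ^ t := fun t => Real.rpow_pos_of_pos hN0 t
    have hmono : ∀ {s t : ℝ}, s ≤ t → (N : ℝ) ^ s ≤ (N : ℝ) ^ t := fun h =>
      Real.rpow_le_rpow_of_exponent_le hN1 h
    have htriv : ‖∑ n ∈ range M, e (g n)‖ ≤ M := by
      refine (norm_sum_le _ _).trans ?_
      simp [norm_e]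
    rcases lt_or_ge ((N : ℝ) ^ (η / 2)) (k + 2) with hsm | hbig
    · refine htriv.trans (le_trans (Nat.cast_le.2 hM) ?_)
      have h1 : (N : ℝ) = (N : ℝ) ^ σ * (N : ℝ) ^ (1 - σ) := by
        rw [← Real.rpow_add hN0]; simp
      have h2 : (N : ℝ) ^ σ ≤ k + 2 := (hmono (by linarith)).trans hsm.le
      calc (N : ℝ) = (N : ℝ) ^ σ * (N : ℝ) ^ (1 - σ) := h1
        _ ≤ (2 + 4 * C + (k + 2)) * (N : ℝ) ^ (1 - σ) := by
            apply mul_le_mul_of_nonneg_right _ (hpw _).le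
            linarith
    · set H : ℕ := ⌈(N : ℝ) ^ (η / 4)⌉₊ with hH
      have hq1 : (1 : ℝ) ≤ (N : ℝ) ^ (η / 4) := Real.one_le_rpow hN1 (by positivity)
      have hHl : (N : ℝ) ^ (η / 4) ≤ H := Nat.le_ceil _
      have hHN : H ≤ N := by
        rw [hH, Nat.ceil_le]
        calc (N : ℝ) ^ (η / 4) ≤ (N : ℝ) ^ (1 : ℝ) := hmono (by linarith)
          _ = N := Real.rpow_one _
      have hH0 : (0 : ℝ) < H := by linarith
      have hv := vdcH (fun n => e (g n)) (fun n => (norm_e _).le) M H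
      have hin : ∀ l ∈ Ico 1 H, ‖∑ n ∈ range (M - l), e (g (n + l)) * (starRingEnd ℂ) (e (g n))‖ ≤
          C * (N : ℝ) ^ (1 - s) := by
        intro l hl
        rw [mem_Ico] at hl
        have hl2 : (l : ℝ) ≤ (N : ℝ) ^ (η / 4) := by
          have := Nat.lt_ceil.1 hl.2
          exact this.le
        have h1 : Irr N (η / 4) (((k + 2 : ℕ) * l : ℤ) * α) := by
          apply hI.mul (by have := hl.1; positivity)
          push_cast
          rw [abs_of_nonneg (by positivity)]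
          calc (N : ℝ) ^ (η / 4) * ((k + 2) * l) ≤ (N : ℝ) ^ (η / 4) * ((N : ℝ) ^ (η / 2) * (N : ℝ) ^ (η / 4)) := by
                gcongr
            _ = (N : ℝ) ^ η := by
                rw [← Real.rpow_add hN0, ← Real.rpow_add hN0]; congr 1; ring
        have h2 := hw N (M - l) _ _ hN ((Nat.sub_le _ _).trans hM) h1 (by
          have := hP l hl.1
          convert this using 2
          push_cast; ring)
        have h3 : ∑ n ∈ range (M - l), e (g (n + l)) * (starRingEnd ℂ) (e (g n)) =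
            ∑ n ∈ range (M - l), e (g (n + l) - g n) := by
          refine sum_congr rfl fun n _ => ?_
          rw [conj_e, ← e_add]; congr 1
        rw [h3]
        exact h2
      have hsum : ∑ l ∈ Ico 1 H, ‖∑ n ∈ range (M - l), e (g (n + l)) * (starRingEnd ℂ) (e (g n))‖ ≤
          H * (C * (N : ℝ) ^ (1 - s)) := by
        refine (sum_le_sum hin).trans ?_
        rw [sum_const, Nat.card_Ico, nsmul_eq_mul]
        apply mul_le_mul_of_nonneg_right _ (by have := hpw (1 - s); positivity)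
        exact_mod_cast Nat.sub_le _ _
      have hMr : (M : ℝ) ≤ N := by exact_mod_cast hM
      have hHr : (H : ℝ) ≤ N := by exact_mod_cast hHN
      have hps := hpw (1 - s)
      have h4 : (H : ℝ) * ‖∑ n ∈ range M, e (g n)‖ ^ 2 ≤
          (2 * N) * (N + 2 * (H * (C * (N : ℝ) ^ (1 - s)))) := by
        refine hv.trans ?_
        apply mul_le_mul (by linarith) (by linarith) _ (by positivity)
        have : 0 ≤ ∑ l ∈ Ico 1 H, ‖∑ n ∈ range (M - l), e (g (n + l)) * (starRingEnd ℂ) (e (g n))‖ :=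
          sum_nonneg fun _ _ => norm_nonneg _
        positivity
      have h5 : ‖∑ n ∈ range M, e (g n)‖ ^ 2 ≤ (2 + 4 * C) * (N : ℝ) ^ (2 - 2 * σ) := by
        have h6 : ‖∑ n ∈ range M, e (g n)‖ ^ 2 ≤ 2 * (N : ℝ) ^ 2 / H + 4 * C * (N * (N : ℝ) ^ (1 - s)) := by
          rw [← sub_nonneg]
          have h7 : (2 * (N : ℝ) ^ 2 / H + 4 * C * (N * (N : ℝ) ^ (1 - s)) - ‖∑ n ∈ range M, e (g n)‖ ^ 2) * H =
              2 * (N : ℝ) ^ 2 + 4 * C * (N * (N : ℝ) ^ (1 - s)) * H - H * ‖∑ n ∈ range M, e (g n)‖ ^ 2 := by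
            field_simp
          have h8 : 0 ≤ (2 * (N : ℝ) ^ 2 / H + 4 * C * (N * (N : ℝ) ^ (1 - s)) - ‖∑ n ∈ range M, e (g n)‖ ^ 2) * H := by
            rw [h7]; nlinarith
          exact nonneg_of_mul_nonneg_left h8 hH0
        refine h6.trans ?_
        have h9 : (N : ℝ) ^ 2 / H ≤ (N : ℝ) ^ (2 - 2 * σ) := by
          rw [div_le_iff₀ hH0]
          calc (N : ℝ) ^ 2 = (N : ℝ) ^ (2 - η / 4) * (N : ℝ) ^ (η / 4) := by
                rw [← Real.rpow_add hN0, ← Real.rpow_natCast]; norm_num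
            _ ≤ (N : ℝ) ^ (2 - 2 * σ) * H := by
                apply mul_le_mul (hmono (by linarith)) hHl (hpw _).le (hpw _).le
        have h10 : (N : ℝ) * (N : ℝ) ^ (1 - s) ≤ (N : ℝ) ^ (2 - 2 * σ) := by
          calc (N : ℝ) * (N : ℝ) ^ (1 - s) = (N : ℝ) ^ (1 : ℝ) * (N : ℝ) ^ (1 - s) := by rw [Real.rpow_one]
            _ = (N : ℝ) ^ (2 - s) := by rw [← Real.rpow_add hN0]; congr 1; ring
            _ ≤ _ := hmono (by linarith)
        have e1 : 2 * (N : ℝ) ^ 2 / H = 2 * ((N : ℝ) ^ 2 / H) := by ring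
        rw [e1]
        nlinarith [mul_le_mul_of_nonneg_left h10 (show 0 ≤ 4 * C by linarith)]
      have h11 : ‖∑ n ∈ range M, e (g n)‖ ^ 2 ≤ ((2 + 4 * C) * (N : ℝ) ^ (1 - σ)) ^ 2 := by
        refine h5.trans ?_
        have e2 : (N : ℝ) ^ (2 - 2 * σ) = ((N : ℝ) ^ (1 - σ)) ^ 2 := by
          rw [← Real.rpow_natCast, ← Real.rpow_mul hN0.le]; congr 1; push_cast; ring
        rw [mul_pow, ← e2]
        apply mul_le_mul_of_nonneg_right _ (hpw _).le
        nlinarith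
      have h12 := (pow_le_pow_iff_left₀ (norm_nonneg _) (by have := hpw (1 - σ); positivity) two_ne_zero).1 h11
      refine h12.trans ?_
      apply mul_le_mul_of_nonneg_right _ (hpw _).le
      linarith

end Pool.Agent.T6.H35.EQ
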